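import Pool.Agent.Lib.MP_65a8de_lc.Lang

/-!
# No subspace of `tal(V_∞)` is `NP^D`-simple
-/

namespace Pool.Agent.Lib.MP_65a8de_lc

open Function Finset

/-! ### Digits -/

theorem sum_digits_lt {q : ℕ} (hq : 2 ≤ q) (a : ℕ → ℕ) (ha : ∀ i, a i < q) (k : ℕ) :
    ∑ i ∈ range k, a i * q ^ i < q ^ k := by
  induction k with
  | zero => simp
  | succ k ih =>
    rw [sum_range_succ, pow_succ]
    have := Nat.mul_le_mul_right (q ^ k) (Nat.le_sub_one_of_lt (ha k))
    have e : (q - 1) * q ^ k + q ^ k = q ^ k * q := by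
      obtain ⟨m, rfl⟩ : ∃ m, q = m + 1 := ⟨q - 1, by omega⟩
      simp only [Nat.add_sub_cancel]
      ring
    omega

theorem digits_unique {q : ℕ} (hq : 2 ≤ q) (a b : ℕ → ℕ) (ha : ∀ i, a i < q)
    (hb : ∀ i, b i < q) (k : ℕ) (h : ∑ i ∈ range k, a i * q ^ i = ∑ i ∈ range k, b i * q ^ i) :
    ∀ i < k, a i = b i := by
  induction k with
  | zero => intro i hi; omega
  | succ k ih =>
    rw [sum_range_succ, sum_range_succ] at h
    have h1 := sum_digits_lt hq a ha k
    have h2 := sum_digits_lt hq b hb k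
    have hpos : 0 < q ^ k := by positivity
    have h3 : a k = b k := by
      have e1 : (∑ i ∈ range k, a i * q ^ i + a k * q ^ k) / q ^ k = a k := by
        rw [Nat.add_mul_div_right _ _ hpos, Nat.div_eq_of_lt h1, Nat.zero_add]
      have e2 : (∑ i ∈ range k, b i * q ^ i + b k * q ^ k) / q ^ k = b k := by
        rw [Nat.add_mul_div_right _ _ hpos, Nat.div_eq_of_lt h2, Nat.zero_add]
      rw [← e1, ← e2, h]
    rw [h3] at h
    intro i hi
    rcases Nat.lt_succ_iff_lt_or_eq.1 hi with hi | rfl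
    · exact ih (by omega) i hi
    · exact h3

/-! ### Codes -/

section Code

variable {F : Type} [Field F] [Fintype F] (φ : F ≃ Fin (Fintype.card F))
  (hφ : (φ 0 : ℕ) = 0)

include hφ

theorem two_le_card : 2 ≤ Fintype.card F := Fintype.one_lt_card

theorem phi_eq_zero {a : F} (h : (φ a : ℕ) = 0) : a = 0 := by
  apply φ.injective
  apply Fin.ext
  rw [h, hφ]

theorem sum_eq (c : ℕ →₀ F) (J : ℕ) (hc : ∀ i ≥ J, c i = 0) (f : ℕ → ℕ) :
    (c.sum fun j a => (φ a : ℕ) * f j) = ∑ j ∈ range J, (φ (c j) : ℕ) * f j := by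
  apply Finsupp.sum_of_support_subset
  · intro j hj
    rw [Finsupp.mem_support_iff] at hj
    rw [mem_range]
    by_contra h
    exact hj (hc j (by omega))
  · intro j _
    rw [hφ, zero_mul]

theorem code_eq (v : ℕ →₀ F) (k : ℕ) (hv : ∀ i ≥ k, v i = 0) :
    code φ v = ∑ i ∈ range k, (φ (v i) : ℕ) * Fintype.card F ^ i :=
  sum_eq φ hφ v k hv _

theorem code_lt (v : ℕ →₀ F) (k : ℕ) (hv : ∀ i ≥ k, v i = 0) :
    code φ v < Fintype.card F ^ k := by
  rw [code_eq φ hφ v k hv]
  exact sum_digits_lt Fintype.one_lt_card _ (fun i => (φ (v i)).2) k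

theorem exists_bound (v : ℕ →₀ F) : ∃ k, ∀ i ≥ k, v i = 0 := by
  refine ⟨v.support.sup id + 1, fun i hi => ?_⟩
  by_contra h
  have : i ≤ v.support.sup id := Finset.le_sup (f := id) (Finsupp.mem_support_iff.2 h)
  omega

theorem le_code (v : ℕ →₀ F) (k : ℕ) (hv : v k ≠ 0) : Fintype.card F ^ k ≤ code φ v := by
  have h1 : (φ (v k) : ℕ) * Fintype.card F ^ k ≤ code φ v := by
    rw [code, Finsupp.sum]
    exact Finset.single_le_sum (f := fun i => (φ (v i) : ℕ) * Fintype.card F ^ i)
      (fun i _ => Nat.zero_le _) (Finsupp.mem_support_iff.2 hv)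
  refine le_trans ?_ h1
  refine Nat.le_mul_of_pos_left _ (Nat.pos_of_ne_zero fun h => hv (phi_eq_zero φ hφ h))

theorem code_injective : Injective (code φ) := by
  intro v w h
  obtain ⟨k, hk⟩ := exists_bound φ hφ v
  obtain ⟨l, hl⟩ := exists_bound φ hφ w
  have hv : ∀ i ≥ max k l, v i = 0 := fun i hi => hk i (le_trans (le_max_left _ _) hi)
  have hw : ∀ i ≥ max k l, w i = 0 := fun i hi => hl i (le_trans (le_max_right _ _) hi)
  rw [code_eq φ hφ v _ hv, code_eq φ hφ w _ hw] at h
  have := digits_unique Fintype.one_lt_card _ _ (fun i => (φ (v i)).2) (fun i => (φ (w i)).2) _ h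
  ext i
  by_cases hi : i < max k l
  · exact φ.injective (Fin.ext (this i hi))
  · rw [hv i (by omega), hw i (by omega)]

theorem exists_trim (c : ℕ →₀ F) :
    ∃ J, (∀ i ≥ J, c i = 0) ∧ ∀ i, J = i + 1 → c i ≠ 0 := by
  classical
  refine ⟨Nat.find (exists_bound φ hφ c), Nat.find_spec (exists_bound φ hφ c), ?_⟩
  intro i hi h0
  have := Nat.find_min (exists_bound φ hφ c) (m := i) (by omega)
  apply this
  intro j hj
  rcases Nat.eq_or_lt_of_le hj with rfl | h
  · exact h0
  · exact Nat.find_spec (exists_bound φ hφ c) j (by omega)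

theorem exists_of_digits (J : ℕ) (d : ℕ → ℕ) (hd : ∀ j, d j < Fintype.card F) :
    ∃ c : ℕ →₀ F, (∀ i ≥ J, c i = 0) ∧ ∀ i < J, (φ (c i) : ℕ) = d i := by
  classical
  refine ⟨Finsupp.onFinset (range J) (fun j => if j < J then φ.symm ⟨d j, hd j⟩ else 0) ?_,
    ?_, ?_⟩
  · intro j hj
    rw [mem_range]
    by_contra h
    exact hj (if_neg h)
  · intro i hi
    rw [Finsupp.onFinset_apply, if_neg (by omega)]
  · intro i hi
    rw [Finsupp.onFinset_apply, if_pos hi, Equiv.apply_symm_apply]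

theorem code_mapDomain (f : ℕ → ℕ) (hf : Injective f) (c : ℕ →₀ F) (J : ℕ)
    (hc : ∀ i ≥ J, c i = 0) : code φ (Finsupp.mapDomain f c) =
      ∑ j ∈ range J, (φ (c j) : ℕ) * Fintype.card F ^ f j := by
  rw [code, Finsupp.sum_mapDomain_index_inj hf]
  exact sum_eq φ hφ c J hc _

omit hφ in
theorem mem_codes (S : Set (ℕ →₀ F)) (n : ℕ) :
    List.replicate n true ∈ codes φ S ↔ ∃ v ∈ S, code φ v = n := by
  constructor
  · rintro ⟨v, hv, h⟩
    refine ⟨v, hv, ?_⟩
    have := congrArg List.length h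
    rw [List.length_replicate, List.length_replicate] at this
    exact this.symm
  · rintro ⟨v, hv, rfl⟩
    exact ⟨v, hv, rfl⟩

/-- A gap of the language of `M` is an index that is not the top index of a vector in `M`. -/
theorem gapL_iff (M : Submodule F (ℕ →₀ F)) (g : ℕ) :
    GapL (codes φ (M : Set (ℕ →₀ F))) (Fintype.card F) g ↔
      ∀ v ∈ M, v g ≠ 0 → ∃ i > g, v i ≠ 0 := by
  constructor
  · intro h v hv hvg
    by_contra hn
    push Not at hn
    refine h (code φ v) (le_code φ hφ v g hvg) (code_lt φ hφ v _ fun i hi => hn i (by omega)) ?_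
    exact (mem_codes φ _ _).2 ⟨v, hv, rfl⟩
  · intro h x hx1 hx2 hx3
    obtain ⟨v, hv, rfl⟩ := (mem_codes φ _ _).1 hx3
    have h1 : ∀ i > g, v i = 0 := by
      intro i hi
      by_contra hn
      have h2 := le_code φ hφ v i hn
      have h3 : Fintype.card F ^ (g + 1) ≤ Fintype.card F ^ i :=
        Nat.pow_le_pow_right (Fintype.card_pos) hi
      omega
    have h2 : v g ≠ 0 := by
      intro hn
      have := code_lt φ hφ v g (fun i hi => by
        rcases Nat.eq_or_lt_of_le hi with rfl | h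
        · exact hn
        · exact h1 i h)
      omega
    obtain ⟨i, hi, hne⟩ := h v hv h2
    exact hne (h1 i hi)

end Code

/-! ### Infinitely many gaps -/

theorem finiteDimensional_of_tops {F : Type} [Field F] (M : Submodule F (ℕ →₀ F)) (k : ℕ)
    (h : ∀ g ≥ k, ∃ v ∈ M, v g ≠ 0 ∧ ∀ i > g, v i = 0) :
    FiniteDimensional F ((ℕ →₀ F) ⧸ M) := by
  classical
  -- the quotient is spanned by the images of the first `k` basis vectors
  let S : Submodule F (ℕ →₀ F) :=
    Submodule.span F ((range k).image fun i => Finsupp.single i (1 : F) : Set (ℕ →₀ F))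
  have key : ∀ n : ℕ, ∀ v : ℕ →₀ F, (∀ i ≥ n, v i = 0) → v ∈ M ⊔ S := by
    intro n
    induction n with
    | zero =>
      intro v hv
      have : v = 0 := by ext i; exact hv i (Nat.zero_le _)
      rw [this]
      exact Submodule.zero_mem _
    | succ n ih =>
      intro v hv
      by_cases hn : n < k
      · have hs : Finsupp.single n (1 : F) ∈ M ⊔ S := by
          refine Submodule.mem_sup_right (Submodule.subset_span ?_)
          rw [Finset.coe_image]
          exact ⟨n, by simpa using hn, rfl⟩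
        have h1 : v - v n • Finsupp.single n (1 : F) ∈ M ⊔ S := by
          apply ih
          intro i hi
          rcases Nat.eq_or_lt_of_le hi with rfl | h'
          · simp
          · rw [Finsupp.sub_apply, Finsupp.smul_apply, Finsupp.single_eq_of_ne (by omega),
              hv i h']
            simp
        have := Submodule.add_mem _ h1 (Submodule.smul_mem _ (v n) hs)
        rwa [sub_add_cancel] at this
      · obtain ⟨m, hm, hmn, hm0⟩ := h n (by omega)
        have hs : m ∈ M ⊔ S := Submodule.mem_sup_left hm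
        have h1 : v - (v n / m n) • m ∈ M ⊔ S := by
          apply ih
          intro i hi
          rcases Nat.eq_or_lt_of_le hi with rfl | h'
          · rw [Finsupp.sub_apply, Finsupp.smul_apply, smul_eq_mul, div_mul_cancel₀ _ hmn,
              sub_self]
          · rw [Finsupp.sub_apply, Finsupp.smul_apply, hm0 i h', hv i h']
            simp
        have := Submodule.add_mem _ h1 (Submodule.smul_mem _ (v n / m n) hs)
        rwa [sub_add_cancel] at this
  have htop : M ⊔ S = ⊤ := by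
    rw [eq_top_iff]
    intro v _
    refine key (v.support.sup id + 1) v fun i hi => ?_
    by_contra h0
    have : i ≤ v.support.sup id := Finset.le_sup (f := id) (Finsupp.mem_support_iff.2 h0)
    omega
  have hfg : S.FG := ⟨_, rfl⟩
  have h1 : (⊤ : Submodule F ((ℕ →₀ F) ⧸ M)) = S.map M.mkQ := by
    rw [← Submodule.range_mkQ M, ← Submodule.map_top, ← htop, Submodule.map_sup,
      Submodule.mkQ_map_self, bot_sup_eq]
  exact ⟨h1 ▸ hfg.map M.mkQ⟩

/-! ### The levels -/

namespace GapData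

variable {D : Set (List Bool)} (X : GapData D)

/-- The high levels. -/
noncomputable def hi (s j : ℕ) : ℕ := X.F^[j + 1] s

/-- The low levels. -/
noncomputable def lo (s j : ℕ) : ℕ := X.G (X.F^[j] s)

theorem lo_lt_hi (s j : ℕ) : X.lo s j < X.hi s j := by
  rw [lo, hi, iterate_succ_apply']
  exact X.G_lt_F _

theorem hi_lt_lo (s j : ℕ) : X.hi s j < X.lo s (j + 1) := by
  rw [lo, hi]
  exact X.lt_G _

theorem strictMono_hi (s : ℕ) : StrictMono (X.hi s) :=
  strictMono_nat_of_lt_succ fun j => (X.hi_lt_lo s j).trans (X.lo_lt_hi s (j + 1))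

theorem strictMono_lo (s : ℕ) : StrictMono (X.lo s) :=
  strictMono_nat_of_lt_succ fun j => (X.lo_lt_hi s j).trans (X.hi_lt_lo s j)

theorem lo_ne_hi (s i j : ℕ) : X.lo s i ≠ X.hi s j := by
  rcases Nat.lt_or_ge j i with h | h
  · have h1 := (X.strictMono_lo s).monotone (show j + 1 ≤ i from h)
    have h2 := X.hi_lt_lo s j
    omega
  · have h1 := (X.strictMono_hi s).monotone h
    have h2 := X.lo_lt_hi s i
    omega

end GapData

section Main

variable {F : Type} [Field F] [Fintype F] (φ : F ≃ Fin (Fintype.card F))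
  (hφ : (φ 0 : ℕ) = 0) {D : Set (List Bool)} (X : GapData D)

include hφ

theorem code_hi (s : ℕ) (c : ℕ →₀ F) (J : ℕ) (hc : ∀ i ≥ J, c i = 0) :
    code φ (Finsupp.mapDomain (X.hi s) c) =
      X.emn (Fintype.card F) s J fun j => (φ (c j) : ℕ) :=
  code_mapDomain φ hφ _ (X.strictMono_hi s).injective c J hc

theorem rdn_false (s J : ℕ) (d : ℕ → ℕ) :
    X.rdn (Fintype.card F) false s J d = X.emn (Fintype.card F) s J d := by
  refine sum_congr rfl fun j _ => ?_
  rw [GapData.wt, iterate_succ_apply' X.F j]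
  simp [lowpow]

theorem code_lo_hi (s : ℕ) (c : ℕ →₀ F) (J : ℕ) (hc : ∀ i ≥ J, c i = 0) :
    code φ (Finsupp.mapDomain (X.hi s) c + Finsupp.mapDomain (X.lo s) c) =
      X.rdn (Fintype.card F) true s J fun j => (φ (c j) : ℕ) := by
  classical
  have h1 : code φ (Finsupp.mapDomain (X.hi s) c + Finsupp.mapDomain (X.lo s) c) =
      code φ (Finsupp.mapDomain (X.hi s) c) + code φ (Finsupp.mapDomain (X.lo s) c) := by
    apply Finsupp.sum_add_index_of_disjoint
    rw [Finset.disjoint_left]
    intro i hi1 hi2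
    have h2 := Finset.mem_image.1 (Finsupp.mapDomain_support hi1)
    have h3 := Finset.mem_image.1 (Finsupp.mapDomain_support hi2)
    obtain ⟨a, -, rfl⟩ := h2
    obtain ⟨b, -, h4⟩ := h3
    exact X.lo_ne_hi s b a h4
  rw [h1, code_hi φ hφ X s c J hc,
    code_mapDomain φ hφ _ (X.strictMono_lo s).injective c J hc, GapData.emn, GapData.rdn,
    ← sum_add_distrib]
  refine sum_congr rfl fun j _ => ?_
  rw [GapData.wt, iterate_succ_apply' X.F j, GapData.lo]
  simp only [lowpow, if_true]
  ring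

theorem emn_congr (q s J : ℕ) (d d' : ℕ → ℕ) (h : ∀ i < J, d i = d' i) :
    X.emn q s J d = X.emn q s J d' :=
  sum_congr rfl fun j hj => by rw [h j (mem_range.1 hj)]

theorem rdn_congr (q : ℕ) (ε : Bool) (s J : ℕ) (d d' : ℕ → ℕ) (h : ∀ i < J, d i = d' i) :
    X.rdn q ε s J d = X.rdn q ε s J d' :=
  sum_congr rfl fun j hj => by rw [h j (mem_range.1 hj)]

/-- The span of the high levels is an `NP^D` subspace. -/
theorem inNP_range (s : ℕ) :
    InNP D (codes φ (LinearMap.range (Finsupp.lmapDomain F F (X.hi s)) : Set (ℕ →₀ F))) := by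
  refine X.inNP (Fintype.card F) Fintype.one_lt_card false s _ Set.univ (inNP_univ D) ?_ ?_
  · rintro w ⟨v, ⟨c, rfl⟩, rfl⟩
    obtain ⟨J, hJ, htrim⟩ := exists_trim φ hφ c
    refine ⟨J, fun j => (φ (c j) : ℕ), fun j => (φ (c j)).2, ?_, ?_, Set.mem_univ _⟩
    · intro i hi h0
      exact htrim i hi (phi_eq_zero φ hφ h0)
    · rw [rdn_false φ hφ X, ← code_hi φ hφ X s c J hJ]
      rfl
  · intro J d hd _
    obtain ⟨c, hc, hcd⟩ := exists_of_digits φ hφ J d hd
    rw [mem_codes]
    refine ⟨Finsupp.mapDomain (X.hi s) c, ⟨c, rfl⟩, ?_⟩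
    rw [code_hi φ hφ X s c J hc, rdn_false φ hφ X]
    exact emn_congr φ hφ X _ _ _ _ _ hcd

/-- The subspace of all `u c` with `z c ∈ M` is an `NP^D` subspace. -/
theorem inNP_map (M : Submodule F (ℕ →₀ F)) (hM : InNP D (codes φ (M : Set (ℕ →₀ F)))) :
    InNP D (codes φ ((M.comap (Finsupp.lmapDomain F F (X.hi 0))).map
      (Finsupp.lmapDomain F F (X.hi 0) + Finsupp.lmapDomain F F (X.lo 0)) :
        Set (ℕ →₀ F))) := by
  refine X.inNP (Fintype.card F) Fintype.one_lt_card true 0 _ _ hM ?_ ?_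
  · rintro w ⟨v, ⟨c, hc, rfl⟩, rfl⟩
    obtain ⟨J, hJ, htrim⟩ := exists_trim φ hφ c
    refine ⟨J, fun j => (φ (c j) : ℕ), fun j => (φ (c j)).2, ?_, ?_, ?_⟩
    · intro i hi h0
      exact htrim i hi (phi_eq_zero φ hφ h0)
    · rw [← code_lo_hi φ hφ X 0 c J hJ]
      rfl
    · rw [mem_codes]
      exact ⟨_, hc, code_hi φ hφ X 0 c J hJ⟩
  · intro J d hd hmem
    obtain ⟨c, hc, hcd⟩ := exists_of_digits φ hφ J d hd
    rw [mem_codes] at hmem ⊢
    obtain ⟨v, hv, hcode⟩ := hmem
    have h1 : code φ (Finsupp.mapDomain (X.hi 0) c) = code φ v := by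
      rw [hcode, code_hi φ hφ X 0 c J hc]
      exact emn_congr φ hφ X _ _ _ _ _ hcd
    have h2 := code_injective φ hφ h1
    refine ⟨Finsupp.mapDomain (X.hi 0) c + Finsupp.mapDomain (X.lo 0) c, ⟨c, ?_, rfl⟩, ?_⟩
    · show Finsupp.mapDomain (X.hi 0) c ∈ M
      rw [h2]
      exact hv
    · rw [code_lo_hi φ hφ X 0 c J hc]
      exact rdn_congr φ hφ X _ _ _ _ _ _ hcd

theorem no_simple (M : Submodule F (ℕ →₀ F)) : ¬ IsNPSimple φ D M := by
  classical
  rintro ⟨hM, hinf, hsimple⟩
  obtain ⟨test, hpro, htest⟩ := exists_test hM (Fintype.card F)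
  have hgaps : ∀ h, ∃ g, h < g ∧ test g = 0 := by
    intro h
    by_contra hn
    push Not at hn
    apply hinf
    refine finiteDimensional_of_tops M (h + 1) fun g hg => ?_
    have h1 : ¬ GapL (codes φ (M : Set (ℕ →₀ F))) (Fintype.card F) g := fun hG =>
      hn g hg ((htest g).2.2 hG)
    rw [gapL_iff φ hφ] at h1
    push Not at h1
    exact h1
  obtain ⟨prog, hprog⟩ := cpt_of_pro hpro (fun _ => 1) 2 (fun _ => by omega)
  let X : GapData D := ⟨test, hgaps, prog, hprog⟩
  have hgap : ∀ j, ∀ v ∈ M, v (X.lo 0 j) ≠ 0 → ∃ i > X.lo 0 j, v i ≠ 0 := by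
    intro j
    rw [← gapL_iff φ hφ]
    exact (htest _).2.1 (X.test_G _)
  have hzinj : ∀ s, Injective (Finsupp.lmapDomain F F (X.hi s)) := fun s =>
    Finsupp.mapDomain_injective (X.strictMono_hi s).injective
  by_cases hB : ∃ B, ∀ c : ℕ →₀ F, Finsupp.mapDomain (X.hi 0) c ∈ M → ∀ i ≥ B, c i = 0
  · obtain ⟨B, hB⟩ := hB
    obtain ⟨v, ⟨⟨c, rfl⟩, hvM⟩, hv0⟩ := hsimple
      (LinearMap.range (Finsupp.lmapDomain F F (X.hi (X.F^[B] 0))))
      (inNP_range φ hφ X _) (Set.infinite_range_of_injective (hzinj _))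
    apply hv0
    have e : X.hi (X.F^[B] 0) = X.hi 0 ∘ fun j => j + B := by
      funext j
      rw [GapData.hi, comp_apply, GapData.hi, ← iterate_add_apply]
      congr 1
      omega
    have h1 : Finsupp.mapDomain (X.hi 0) (Finsupp.mapDomain (fun j => j + B) c) ∈ M := by
      rw [← Finsupp.mapDomain_comp, ← e]
      exact hvM
    have h2 := hB _ h1
    have h3 : c = 0 := by
      ext i
      have h4 := h2 (i + B) (by omega)
      rw [Finsupp.mapDomain_apply (add_left_injective B)] at h4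
      exact h4
    rw [h3, map_zero]
  · push Not at hB
    let z := Finsupp.lmapDomain F F (X.hi 0)
    let u := Finsupp.lmapDomain F F (X.hi 0) + Finsupp.lmapDomain F F (X.lo 0)
    have happ : ∀ (c : ℕ →₀ F) i, (u c) (X.lo 0 i) = c i := by
      intro c i
      show (Finsupp.mapDomain (X.hi 0) c + Finsupp.mapDomain (X.lo 0) c) (X.lo 0 i) = c i
      rw [Finsupp.add_apply, Finsupp.mapDomain_apply (X.strictMono_lo 0).injective,
        Finsupp.mapDomain_of_notMem_range, zero_add]
      rintro ⟨j, hj⟩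
      exact X.lo_ne_hi 0 i j hj.symm
    have huinj : Injective u := by
      intro c d h
      ext i
      rw [← happ c i, ← happ d i, h]
    have hWinf : (((M.comap z).map u : Submodule F (ℕ →₀ F)) : Set (ℕ →₀ F)).Infinite := by
      rw [Submodule.map_coe]
      refine Set.Infinite.image huinj.injOn ?_
      intro hfin
      obtain ⟨c, hc, i, hi, hne⟩ := hB (hfin.toFinset.sup fun c => c.support.sup id + 1)
      have h1 : c.support.sup id + 1 ≤ hfin.toFinset.sup fun c => c.support.sup id + 1 :=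
        Finset.le_sup (f := fun c : ℕ →₀ F => c.support.sup id + 1) (by
          rw [Set.Finite.mem_toFinset]
          exact hc)
      have h2 : i ≤ c.support.sup id := Finset.le_sup (f := id) (Finsupp.mem_support_iff.2 hne)
      omega
    obtain ⟨v, ⟨⟨c, hc, rfl⟩, hvM⟩, hv0⟩ := hsimple ((M.comap z).map u)
      (inNP_map φ hφ X M hM) hWinf
    have hcM : Finsupp.mapDomain (X.hi 0) c ∈ M := hc
    have hlM : Finsupp.mapDomain (X.lo 0) c ∈ M := by
      have h1 : Finsupp.mapDomain (X.hi 0) c + Finsupp.mapDomain (X.lo 0) c ∈ M := hvM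
      have h2 := Submodule.sub_mem _ h1 hcM
      rwa [add_sub_cancel_left] at h2
    obtain ⟨J, hJ, htrim⟩ := exists_trim φ hφ c
    rcases J with _ | J
    · apply hv0
      have : c = 0 := by
        ext i
        exact hJ i (Nat.zero_le _)
      rw [this, map_zero]
    · have h1 := htrim J rfl
      obtain ⟨i, hi, hne⟩ := hgap J _ hlM (by
        rw [Finsupp.mapDomain_apply (X.strictMono_lo 0).injective]
        exact h1)
      apply hne
      by_cases hr : i ∈ Set.range (X.lo 0)
      · obtain ⟨j, rfl⟩ := hr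
        rw [Finsupp.mapDomain_apply (X.strictMono_lo 0).injective]
        exact hJ j ((X.strictMono_lo 0).lt_iff_lt.1 hi)
      · exact Finsupp.mapDomain_of_notMem_range _ _ hr

end Main

end Pool.Agent.Lib.MP_65a8de_lc
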