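import Pool.Agent.Lib.MP_65a8de_lc.Prog

/-!
# Compiling counter programs to oracle Turing machines
-/

namespace Pool.Agent.Lib.MP_65a8de_lc

open Function

instance : Finite Move :=
  Finite.of_injective (fun m : Move => (match m with
    | Move.left => 0
    | Move.stay => 1
    | Move.right => 2 : Fin 3)) (by
      intro a b h
      cases a <;> cases b <;> first | rfl | (exact absurd h (by decide)))

/-- All the tested registers of the program are below `R`. -/
def Cmd.Lt (R : ℕ) : Cmd → Prop
  | Cmd.skip => True
  | Cmd.inc _ => True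
  | Cmd.dec _ => True
  | Cmd.push _ => True
  | Cmd.seq c d => c.Lt R ∧ d.Lt R
  | Cmd.ite r c d => r < R ∧ c.Lt R ∧ d.Lt R
  | Cmd.whl r c => r < R ∧ c.Lt R
  | Cmd.ask c d => c.Lt R ∧ d.Lt R
  | Cmd.choose c d => c.Lt R ∧ d.Lt R
  | Cmd.star c => c.Lt R
  | Cmd.consume => True
  | Cmd.emit => True
  | Cmd.clr => True
  | Cmd.rd _ => True

theorem Cmd.Lt.mono {R R' : ℕ} (h : R ≤ R') : ∀ c : Cmd, c.Lt R → c.Lt R' := by
  intro c
  induction c with
  | seq c d ihc ihd => exact fun hc => ⟨ihc hc.1, ihd hc.2⟩
  | ite r c d ihc ihd => exact fun hc => ⟨lt_of_lt_of_le hc.1 h, ihc hc.2.1, ihd hc.2.2⟩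
  | whl r c ihc => exact fun hc => ⟨lt_of_lt_of_le hc.1 h, ihc hc.2⟩
  | ask c d ihc ihd => exact fun hc => ⟨ihc hc.1, ihd hc.2⟩
  | choose c d ihc ihd => exact fun hc => ⟨ihc hc.1, ihd hc.2⟩
  | star c ihc => exact fun hc => ihc hc
  | _ => exact fun _ => trivial

theorem Cmd.exists_lt (c : Cmd) : ∃ R, c.Lt R := by
  induction c with
  | seq c d ihc ihd =>
    obtain ⟨a, ha⟩ := ihc
    obtain ⟨b, hb⟩ := ihd
    exact ⟨max a b, Cmd.Lt.mono (le_max_left _ _) _ ha, Cmd.Lt.mono (le_max_right _ _) _ hb⟩
  | ite r c d ihc ihd =>
    obtain ⟨a, ha⟩ := ihc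
    obtain ⟨b, hb⟩ := ihd
    exact ⟨max (r + 1) (max a b), lt_of_lt_of_le (Nat.lt_succ_self r) (le_max_left _ _),
      Cmd.Lt.mono (le_trans (le_max_left _ _) (le_max_right _ _)) _ ha,
      Cmd.Lt.mono (le_trans (le_max_right _ _) (le_max_right _ _)) _ hb⟩
  | whl r c ihc =>
    obtain ⟨a, ha⟩ := ihc
    exact ⟨max (r + 1) a, lt_of_lt_of_le (Nat.lt_succ_self r) (le_max_left _ _),
      Cmd.Lt.mono (le_max_right _ _) _ ha⟩
  | ask c d ihc ihd =>
    obtain ⟨a, ha⟩ := ihc
    obtain ⟨b, hb⟩ := ihd
    exact ⟨max a b, Cmd.Lt.mono (le_max_left _ _) _ ha, Cmd.Lt.mono (le_max_right _ _) _ hb⟩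
  | choose c d ihc ihd =>
    obtain ⟨a, ha⟩ := ihc
    obtain ⟨b, hb⟩ := ihd
    exact ⟨max a b, Cmd.Lt.mono (le_max_left _ _) _ ha, Cmd.Lt.mono (le_max_right _ _) _ hb⟩
  | star c ihc => exact ihc
  | _ => exact ⟨0, trivial⟩

/-- The continuations that occur in the execution of `c` before `k` is reached. -/
def conts : Cmd → List Cmd → Set (List Cmd)
  | Cmd.seq c d, k => {Cmd.seq c d :: k} ∪ (conts c (d :: k) ∪ conts d k)
  | Cmd.ite r c d, k => {Cmd.ite r c d :: k} ∪ (conts c k ∪ conts d k)
  | Cmd.whl r c, k => {Cmd.whl r c :: k} ∪ conts c (Cmd.whl r c :: k)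
  | Cmd.ask c d, k => {Cmd.ask c d :: k} ∪ (conts c k ∪ conts d k)
  | Cmd.choose c d, k => {Cmd.choose c d :: k} ∪ (conts c k ∪ conts d k)
  | Cmd.star c, k => {Cmd.star c :: k} ∪ conts c (Cmd.star c :: k)
  | Cmd.skip, k => {Cmd.skip :: k}
  | Cmd.inc r, k => {Cmd.inc r :: k}
  | Cmd.dec r, k => {Cmd.dec r :: k}
  | Cmd.push b, k => {Cmd.push b :: k}
  | Cmd.consume, k => {Cmd.consume :: k}
  | Cmd.emit, k => {Cmd.emit :: k}
  | Cmd.clr, k => {Cmd.clr :: k}
  | Cmd.rd r, k => {Cmd.rd r :: k}

theorem self_mem_conts (c : Cmd) (k : List Cmd) : c :: k ∈ conts c k := by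
  cases c <;> simp [conts]

theorem conts_finite (c : Cmd) : ∀ k, (conts c k).Finite := by
  induction c with
  | seq c d ihc ihd =>
    exact fun k => (Set.finite_singleton _).union ((ihc _).union (ihd _))
  | ite r c d ihc ihd =>
    exact fun k => (Set.finite_singleton _).union ((ihc _).union (ihd _))
  | whl r c ihc => exact fun k => (Set.finite_singleton _).union (ihc _)
  | ask c d ihc ihd =>
    exact fun k => (Set.finite_singleton _).union ((ihc _).union (ihd _))
  | choose c d ihc ihd =>
    exact fun k => (Set.finite_singleton _).union ((ihc _).union (ihd _))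
  | star c ihc => exact fun k => (Set.finite_singleton _).union (ihc _)
  | _ => exact fun k => Set.finite_singleton _

theorem conts_step {D : Set (List Bool)} {w : List Bool} (c : Cmd) :
    ∀ (k k₁ k₂ : List Cmd) (σ σ' : Store), k₁ ∈ conts c k → SS D w k₁ σ k₂ σ' →
      k₂ ∈ conts c k ∨ k₂ = k := by
  induction c with
  | seq c d ihc ihd =>
    intro k k₁ k₂ σ σ' h hs
    rcases h with h | h | h
    · obtain rfl : k₁ = _ := h
      cases hs
      exact Or.inl (Or.inr (Or.inl (self_mem_conts _ _)))
    · rcases ihc _ _ _ _ _ h hs with h | rfl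
      · exact Or.inl (Or.inr (Or.inl h))
      · exact Or.inl (Or.inr (Or.inr (self_mem_conts _ _)))
    · rcases ihd _ _ _ _ _ h hs with h | rfl
      · exact Or.inl (Or.inr (Or.inr h))
      · exact Or.inr rfl
  | ite r c d ihc ihd =>
    intro k k₁ k₂ σ σ' h hs
    rcases h with h | h | h
    · obtain rfl : k₁ = _ := h
      cases hs
      · exact Or.inl (Or.inr (Or.inl (self_mem_conts _ _)))
      · exact Or.inl (Or.inr (Or.inr (self_mem_conts _ _)))
    · rcases ihc _ _ _ _ _ h hs with h | rfl
      · exact Or.inl (Or.inr (Or.inl h))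
      · exact Or.inr rfl
    · rcases ihd _ _ _ _ _ h hs with h | rfl
      · exact Or.inl (Or.inr (Or.inr h))
      · exact Or.inr rfl
  | whl r c ihc =>
    intro k k₁ k₂ σ σ' h hs
    rcases h with h | h
    · obtain rfl : k₁ = _ := h
      cases hs
      · exact Or.inl (Or.inr (self_mem_conts _ _))
      · exact Or.inr rfl
    · rcases ihc _ _ _ _ _ h hs with h | rfl
      · exact Or.inl (Or.inr h)
      · exact Or.inl (Or.inl rfl)
  | ask c d ihc ihd =>
    intro k k₁ k₂ σ σ' h hs
    rcases h with h | h | h
    · obtain rfl : k₁ = _ := h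
      cases hs
      · exact Or.inl (Or.inr (Or.inl (self_mem_conts _ _)))
      · exact Or.inl (Or.inr (Or.inr (self_mem_conts _ _)))
    · rcases ihc _ _ _ _ _ h hs with h | rfl
      · exact Or.inl (Or.inr (Or.inl h))
      · exact Or.inr rfl
    · rcases ihd _ _ _ _ _ h hs with h | rfl
      · exact Or.inl (Or.inr (Or.inr h))
      · exact Or.inr rfl
  | choose c d ihc ihd =>
    intro k k₁ k₂ σ σ' h hs
    rcases h with h | h | h
    · obtain rfl : k₁ = _ := h
      cases hs
      · exact Or.inl (Or.inr (Or.inl (self_mem_conts _ _)))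
      · exact Or.inl (Or.inr (Or.inr (self_mem_conts _ _)))
    · rcases ihc _ _ _ _ _ h hs with h | rfl
      · exact Or.inl (Or.inr (Or.inl h))
      · exact Or.inr rfl
    · rcases ihd _ _ _ _ _ h hs with h | rfl
      · exact Or.inl (Or.inr (Or.inr h))
      · exact Or.inr rfl
  | star c ihc =>
    intro k k₁ k₂ σ σ' h hs
    rcases h with h | h
    · obtain rfl : k₁ = _ := h
      cases hs
      · exact Or.inr rfl
      · exact Or.inl (Or.inr (self_mem_conts _ _))
    · rcases ihc _ _ _ _ _ h hs with h | rfl
      · exact Or.inl (Or.inr h)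
      · exact Or.inl (Or.inl rfl)
  | clr =>
    intro k k₁ k₂ σ σ' h hs
    obtain rfl : k₁ = _ := h
    cases hs
    · exact Or.inl rfl
    · exact Or.inr rfl
  | rd r =>
    intro k k₁ k₂ σ σ' h hs
    obtain rfl : k₁ = _ := h
    cases hs
    · exact Or.inl rfl
    · exact Or.inr rfl
  | _ =>
    intro k k₁ k₂ σ σ' h hs
    obtain rfl : k₁ = _ := h
    cases hs
    exact Or.inr rfl

theorem conts_lt {R : ℕ} (c : Cmd) : ∀ (k k₁ : List Cmd), k₁ ∈ conts c k → c.Lt R →
    (∀ x ∈ k, x.Lt R) → ∀ x ∈ k₁, x.Lt R := by
  induction c with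
  | seq c d ihc ihd =>
    intro k k₁ h hc hk
    rcases h with h | h | h
    · obtain rfl : k₁ = _ := h
      intro x hx
      rcases List.mem_cons.1 hx with rfl | hx
      · exact hc
      · exact hk x hx
    · refine ihc _ _ h hc.1 ?_
      intro x hx
      rcases List.mem_cons.1 hx with rfl | hx
      · exact hc.2
      · exact hk x hx
    · exact ihd _ _ h hc.2 hk
  | ite r c d ihc ihd =>
    intro k k₁ h hc hk
    rcases h with h | h | h
    · obtain rfl : k₁ = _ := h
      intro x hx
      rcases List.mem_cons.1 hx with rfl | hx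
      · exact hc
      · exact hk x hx
    · exact ihc _ _ h hc.2.1 hk
    · exact ihd _ _ h hc.2.2 hk
  | whl r c ihc =>
    intro k k₁ h hc hk
    rcases h with h | h
    · obtain rfl : k₁ = _ := h
      intro x hx
      rcases List.mem_cons.1 hx with rfl | hx
      · exact hc
      · exact hk x hx
    · refine ihc _ _ h hc.2 ?_
      intro x hx
      rcases List.mem_cons.1 hx with rfl | hx
      · exact hc
      · exact hk x hx
  | ask c d ihc ihd =>
    intro k k₁ h hc hk
    rcases h with h | h | h
    · obtain rfl : k₁ = _ := h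
      intro x hx
      rcases List.mem_cons.1 hx with rfl | hx
      · exact hc
      · exact hk x hx
    · exact ihc _ _ h hc.1 hk
    · exact ihd _ _ h hc.2 hk
  | choose c d ihc ihd =>
    intro k k₁ h hc hk
    rcases h with h | h | h
    · obtain rfl : k₁ = _ := h
      intro x hx
      rcases List.mem_cons.1 hx with rfl | hx
      · exact hc
      · exact hk x hx
    · exact ihc _ _ h hc.1 hk
    · exact ihd _ _ h hc.2 hk
  | star c ihc =>
    intro k k₁ h hc hk
    rcases h with h | h
    · obtain rfl : k₁ = _ := h
      intro x hx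
      rcases List.mem_cons.1 hx with rfl | hx
      · exact hc
      · exact hk x hx
    · refine ihc _ _ h hc ?_
      intro x hx
      rcases List.mem_cons.1 hx with rfl | hx
      · exact hc
      · exact hk x hx
  | _ =>
    intro k k₁ h hc hk
    obtain rfl : k₁ = _ := h
    intro x hx
    rcases List.mem_cons.1 hx with rfl | hx
    · exact hc
    · exact hk x hx

/-- The control states coming from the program. -/
def SC (c : Cmd) : Set (List Cmd) := conts c [] ∪ {[]}

theorem SC_finite (c : Cmd) : (SC c).Finite := (conts_finite c []).union (Set.finite_singleton _)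

theorem SC_step {D : Set (List Bool)} {w : List Bool} {c : Cmd} {k₁ k₂ : List Cmd}
    {σ σ' : Store} (h : k₁ ∈ SC c) (hs : SS D w k₁ σ k₂ σ') : k₂ ∈ SC c := by
  rcases h with h | h
  · rcases conts_step c [] _ _ _ _ h hs with h | rfl
    · exact Or.inl h
    · exact Or.inr rfl
  · obtain rfl : k₁ = [] := h
    cases hs

theorem SC_lt {R : ℕ} {c : Cmd} {k₁ : List Cmd} (h : k₁ ∈ SC c) (hc : c.Lt R) :
    ∀ x ∈ k₁, x.Lt R := by
  rcases h with h | h
  · exact conts_lt c [] _ h hc (by simp)
  · obtain rfl : k₁ = [] := h
    simp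

section

variable (N : OracleNTM) (R : ℕ)

/-- Tapes of the compiled machine: registers, input (`false`) and clock (`true`), tapes of `N`. -/
abbrev TT := Fin R ⊕ (Bool ⊕ N.Tape)

/-- Head moves. -/
def mvs (f : ℕ → Move) (pm tm : Move) : TT N R → Move
  | Sum.inl j => f j
  | Sum.inr (Sum.inl false) => pm
  | Sum.inr (Sum.inl true) => tm
  | Sum.inr (Sum.inr _) => Move.stay

/-- Keep the symbols and move. -/
def wrt (s : TT N R → Option N.Symbol) (m : TT N R → Move) : TT N R → Option N.Symbol × Move :=
  fun i => (s i, m i)

/-- The symbol scanned on the tape of register `r`. -/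
def rsym (s : TT N R → Option N.Symbol) (r : ℕ) : Option N.Symbol :=
  if h : r < R then s (Sum.inl ⟨r, h⟩) else none

/-- The move that adds one to register `r`. -/
def up (r : ℕ) : ℕ → Move := fun j => if j = r then Move.right else Move.stay

/-- The move that subtracts one from register `r`. -/
def down (r : ℕ) : ℕ → Move := fun j => if j = r then Move.left else Move.stay

/-- No register changes. -/
def nomv : ℕ → Move := fun _ => Move.stay

/-- The action of the first step: mark the registers and the clock. -/
def bootAct (s : TT N R → Option N.Symbol) : TT N R → Option N.Symbol × Move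
  | Sum.inl _ => (none, Move.stay)
  | Sum.inr (Sum.inl true) => (none, Move.stay)
  | Sum.inr (Sum.inl false) => (s (Sum.inr (Sum.inl false)), Move.stay)
  | Sum.inr (Sum.inr i) => (s (Sum.inr (Sum.inr i)), Move.stay)

/-- The action of `N` lifted to the compiled machine. -/
def liftAct (s : TT N R → Option N.Symbol) (v : N.Tape → N.Symbol × Move) :
    TT N R → Option N.Symbol × Move
  | Sum.inl j => (s (Sum.inl j), Move.stay)
  | Sum.inr (Sum.inl b) => (s (Sum.inr (Sum.inl b)), Move.stay)
  | Sum.inr (Sum.inr i) => (some (v i).1, (v i).2)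

open Classical in
/-- The action of the step from the program to `N`. -/
noncomputable def switchAct (s : TT N R → Option N.Symbol) : TT N R → Option N.Symbol × Move
  | Sum.inl j => (s (Sum.inl j), Move.stay)
  | Sum.inr (Sum.inl b) => (s (Sum.inr (Sum.inl b)), Move.stay)
  | Sum.inr (Sum.inr i) =>
      (s (Sum.inr (Sum.inr i)), if i = N.input then Move.right else Move.stay)

open Classical in
/-- The action that emits one letter. -/
noncomputable def emitAct (s : TT N R → Option N.Symbol) : TT N R → Option N.Symbol × Move
  | Sum.inl j => (s (Sum.inl j), Move.stay)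
  | Sum.inr (Sum.inl true) => (s (Sum.inr (Sum.inl true)), Move.right)
  | Sum.inr (Sum.inl false) => (s (Sum.inr (Sum.inl false)), Move.stay)
  | Sum.inr (Sum.inr i) =>
      if i = N.input then (some (N.letter true), Move.left)
      else (s (Sum.inr (Sum.inr i)), Move.stay)

open Classical in
/-- The actions of the compiled machine in a program state. -/
noncomputable def act : List Cmd → (TT N R → Option N.Symbol) →
    Set (List Cmd × (TT N R → Option N.Symbol × Move) × Option Bool)
  | [], _ => ∅
  | Cmd.skip :: k, s => {(k, wrt N R s (mvs N R nomv Move.stay Move.right), none)}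
  | Cmd.inc r :: k, s => {(k, wrt N R s (mvs N R (up r) Move.stay Move.right), none)}
  | Cmd.dec r :: k, s =>
      {(k, wrt N R s (mvs N R (if rsym N R s r = none then nomv else down r)
        Move.stay Move.right), none)}
  | Cmd.push b :: k, s => {(k, wrt N R s (mvs N R nomv Move.stay Move.right), some b)}
  | Cmd.seq c d :: k, s => {(c :: d :: k, wrt N R s (mvs N R nomv Move.stay Move.right), none)}
  | Cmd.ite r c d :: k, s =>
      {(if rsym N R s r = none then d :: k else c :: k,
        wrt N R s (mvs N R nomv Move.stay Move.right), none)}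
  | Cmd.whl r c :: k, s =>
      {(if rsym N R s r = none then k else c :: Cmd.whl r c :: k,
        wrt N R s (mvs N R nomv Move.stay Move.right), none)}
  | Cmd.ask _ _ :: _, _ => ∅
  | Cmd.choose c d :: k, s =>
      {(c :: k, wrt N R s (mvs N R nomv Move.stay Move.right), none),
       (d :: k, wrt N R s (mvs N R nomv Move.stay Move.right), none)}
  | Cmd.star c :: k, s =>
      {(k, wrt N R s (mvs N R nomv Move.stay Move.right), none),
       (c :: Cmd.star c :: k, wrt N R s (mvs N R nomv Move.stay Move.right), none)}
  | Cmd.consume :: k, s =>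
      if s (Sum.inr (Sum.inl false)) = some (N.letter true) then
        {(k, wrt N R s (mvs N R nomv Move.right Move.right), none)} else ∅
  | Cmd.emit :: k, s =>
      {(k, emitAct N R s, none)}
  | Cmd.clr :: k, s =>
      if s (Sum.inr (Sum.inl true)) = none then
        {(k, wrt N R s (mvs N R nomv Move.stay Move.stay), none)}
      else {(Cmd.clr :: k, wrt N R s (mvs N R nomv Move.stay Move.left), none)}
  | Cmd.rd r :: k, s =>
      if s (Sum.inr (Sum.inl true)) = none then
        {(k, wrt N R s (mvs N R nomv Move.stay Move.stay), none)}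
      else {(Cmd.rd r :: k, wrt N R s (mvs N R (up r) Move.stay Move.left), none)}

open Classical in
/-- The compiled machine: run the program `c`, then (if the whole input has been consumed) run
`N` on the tally word of the emitted length. -/
noncomputable def mach (c : Cmd) : OracleNTM where
  State := Option ((SC c × Bool) ⊕ N.State)
  Symbol := Option N.Symbol
  Tape := TT N R
  finite_state := by
    have := N.finite_state
    have := (SC_finite c).to_subtype
    infer_instance
  finite_symbol := by
    have := N.finite_symbol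
    infer_instance
  finite_tape := by
    have := N.finite_tape
    infer_instance
  blank := some N.blank
  letter b := some (N.letter b)
  letter_injective := fun a b h => N.letter_injective (Option.some.inj h)
  letter_ne_blank := fun b h => N.letter_ne_blank b (Option.some.inj h)
  input := Sum.inr (Sum.inl false)
  start := none
  accept := some (Sum.inr N.accept)
  oracle := fun q => match q with
    | none => none
    | some (Sum.inl (k, true)) => none
    | some (Sum.inl (⟨Cmd.ask a b :: k, _⟩, false)) =>
        if h : a :: k ∈ SC c ∧ b :: k ∈ SC c then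
          some (some (Sum.inl (⟨a :: k, h.1⟩, true)), some (Sum.inl (⟨b :: k, h.2⟩, true)))
        else none
    | some (Sum.inl (_, false)) => none
    | some (Sum.inr q) => (N.oracle q).map fun p => (some (Sum.inr p.1), some (Sum.inr p.2))
  trans := fun q s => match q with
    | none => {(some (Sum.inl (⟨[c], Or.inl (self_mem_conts c [])⟩, false)),
        bootAct N R s, none)}
    | some (Sum.inl (k, true)) =>
        {(some (Sum.inl (k, false)), wrt N R s (mvs N R nomv Move.stay Move.right), none)}
    | some (Sum.inl (k, false)) =>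
        {a | ∃ (k' : List Cmd) (h : k' ∈ SC c), a.1 = some (Sum.inl (⟨k', h⟩, false)) ∧
            (k', a.2.1, a.2.2) ∈ act N R k.1 s} ∪
        {a | k.1 = [] ∧ s (Sum.inr (Sum.inl false)) = some N.blank ∧
            a = (some (Sum.inr N.start), switchAct N R s, none)}
    | some (Sum.inr q) =>
        {a | ∃ (q' : N.State) (w : N.Tape → N.Symbol × Move),
            (q', w, a.2.2) ∈ N.trans q (fun i => (s (Sum.inr (Sum.inr i))).getD N.blank) ∧
            a.1 = some (Sum.inr q') ∧ a.2.1 = liftAct N R s w}

/-- The tape of a register with value `n`. -/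
def regT (n : ℕ) : ℤ → Option N.Symbol := fun i => if i = -(n : ℤ) then none else some N.blank

/-- The tape that receives the output. -/
def outT (n : ℕ) : ℤ → Option N.Symbol :=
  fun i => if 1 ≤ i ∧ i ≤ (n : ℤ) then some (N.letter true) else some N.blank

/-- The input tape. -/
def wordT (w : List Bool) : ℤ → Option N.Symbol :=
  fun i => if 0 ≤ i then (w.map fun b => some (N.letter b)).getD i.toNat (some N.blank)
    else some N.blank

open Classical in
/-- The tapes that represent a store. -/
noncomputable def tapesOf (w : List Bool) (σ : Store) : TT N R → ℤ → Option N.Symbol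
  | Sum.inl j => regT N (σ.reg j)
  | Sum.inr (Sum.inl false) => fun i => wordT N w (i + σ.pos)
  | Sum.inr (Sum.inl true) => regT N σ.tick
  | Sum.inr (Sum.inr i) => if i = N.input then outT N σ.out else fun _ => some N.blank

theorem shift_right_regT (n : ℕ) : shift Move.right (regT N n) = regT N (n + 1) := by
  funext i
  simp only [shift, regT]
  congr 1
  simp only [eq_iff_iff]
  push_cast
  constructor <;> intro h <;> linarith

theorem shift_left_regT (n : ℕ) (hn : n ≠ 0) :
    shift Move.left (regT N n) = regT N (n - 1) := by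
  obtain ⟨m, rfl⟩ := Nat.exists_eq_succ_of_ne_zero hn
  funext i
  simp only [shift, regT, Nat.succ_eq_add_one, Nat.add_sub_cancel]
  congr 1
  simp only [eq_iff_iff]
  push_cast
  constructor <;> intro h <;> linarith

theorem shift_stay {α : Type} (T : ℤ → α) : shift Move.stay T = T := rfl

theorem regT_zero_iff (n : ℕ) : regT N n 0 = none ↔ n = 0 := by
  simp only [regT]
  constructor
  · intro h
    by_contra hn
    rw [if_neg (by omega)] at h
    cases h
  · rintro rfl
    simp

theorem shift_left_outT (n : ℕ) :
    shift Move.left (update (outT N n) 0 (some (N.letter true))) = outT N (n + 1) := by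
  funext i
  simp only [shift, outT, update_apply]
  by_cases h1 : i - 1 = 0
  · rw [if_pos h1, if_pos]
    constructor
    · omega
    · push_cast; omega
  · rw [if_neg h1]
    congr 1
    simp only [eq_iff_iff]
    push_cast
    constructor
    · rintro ⟨h2, h3⟩
      constructor <;> omega
    · rintro ⟨h2, h3⟩
      constructor <;> omega

theorem shift_right_outT (n : ℕ) :
    shift Move.right (outT N n) = fun i => some (N.wordTape (List.replicate n true) i) := by
  funext i
  simp only [shift, outT, OracleNTM.wordTape, List.map_replicate]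
  by_cases h0 : 0 ≤ i
  · rw [if_pos h0]
    by_cases h1 : i < n
    · rw [if_pos (by constructor <;> omega)]
      congr 1
      rw [List.getD_eq_getElem _ _ (by simp; omega)]
      simp
    · rw [if_neg (by omega)]
      congr 1
      rw [List.getD_eq_default]
      simp
      omega
  · rw [if_neg h0, if_neg (by omega)]

theorem wordT_at (w : List Bool) (p : ℕ) (b : Bool) :
    wordT N w (0 + p) = some (N.letter b) ↔ w[p]? = some b := by
  simp only [wordT, zero_add]
  rw [if_pos (by omega)]
  simp only [Int.toNat_natCast]
  by_cases hp : p < w.length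
  · rw [List.getD_eq_getElem _ _ (by simpa using hp)]
    simp [hp, N.letter_injective.eq_iff]
  · rw [List.getD_eq_default _ _ (by simpa using hp)]
    simp only [Option.some.injEq, List.getElem?_eq_none (not_lt.1 hp), reduceCtorEq, iff_false]
    exact fun h => N.letter_ne_blank b h.symm

theorem wordT_blank (w : List Bool) (p : ℕ) :
    wordT N w (0 + p) = some N.blank ↔ w.length ≤ p := by
  simp only [wordT, zero_add]
  rw [if_pos (by omega)]
  simp only [Int.toNat_natCast]
  by_cases hp : p < w.length
  · rw [List.getD_eq_getElem _ _ (by simpa using hp)]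
    simp [N.letter_ne_blank, hp]
  · rw [List.getD_eq_default _ _ (by simpa using hp)]
    simp [not_lt.1 hp]

end

end Pool.Agent.Lib.MP_65a8de_lc
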