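import Mathlib

/-!
# Nondeterministic oracle Turing machines, the class `NP^A`, and subspaces of `tal(V_∞)`

These are the definitions used by the statements about problem MP_65a8de_lc.
-/

namespace Pool.Agent.Lib.MP_65a8de_lc

/-- The three possible moves of a head. -/
inductive Move
  | left | stay | right
  deriving DecidableEq

/-- Effect of a head move on a two-way infinite tape `T : ℤ → α`, where cell `0` is the
scanned cell. -/
def shift {α : Type} : Move → (ℤ → α) → (ℤ → α)
  | Move.left, T => fun i => T (i - 1)
  | Move.stay, T => T
  | Move.right, T => fun i => T (i + 1)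

/-- A nondeterministic oracle Turing machine: finitely many states, finitely many two-way
infinite read/write tapes over a finite alphabet, and one write-only oracle (query) tape over
`{0,1}` (with `false = 0`, `true = 1`).

* `blank` is the blank symbol, `letter b` is the symbol used for the bit `b` of the input word;
* `input` is the tape that holds the input word;
* `oracle q = some (q₁, q₂)` says that `q` is a query state: the next state is `q₁` if the word
  on the query tape is in the oracle and `q₂` otherwise, and the query tape is erased;
* if `oracle q = none`, a step chooses some `(q', w, b) ∈ trans q s`, where `s` gives the scanned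
  symbol of each tape: the new state is `q'`, on tape `i` the symbol `(w i).1` is written and the
  head makes the move `(w i).2`, and the bits in `b` (at most one) are appended to the word on the
  query tape. -/
structure OracleNTM where
  State : Type
  Symbol : Type
  Tape : Type
  finite_state : Finite State
  finite_symbol : Finite Symbol
  finite_tape : Finite Tape
  blank : Symbol
  letter : Bool → Symbol
  letter_injective : Function.Injective letter
  letter_ne_blank : ∀ b, letter b ≠ blank
  input : Tape
  start : State
  accept : State
  oracle : State → Option (State × State)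
  trans : State → (Tape → Symbol) → Set (State × (Tape → Symbol × Move) × Option Bool)

namespace OracleNTM

/-- A configuration: the state, the content of each tape relative to its head (cell `0` is the
scanned cell), and the word on the query tape. -/
structure Config (N : OracleNTM) where
  state : N.State
  tape : N.Tape → ℤ → N.Symbol
  query : List Bool

/-- The tape that holds the word `w` in the cells `0, 1, …, |w| - 1` and is blank elsewhere. -/
def wordTape (N : OracleNTM) (w : List Bool) : ℤ → N.Symbol :=
  fun i => if 0 ≤ i then (w.map N.letter).getD i.toNat N.blank else N.blank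

open Classical in
/-- The initial configuration on input `w`: start state, `w` on the input tape with the head on
its first letter, all the other tapes blank, empty query tape. -/
noncomputable def init (N : OracleNTM) (w : List Bool) : N.Config where
  state := N.start
  tape := fun i => if i = N.input then N.wordTape w else fun _ => N.blank
  query := []

/-- One step of the machine `N` with oracle `A`. -/
inductive Step (N : OracleNTM) (A : Set (List Bool)) : N.Config → N.Config → Prop
  | act (c : N.Config) (q : N.State) (w : N.Tape → N.Symbol × Move) (b : Option Bool)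
      (h : N.oracle c.state = none) (h' : (q, w, b) ∈ N.trans c.state (fun i => c.tape i 0)) :
      Step N A c ⟨q, fun i => shift (w i).2 (Function.update (c.tape i) 0 (w i).1),
        c.query ++ b.toList⟩
  | yes (c : N.Config) (q₁ q₂ : N.State) (h : N.oracle c.state = some (q₁, q₂))
      (h' : c.query ∈ A) : Step N A c ⟨q₁, c.tape, []⟩
  | no (c : N.Config) (q₁ q₂ : N.State) (h : N.oracle c.state = some (q₁, q₂))
      (h' : c.query ∉ A) : Step N A c ⟨q₂, c.tape, []⟩

/-- `Reach N A t c d`: the machine can go from `c` to `d` in exactly `t` steps. -/
def Reach (N : OracleNTM) (A : Set (List Bool)) : ℕ → N.Config → N.Config → Prop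
  | 0, c, d => c = d
  | t + 1, c, d => ∃ e, N.Step A c e ∧ Reach N A t e d

/-- `N.AcceptsIn A w t`: with oracle `A` and input `w`, some computation of `N` of length exactly
`t` ends in the accepting state. -/
def AcceptsIn (N : OracleNTM) (A : Set (List Bool)) (w : List Bool) (t : ℕ) : Prop :=
  ∃ c, N.Reach A t (N.init w) c ∧ c.state = N.accept

end OracleNTM

/-- The language `L ⊆ {0,1}^*` is in `NP^A`: some nondeterministic oracle Turing machine with
oracle `A` accepts `L` in polynomial time, that is, every word `w ∈ L` has an accepting
computation of length at most `p(|w|)`, and no word outside `L` has an accepting computation. -/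
def InNP (A L : Set (List Bool)) : Prop :=
  ∃ (N : OracleNTM) (p : Polynomial ℕ),
    (∀ w ∈ L, ∃ t ≤ p.eval w.length, N.AcceptsIn A w t) ∧
    (∀ w, w ∉ L → ∀ t, ¬ N.AcceptsIn A w t)

section Vector

variable {F : Type} [Field F] [Fintype F]

/-- The number `c(v) = ∑ i, φ(v i) q^i` with `q = |F|`; the vector `v` is coded by the tally
string `1^{c(v)}`. -/
def code (φ : F ≃ Fin (Fintype.card F)) (v : ℕ →₀ F) : ℕ :=
  v.sum fun i a => (φ a : ℕ) * Fintype.card F ^ i

/-- The set of codes `1^{c(v)}` of the vectors in `S`. -/
def codes (φ : F ≃ Fin (Fintype.card F)) (S : Set (ℕ →₀ F)) : Set (List Bool) :=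
  {w | ∃ v ∈ S, w = List.replicate (code φ v) true}

/-- `S` is an `NP^A` subspace of `tal(V_∞)`, where `V_∞ = ℕ →₀ F`. -/
def IsNPSubspace (φ : F ≃ Fin (Fintype.card F)) (A : Set (List Bool))
    (S : Submodule F (ℕ →₀ F)) : Prop :=
  InNP A (codes φ (S : Set (ℕ →₀ F)))

/-- `S` is `NP^A`-simple: it is an `NP^A` subspace, `dim (V_∞/S) = ∞`, and every infinite `NP^A`
subspace `W` meets `S` in a nonzero vector. -/
def IsNPSimple (φ : F ≃ Fin (Fintype.card F)) (A : Set (List Bool))
    (S : Submodule F (ℕ →₀ F)) : Prop :=
  IsNPSubspace φ A S ∧ ¬ FiniteDimensional F ((ℕ →₀ F) ⧸ S) ∧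
    ∀ W : Submodule F (ℕ →₀ F), IsNPSubspace φ A W → (W : Set (ℕ →₀ F)).Infinite →
      ∃ v ∈ W ⊓ S, v ≠ 0

/-- `M` is `NP^A`-supermaximal: it is an `NP^A` subspace, `dim (V_∞/M) = ∞`, and every `NP^A`
subspace `W ⊇ M` satisfies `W = V_∞` or `dim (W/M) < ∞` (`W/M` is the image of `W` in
`V_∞/M`). -/
def IsNPSupermaximal (φ : F ≃ Fin (Fintype.card F)) (A : Set (List Bool))
    (M : Submodule F (ℕ →₀ F)) : Prop :=
  IsNPSubspace φ A M ∧ ¬ FiniteDimensional F ((ℕ →₀ F) ⧸ M) ∧
    ∀ W : Submodule F (ℕ →₀ F), IsNPSubspace φ A W → M ≤ W →
      W = ⊤ ∨ FiniteDimensional F (W.map M.mkQ)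

end Vector

end Pool.Agent.Lib.MP_65a8de_lc
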