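import Pool.Agent.Lib.MP_65a8de_lc.Sim

/-!
# The test for gaps of a language is computed by a program with oracle
-/

namespace Pool.Agent.Lib.MP_65a8de_lc

open Function

/-- The table of the first `n` values of `O`, last value first. -/
def tbl (O : ℕ → ℕ) : ℕ → List ℕ
  | 0 => []
  | n + 1 => O n :: tbl O n

theorem tbl_reverse (O : ℕ → ℕ) (n : ℕ) : (tbl O n).reverse = (List.range n).map O := by
  induction n with
  | zero => rfl
  | succ n ih => rw [tbl, List.reverse_cons, ih, List.range_succ, List.map_append]; rfl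

theorem look_tbl (D : Set (List Bool)) (n : ℕ) (s : List Bool) (h : idx s < n) :
    look (tbl (orc D) n) s = 1 ↔ s ∈ D := by
  rw [look, tbl_reverse, List.getD_eq_getElem _ _ (by simpa using h), List.getElem_map,
    List.getElem_range, orc, str_idx]
  split_ifs with h1 <;> simp [h1]

theorem PRO.of_eq {O : ℕ → ℕ} {n : ℕ} {f g : List.Vector ℕ n → ℕ} (hf : PRO O f)
    (h : ∀ v, f v = g v) : PRO O g := (funext h : f = g) ▸ hf

theorem PRO.comp₁ {O : ℕ → ℕ} (f : ℕ → ℕ) (hf : PRO O (n := 1) fun v => f v.head) {n : ℕ}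
    {g : List.Vector ℕ n → ℕ} (hg : PRO O g) : PRO O fun v => f (g v) :=
  (PRO.comp (fun _ => g) hf (fun _ => hg)).of_eq fun _ => rfl

theorem PRO.comp₂ {O : ℕ → ℕ} (f : ℕ → ℕ → ℕ) (hf : PRO O (n := 2) fun v => f v.head v.tail.head)
    {n : ℕ} {g h : List.Vector ℕ n → ℕ} (hg : PRO O g) (hh : PRO O h) :
    PRO O fun v => f (g v) (h v) := by
  refine (PRO.comp ![g, h] hf (fun i => ?_)).of_eq fun v => rfl
  match i with
  | 0 => exact hg
  | 1 => exact hh

theorem PRO.of_primrec {O : ℕ → ℕ} {f : ℕ → ℕ} (hf : Primrec f) :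
    PRO O (n := 1) fun v => f v.head := PRO.of_primrec' (Nat.Primrec'.prim_iff₁.2 hf)

theorem PRO.of_primrec₂ {O : ℕ → ℕ} {f : ℕ → ℕ → ℕ} (hf : Primrec₂ f) :
    PRO O (n := 2) fun v => f v.head v.tail.head := PRO.of_primrec' (Nat.Primrec'.prim_iff₂.2 hf)

theorem pro_tbl (O : ℕ → ℕ) : PRO O (n := 1) fun v => Encodable.encode (tbl O v.head) := by
  have h1 : PRO O (n := 2) fun v => Nat.succ (Nat.pair (O v.head) v.tail.head) := by
    have h2 : PRO O (n := 2) fun v => (fun a b => Nat.succ (Nat.pair a b)) v.head v.tail.head :=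
      PRO.of_primrec₂ (Primrec.succ.comp₂ Primrec₂.natPair)
    have h3 : PRO O (n := 2) fun v => O v.head :=
      (PRO.comp₁ O PRO.oracle (PRO.get (n := 2) 0)).of_eq fun v => by
        rw [List.Vector.get_zero]
    have h4 : PRO O (n := 2) fun v => v.tail.head :=
      (PRO.get (n := 2) 1).of_eq fun v => by
        rw [← List.Vector.get_zero, List.Vector.get_tail_succ]
        rfl
    exact PRO.comp₂ (fun a b => Nat.succ (Nat.pair a b)) h2 h3 h4
  refine (PRO.prec PRO.zero h1).of_eq fun v => ?_
  induction v.head with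
  | zero => rfl
  | succ n ih =>
    show Nat.succ (Nat.pair (O n) (Nat.rec 0 _ n)) = _
    rw [tbl, Encodable.encode_list_cons, ← ih]
    rfl

/-- A polynomial over `ℕ` is bounded by `C (x+1)^C`. -/
theorem poly_bound (p : Polynomial ℕ) : ∃ C : ℕ, ∀ x : ℕ, p.eval x ≤ C * (x + 1) ^ C := by
  induction p using Polynomial.induction_on' with
  | add p q hp hq =>
    obtain ⟨a, ha⟩ := hp
    obtain ⟨b, hb⟩ := hq
    refine ⟨a + b, fun x => ?_⟩
    rw [Polynomial.eval_add, add_mul]
    refine add_le_add ((ha x).trans ?_) ((hb x).trans ?_)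
    · exact Nat.mul_le_mul_left _ (Nat.pow_le_pow_right (by omega) (by omega))
    · exact Nat.mul_le_mul_left _ (Nat.pow_le_pow_right (by omega) (by omega))
  | monomial n a =>
    refine ⟨a + n, fun x => ?_⟩
    rw [Polynomial.eval_monomial]
    refine Nat.mul_le_mul (by omega) ?_
    calc x ^ n ≤ (x + 1) ^ n := Nat.pow_le_pow_left (by omega) n
      _ ≤ (x + 1) ^ (a + n) := Nat.pow_le_pow_right (by omega) (by omega)

theorem primrec_pow : Primrec₂ ((· ^ ·) : ℕ → ℕ → ℕ) :=
  Primrec₂.unpaired'.1 Nat.Primrec.pow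

theorem primrec_bd (C : ℕ) : Primrec (fun x : ℕ => C * (x + 1) ^ C) :=
  Primrec.nat_mul.comp (Primrec.const C) (primrec_pow.comp Primrec.succ (Primrec.const C))

/-- `g` is a gap of the language `L`: no word `1^x` with `q^g ≤ x < q^(g+1)` is in `L`. -/
def GapL (L : Set (List Bool)) (q g : ℕ) : Prop :=
  ∀ x, q ^ g ≤ x → x < q ^ (g + 1) → List.replicate x true ∉ L

theorem exists_test {D L : Set (List Bool)} (hL : InNP D L) (q : ℕ) :
    ∃ test : ℕ → ℕ, PRO (orc D) (n := 1) (fun v => test v.head) ∧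
      ∀ g, test g ≤ 1 ∧ (test g = 0 ↔ GapL L q g) := by
  classical
  obtain ⟨N, p, hN1, hN2⟩ := hL
  obtain ⟨C, hC⟩ := poly_bound p
  have := N.finite_state
  have := N.finite_symbol
  have := N.finite_tape
  let eS := Finite.equivFin N.State
  let eG := Finite.equivFin N.Symbol
  let eT := Finite.equivFin N.Tape
  let T : ℕ → ℕ := fun x => C * (x + 1) ^ C
  have hTm : Monotone T := fun a b hab =>
    Nat.mul_le_mul_left _ (Nat.pow_le_pow_left (by omega) _)
  let A : List ℕ → ℕ → ℕ → Prop := fun τ x T => accC (eG N.blank) (tlN N eS eG eT) (olN N eS)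
    (eT N.input) (eG (N.letter true)) (eS N.start) (eS N.accept) τ x T
  have hA : PrimrecPred (fun p : (List ℕ × ℕ) × ℕ => A p.1.1 p.1.2 p.2) :=
    primrec_accC _ _ _ _ _ _ _
  have hR : PrimrecRel (fun (x : ℕ) (p : ℕ × List ℕ) => x < q ^ p.1 ∨ ¬ A p.2 x (T x)) := by
    refine PrimrecPred.or ?_ (PrimrecPred.not ?_)
    · exact Primrec.nat_lt.comp Primrec.fst
        (primrec_pow.comp (Primrec.const q) (Primrec.fst.comp Primrec.snd))
    · exact hA.comp (Primrec.pair (Primrec.pair (Primrec.snd.comp Primrec.snd) Primrec.fst)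
        ((primrec_bd C).comp Primrec.fst))
  have hP : PrimrecPred (fun p : ℕ × List ℕ =>
      ∀ x ∈ List.range (q ^ (p.1 + 1)), x < q ^ p.1 ∨ ¬ A p.2 x (T x)) := by
    refine hR.forall_mem_list.comp (Primrec.list_range.comp (primrec_pow.comp (Primrec.const q)
      (Primrec.succ.comp Primrec.fst))) Primrec.id
  let P' : ℕ → ℕ → ℕ := fun g m => if ∀ x ∈ List.range (q ^ (g + 1)),
    x < q ^ g ∨ ¬ A (Denumerable.ofNat (List ℕ) m) x (T x) then 0 else 1
  have hP' : Primrec₂ P' := by
    refine Primrec.ite (hP.comp (Primrec.pair Primrec.fst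
      ((Primrec.ofNat (List ℕ)).comp Primrec.snd))) (Primrec.const 0) (Primrec.const 1)
  let Lf : ℕ → ℕ := fun g => 2 ^ (T (q ^ (g + 1)) + 1)
  have hLf : Primrec Lf := primrec_pow.comp (Primrec.const 2) (Primrec.succ.comp
    ((primrec_bd C).comp (primrec_pow.comp (Primrec.const q) Primrec.succ)))
  refine ⟨fun g => P' g (Encodable.encode (tbl (orc D) (Lf g))), ?_, ?_⟩
  · refine PRO.comp₂ P' (PRO.of_primrec₂ hP') ?_ ?_
    · exact (PRO.get (n := 1) 0).of_eq fun v => by rw [List.Vector.get_zero]
    · exact PRO.comp₁ (fun m => Encodable.encode (tbl (orc D) m)) (pro_tbl _)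
        (PRO.of_primrec hLf)
  · intro g
    refine ⟨?_, ?_⟩
    · simp only [P']
      split_ifs <;> omega
    · simp only [P', Denumerable.ofNat_encode]
      have key : ∀ x < q ^ (g + 1), (A (tbl (orc D) (Lf g)) x (T x) ↔
          List.replicate x true ∈ L) := by
        intro x hx
        have hτ : ∀ s : List Bool, s.length ≤ T x →
            (look (tbl (orc D) (Lf g)) s = 1 ↔ s ∈ D) := by
          intro s hs
          apply look_tbl
          have h1 := idx_lt s
          have h2 : 2 ^ (s.length + 1) ≤ Lf g := by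
            refine Nat.pow_le_pow_right (by omega) ?_
            have := hTm hx.le
            omega
          omega
        have h1 := accC_spec N eS eG eT (T x) x hτ
        constructor
        · intro h
          obtain ⟨t, -, ht⟩ := h1.1 h
          by_contra hn
          exact hN2 _ hn t ht
        · intro h
          obtain ⟨t, ht, hacc⟩ := hN1 _ h
          refine h1.2 ⟨t, ht.trans ?_, hacc⟩
          rw [List.length_replicate]
          exact hC x
      split_ifs with h
      · simp only [true_iff]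
        intro x hx1 hx2 hx3
        rcases h x (List.mem_range.2 hx2) with h1 | h1
        · omega
        · exact h1 ((key x hx2).2 hx3)
      · simp only [one_ne_zero, false_iff]
        intro hg
        refine h (fun x hx => ?_)
        rw [List.mem_range] at hx
        by_cases h1 : x < q ^ g
        · exact Or.inl h1
        · exact Or.inr (fun h2 => hg x (by omega) hx ((key x hx).1 h2))

end Pool.Agent.Lib.MP_65a8de_lc
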