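import Pool.Agent.Lib.MP_65a8de_lc.Stage

/-!
# The languages accepted with the help of the main program
-/

namespace Pool.Agent.Lib.MP_65a8de_lc

open Function Finset

namespace GapData

variable {D : Set (List Bool)} (X : GapData D)

/-- The number read by the main program. -/
noncomputable def rdn (q : ℕ) (ε : Bool) (h J : ℕ) (d : ℕ → ℕ) : ℕ :=
  ∑ j ∈ range J, d j * X.wt q ε (X.F^[j] h)

/-- The number emitted by the main program. -/
noncomputable def emn (q : ℕ) (h J : ℕ) (d : ℕ → ℕ) : ℕ :=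
  ∑ j ∈ range J, d j * q ^ X.F^[j + 1] h

theorem rdn_succ (q : ℕ) (ε : Bool) (h J : ℕ) (d : ℕ → ℕ) :
    X.rdn q ε h (J + 1) d = d 0 * X.wt q ε h + X.rdn q ε (X.F h) J fun j => d (j + 1) := by
  rw [rdn, sum_range_succ', add_comm]
  rfl

theorem emn_succ (q : ℕ) (h J : ℕ) (d : ℕ → ℕ) :
    X.emn q h (J + 1) d = d 0 * q ^ X.F h + X.emn q (X.F h) J fun j => d (j + 1) := by
  rw [emn, sum_range_succ', add_comm]
  rfl

theorem star_sound (q : ℕ) (hq : 2 ≤ q) (ε : Bool) (w : List Bool) (σ σ' : Store) (t' : ℕ)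
    (hb : StarRel (Big D w (X.stage q ε)) σ σ' t') : ∀ h pos out tick : ℕ,
    σ = ⟨R h 0 0 0 0, [], pos, out, tick⟩ →
    ∃ (J : ℕ) (d : ℕ → ℕ), (∀ j, d j < q) ∧ Cons w pos (X.rdn q ε h J d) ∧ σ'.qry = [] ∧
      σ'.pos = pos + X.rdn q ε h J d ∧ σ'.out = out + X.emn q h J d := by
  induction hb with
  | stop σ =>
    rintro h pos out tick rfl
    refine ⟨0, fun _ => 0, fun _ => by show 0 < q; omega, ?_, rfl, rfl, rfl⟩
    exact cons_zero _ _
  | next σ τ σ' t₁ t₂ h₁ h₂ ih =>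
    rintro h pos out tick rfl
    obtain ⟨d0, hd0, tick', hc, rfl⟩ := X.stage_sound q hq ε w h pos out (tick + 1) τ t₁ h₁
    obtain ⟨J, d, hd, hc', hq', hp, ho⟩ := ih _ _ _ _ rfl
    refine ⟨J + 1, fun j => Nat.casesOn j d0 d, ?_, ?_, hq', ?_, ?_⟩
    · rintro (_ | j)
      · exact hd0
      · exact hd j
    · rw [rdn_succ]
      exact (cons_add _ _ _ _).2 ⟨hc, hc'⟩
    · rw [rdn_succ, hp]
      exact Nat.add_assoc _ _ _
    · rw [emn_succ, ho]
      exact Nat.add_assoc _ _ _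

theorem star_complete (q : ℕ) (hq : 2 ≤ q) (ε : Bool) (w : List Bool) :
    ∀ (J : ℕ) (d : ℕ → ℕ), (∀ j, d j < q) → ∀ h pos out tick : ℕ,
    Cons w pos (X.rdn q ε h J d) → ∃ (σ' : Store) (t' : ℕ),
      StarRel (Big D w (X.stage q ε)) ⟨R h 0 0 0 0, [], pos, out, tick⟩ σ' t' ∧
      σ'.pos = pos + X.rdn q ε h J d ∧ σ'.out = out + X.emn q h J d ∧
      t' + σ'.tick ≤ tick + (B q + 2) * (∑ j ∈ range J, q ^ X.F^[j + 1] h) + 2 := by
  intro J
  induction J with
  | zero =>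
    intro d hd h pos out tick _
    refine ⟨_, _, StarRel.stop _, rfl, rfl, ?_⟩
    simp only [Store.tk, range_zero, sum_empty]
    omega
  | succ J ih =>
    intro d hd h pos out tick hc
    rw [rdn_succ] at hc
    obtain ⟨hc1, hc2⟩ := (cons_add _ _ _ _).1 hc
    obtain ⟨t₁, tick', h1, ht1⟩ := X.stage_complete q hq ε w h pos out (tick + 1) (d 0) (hd 0) hc1
    obtain ⟨σ', t₂, h2, hp, ho, ht2⟩ := ih (fun j => d (j + 1)) (fun j => hd _) (X.F h)
      (pos + d 0 * X.wt q ε h) (out + d 0 * q ^ X.F h) tick' hc2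
    refine ⟨σ', _, StarRel.next _ _ _ t₁ t₂ h1 h2, ?_, ?_, ?_⟩
    · rw [rdn_succ, hp]
      exact Nat.add_assoc _ _ _
    · rw [emn_succ, ho]
      exact Nat.add_assoc _ _ _
    · rw [sum_range_succ']
      have e1 : ∑ k ∈ range J, q ^ X.F^[k + 1 + 1] h = ∑ k ∈ range J, q ^ X.F^[k + 1] (X.F h) :=
        rfl
      have e2 : q ^ X.F^[0 + 1] h = q ^ X.F h := rfl
      rw [e1, e2, mul_add, add_mul (B q) 2 (q ^ X.F h)]
      have : 1 ≤ q ^ X.F h := Nat.one_le_pow _ _ (by omega)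
      omega

/-- The main program. -/
def main (q : ℕ) (ε : Bool) (s : ℕ) : Cmd := Cmd.seq (incs 0 s) (Cmd.star (X.stage q ε))

theorem runs_start (s : ℕ) : Runs D (incs 0 s) (fun _ => 0) [] (R s 0 0 0 0) [] (2 * s + 1) := by
  refine (runs_incs 0 s _ _).cast ?_
  rw [← R_zero, updR0, Nat.zero_add]

theorem main_sound (q : ℕ) (hq : 2 ≤ q) (ε : Bool) (s : ℕ) (w : List Bool) (σ : Store) (t : ℕ)
    (hb : Big D w (X.main q ε s) σ0 σ t) :
    ∃ (J : ℕ) (d : ℕ → ℕ), (∀ j, d j < q) ∧ Cons w 0 (X.rdn q ε s J d) ∧ σ.qry = [] ∧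
      σ.pos = X.rdn q ε s J d ∧ σ.out = X.emn q s J d := by
  obtain ⟨τ, s₁, s₂, h1, h2, rfl⟩ := hb
  obtain ⟨rfl, rfl⟩ := (runs_start (D := D) s w 0 0 1 τ s₁).1 h1
  obtain ⟨J, d, hd, hc, hq', hp, ho⟩ := X.star_sound q hq ε w _ _ _ h2 s 0 0 _ rfl
  exact ⟨J, d, hd, hc, hq', by rw [hp, Nat.zero_add], by rw [ho, Nat.zero_add]⟩

theorem main_complete (q : ℕ) (hq : 2 ≤ q) (ε : Bool) (s : ℕ) (w : List Bool) (J : ℕ)
    (d : ℕ → ℕ) (hd : ∀ j, d j < q) (hc : Cons w 0 (X.rdn q ε s J d)) :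
    ∃ (σ : Store) (t : ℕ), Big D w (X.main q ε s) σ0 σ t ∧ σ.pos = X.rdn q ε s J d ∧
      σ.out = X.emn q s J d ∧
      t ≤ 4 * s + 6 + (B q + 2) * ∑ j ∈ range J, q ^ X.F^[j + 1] s := by
  obtain ⟨σ, t, h2, hp, ho, ht⟩ := X.star_complete q hq ε w J d hd s 0 0 (1 + (2 * s + 1)) hc
  refine ⟨σ, (2 * s + 1) + t + 1, ⟨_, _, _, (runs_start (D := D) s w 0 0 1 _ _).2 ⟨rfl, rfl⟩,
    h2, rfl⟩, by rw [hp, Nat.zero_add], by rw [ho, Nat.zero_add], ?_⟩
  omega

theorem sum_pow_le (q : ℕ) (hq : 2 ≤ q) (s J : ℕ) :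
    ∑ j ∈ range (J + 1), q ^ X.F^[j + 1] s ≤ 2 * q ^ X.F^[J + 1] s := by
  induction J with
  | zero =>
    rw [sum_range_one]
    omega
  | succ J ih =>
    rw [sum_range_succ]
    have h1 : X.F^[J + 1] s < X.F^[J + 1 + 1] s := by
      rw [iterate_succ_apply' X.F (J + 1)]
      exact X.lt_F _
    have h2 : q ^ (X.F^[J + 1] s + 1) ≤ q ^ X.F^[J + 1 + 1] s :=
      Nat.pow_le_pow_right (by omega) h1
    rw [pow_succ] at h2
    have h3 := Nat.mul_le_mul_left (q ^ X.F^[J + 1] s) hq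
    omega

theorem le_rdn (q : ℕ) (ε : Bool) (s J : ℕ) (d : ℕ → ℕ) (hd : d J ≠ 0) :
    q ^ X.F^[J + 1] s ≤ X.rdn q ε s (J + 1) d := by
  rw [rdn, sum_range_succ]
  have h1 : q ^ X.F^[J + 1] s ≤ X.wt q ε (X.F^[J] s) := by
    rw [wt, iterate_succ_apply' X.F J]
    exact Nat.le_add_left _ _
  have h2 : X.wt q ε (X.F^[J] s) ≤ d J * X.wt q ε (X.F^[J] s) :=
    Nat.le_mul_of_pos_left _ (Nat.pos_of_ne_zero hd)
  omega

theorem emn_le_rdn (q : ℕ) (ε : Bool) (s J : ℕ) (d : ℕ → ℕ) :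
    X.emn q s J d ≤ X.rdn q ε s J d := by
  refine sum_le_sum fun j _ => Nat.mul_le_mul_left _ ?_
  rw [wt, iterate_succ_apply' X.F j]
  exact Nat.le_add_left _ _

theorem eq_replicate_of_cons (w : List Bool) (n : ℕ) (h : Cons w 0 n) (h' : w.length ≤ n) :
    w = List.replicate n true := by
  apply List.ext_getElem?
  intro i
  by_cases hi : i < n
  · have := h i hi
    rw [Nat.zero_add] at this
    rw [this, List.getElem?_replicate, if_pos hi]
  · rw [List.getElem?_eq_none (by omega), List.getElem?_eq_none (by simpa using hi)]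

theorem cons_replicate (n : ℕ) : Cons (List.replicate n true) 0 n := by
  intro i hi
  rw [Nat.zero_add, List.getElem?_replicate, if_pos hi]

/-- The main result about the program: membership in `NP^D`. -/
theorem inNP (q : ℕ) (hq : 2 ≤ q) (ε : Bool) (s : ℕ) (L L' : Set (List Bool))
    (hL' : InNP D L')
    (h1 : ∀ w ∈ L, ∃ (J : ℕ) (d : ℕ → ℕ), (∀ j, d j < q) ∧ (∀ i, J = i + 1 → d i ≠ 0) ∧
      w = List.replicate (X.rdn q ε s J d) true ∧ List.replicate (X.emn q s J d) true ∈ L')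
    (h2 : ∀ (J : ℕ) (d : ℕ → ℕ), (∀ j, d j < q) → List.replicate (X.emn q s J d) true ∈ L' →
      List.replicate (X.rdn q ε s J d) true ∈ L) : InNP D L := by
  refine inNP_of_prog (X.main q ε s) hL'
    (Polynomial.C (4 * s + 6) + Polynomial.C ((B q + 2) * 2) * Polynomial.X) Polynomial.X
    ?_ ?_ ?_
  · intro w σ t hb
    obtain ⟨J, d, -, -, h, -⟩ := X.main_sound q hq ε s w σ t hb
    exact h
  · intro w hw
    obtain ⟨J, d, hd, htrim, rfl, hmem⟩ := h1 w hw
    obtain ⟨σ, t, hb, hp, ho, ht⟩ := X.main_complete q hq ε s _ J d hd (cons_replicate _)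
    refine ⟨σ, t, hb, ?_, ?_, ?_, ?_⟩
    · rw [hp, List.length_replicate]
    · rw [ho]
      exact hmem
    · rw [List.length_replicate, Polynomial.eval_add, Polynomial.eval_C, Polynomial.eval_mul,
        Polynomial.eval_C, Polynomial.eval_X]
      refine ht.trans (Nat.add_le_add_left ?_ _)
      rw [mul_assoc]
      refine Nat.mul_le_mul_left _ ?_
      rcases J with _ | J
      · simp
      · refine (X.sum_pow_le q hq s J).trans ?_
        exact Nat.mul_le_mul_left _ (X.le_rdn q ε s J d (htrim J rfl))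
    · rw [List.length_replicate, Polynomial.eval_X, ho]
      exact X.emn_le_rdn q ε s J d
  · intro w σ t hb hlen hmem
    obtain ⟨J, d, hd, hc, -, hp, ho⟩ := X.main_sound q hq ε s w σ t hb
    rw [hp] at hlen
    rw [eq_replicate_of_cons w _ hc hlen]
    rw [ho] at hmem
    exact h2 J d hd hmem

end GapData

/-- The set of all words is in `NP^D`. -/
theorem inNP_univ (D : Set (List Bool)) : InNP D Set.univ := by
  refine ⟨{
    State := Unit
    Symbol := Option Bool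
    Tape := Unit
    finite_state := inferInstance
    finite_symbol := inferInstance
    finite_tape := inferInstance
    blank := none
    letter := some
    letter_injective := Option.some_injective _
    letter_ne_blank := fun b => by simp
    input := ()
    start := ()
    accept := ()
    oracle := fun _ => none
    trans := fun _ _ => ∅ }, 0, ?_, ?_⟩
  · intro w _
    exact ⟨0, Nat.zero_le _, _, rfl, rfl⟩
  · intro w hw
    exact absurd (Set.mem_univ w) hw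

end Pool.Agent.Lib.MP_65a8de_lc
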