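import Pool.Agent.Lib.MP_65a8de_lc.Gap

/-!
# The main program

Starting with `h` in register `0`, one stage computes `G h` (the next gap), replaces `h` by
`F h` (which exceeds `G h` and the time used), computes the powers of `q`, and reads a digit.
-/

namespace Pool.Agent.Lib.MP_65a8de_lc

open Function

/-- Registers with given values of the first five ones. -/
def R (a b c d e : ℕ) : ℕ → ℕ
  | 0 => a
  | 1 => b
  | 2 => c
  | 3 => d
  | 4 => e
  | _ => 0

section R

variable (a b c d e x : ℕ)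

@[simp] theorem R0 : R a b c d e 0 = a := rfl
@[simp] theorem R1 : R a b c d e 1 = b := rfl
@[simp] theorem R2 : R a b c d e 2 = c := rfl
@[simp] theorem R3 : R a b c d e 3 = d := rfl
@[simp] theorem R4 : R a b c d e 4 = e := rfl

@[simp] theorem updR0 : update (R a b c d e) 0 x = R x b c d e := by
  funext j
  match j with
  | 0 | 1 | 2 | 3 | 4 | _ + 5 => rfl

@[simp] theorem updR1 : update (R a b c d e) 1 x = R a x c d e := by
  funext j
  match j with
  | 0 | 1 | 2 | 3 | 4 | _ + 5 => rfl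

@[simp] theorem updR2 : update (R a b c d e) 2 x = R a b x d e := by
  funext j
  match j with
  | 0 | 1 | 2 | 3 | 4 | _ + 5 => rfl

@[simp] theorem updR3 : update (R a b c d e) 3 x = R a b c x e := by
  funext j
  match j with
  | 0 | 1 | 2 | 3 | 4 | _ + 5 => rfl

@[simp] theorem updR4 : update (R a b c d e) 4 x = R a b c d x := by
  funext j
  match j with
  | 0 | 1 | 2 | 3 | 4 | _ + 5 => rfl

end R

theorem R_zero : R 0 0 0 0 0 = fun _ => 0 := by
  funext j
  match j with
  | 0 | 1 | 2 | 3 | 4 | _ + 5 => rfl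

/-! ### Powers -/

/-- Increase register `a` by `k`. -/
def incs (a : ℕ) : ℕ → Cmd
  | 0 => Cmd.skip
  | k + 1 => Cmd.seq (Cmd.inc a) (incs a k)

variable {D : Set (List Bool)}

theorem runs_incs (a : ℕ) : ∀ (k : ℕ) (r : ℕ → ℕ) (q : List Bool),
    Runs D (incs a k) r q (update r a (r a + k)) q (2 * k + 1) := by
  intro k
  induction k with
  | zero =>
    intro r q
    exact runs_skip.cast (by rw [Nat.add_zero, update_eq_self])
  | succ k ih =>
    intro r q
    refine (runs_seq (runs_inc a) (ih _ q)).cast' ?_ (by ring)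
    rw [update_idem, update_self]
    congr 1
    ring

/-- Multiply register `a` by `q`, with scratch register `s`. -/
def mulq (q a s : ℕ) : Cmd :=
  Cmd.seq (move a s) (Cmd.whl s (Cmd.seq (Cmd.dec s) (incs a q)))

theorem runs_mulq_aux (q a s : ℕ) (has : a ≠ s) (y : List Bool) :
    ∀ (n : ℕ) (r : ℕ → ℕ), r s = n →
    Runs D (Cmd.whl s (Cmd.seq (Cmd.dec s) (incs a q))) r y
      (update (update r a (r a + n * q)) s 0) y ((2 * q + 4) * n + 1) := by
  intro n
  induction n with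
  | zero =>
    intro r h
    refine (runs_whl_zero h).cast' ?_ (by ring)
    rw [Nat.zero_mul, Nat.add_zero, update_eq_self, ← h, update_eq_self]
  | succ n ih =>
    intro r h
    have h1 := runs_seq (runs_dec (D := D) (q := y) (r := r) s)
      (runs_incs (D := D) a q (update r s (r s - 1)) y)
    have h2 := ih (update (update r s (r s - 1)) a (update r s (r s - 1) a + q)) (by
      rw [update_of_ne has.symm, update_self, h]; rfl)
    refine (runs_whl_pos (by omega) h1 h2).cast' ?_ (by ring)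
    funext j
    by_cases g1 : j = s
    · subst g1; simp
    · by_cases g2 : j = a
      · subst g2; simp [g1]; ring
      · simp [g1, g2]

theorem runs_mulq (q a s : ℕ) (has : a ≠ s) (y : List Bool) (r : ℕ → ℕ) (hs : r s = 0) :
    Runs D (mulq q a s) r y (update r a (r a * q)) y ((2 * q + 8) * r a + 3) := by
  have h1 := runs_move (D := D) (q := y) a s has (r a) r rfl
  have h2 := runs_mulq_aux (D := D) q a s has y (r a)
    (update (update r s (r s + r a)) a 0) (by
      rw [update_of_ne has.symm, update_self, hs, zero_add])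
  refine (runs_seq h1 h2).cast' ?_ (by ring)
  funext j
  by_cases g1 : j = s
  · subst g1; simp [has.symm, hs]
  · by_cases g2 : j = a
    · subst g2; simp [has]
    · simp [g1, g2]

/-- Put `q ^ (r b)` in the (empty) register `a`, destroy `b`; scratch `s`. -/
def pow (q b a s : ℕ) : Cmd :=
  Cmd.seq (Cmd.inc a) (Cmd.whl b (Cmd.seq (Cmd.dec b) (mulq q a s)))

theorem runs_pow_aux (q b a s : ℕ) (hq : 2 ≤ q) (hab : a ≠ b) (has : a ≠ s) (hbs : b ≠ s)
    (y : List Bool) : ∀ (k n : ℕ) (r : ℕ → ℕ), r b = k → r a = n → 1 ≤ n → r s = 0 →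
    ∃ t, t + (2 * q + 14) * n ≤ (2 * q + 14) * (n * q ^ k) + 1 ∧
    Runs D (Cmd.whl b (Cmd.seq (Cmd.dec b) (mulq q a s))) r y
      (update (update r a (n * q ^ k)) b 0) y t := by
  intro k
  induction k with
  | zero =>
    intro n r hb ha hn hs
    refine ⟨1, by simp; ring_nf; rfl, (runs_whl_zero hb).cast ?_⟩
    rw [pow_zero, mul_one, ← ha, update_eq_self, ← hb, update_eq_self]
  | succ k ih =>
    intro n r hb ha hn hs
    have h1 := runs_seq (runs_dec (D := D) (q := y) (r := r) b)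
      (runs_mulq (D := D) q a s has y (update r b (r b - 1)) (by
        rw [update_of_ne hbs.symm, hs]))
    have ha' : update r b (r b - 1) a = n := by rw [update_of_ne hab, ha]
    rw [ha'] at h1
    obtain ⟨t, ht, h2⟩ := ih (n * q) (update (update r b (r b - 1)) a (n * q)) (by
        rw [update_of_ne hab.symm, update_self, hb]; rfl) (by rw [update_self])
        (by nlinarith) (by rw [update_of_ne has.symm, update_of_ne hbs.symm, hs])
    refine ⟨_, ?_, (runs_whl_pos (by omega) h1 h2).cast ?_⟩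
    · have e1 : n * q * q ^ k = n * q ^ (k + 1) := by rw [pow_succ]; ring
      rw [e1] at ht
      have e2 : (2 * q + 14) * (n * 2) ≤ (2 * q + 14) * (n * q) :=
        Nat.mul_le_mul_left _ (Nat.mul_le_mul_left _ hq)
      have e3 : (2 * q + 14) * n = (2 * q + 8) * n + 6 * n := by ring
      have e4 : (2 * q + 14) * (n * 2) = 2 * ((2 * q + 14) * n) := by ring
      omega
    · funext j
      by_cases g1 : j = b
      · subst g1; simp
      · by_cases g2 : j = a
        · subst g2; simp [g1]; ring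
        · simp [g1, g2]

theorem runs_pow (q b a s : ℕ) (hq : 2 ≤ q) (hab : a ≠ b) (has : a ≠ s) (hbs : b ≠ s)
    (y : List Bool) (r : ℕ → ℕ) (ha : r a = 0) (hs : r s = 0) :
    ∃ t, t ≤ (2 * q + 14) * q ^ (r b) + 3 ∧
    Runs D (pow q b a s) r y (update (update r a (q ^ (r b))) b 0) y t := by
  obtain ⟨t, ht, h⟩ := runs_pow_aux (D := D) q b a s hq hab has hbs y (r b) 1
    (update r a (r a + 1)) (by rw [update_of_ne hab.symm]) (by rw [update_self, ha]) le_rfl
    (by rw [update_of_ne has.symm, hs])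
  refine ⟨_, ?_, (runs_seq (runs_inc a) h).cast ?_⟩
  · rw [one_mul] at ht
    omega
  · rw [update_idem, one_mul]

/-! ### Programs that consume letters of the input word -/

/-- The `n` letters of `w` from position `pos` on are `true`. -/
def Cons (w : List Bool) (pos n : ℕ) : Prop := ∀ i < n, w[pos + i]? = some true

theorem cons_zero (w : List Bool) (pos : ℕ) : Cons w pos 0 := fun i hi => absurd hi (by omega)

theorem cons_add (w : List Bool) (pos m n : ℕ) :
    Cons w pos (m + n) ↔ Cons w pos m ∧ Cons w (pos + m) n := by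
  constructor
  · intro h
    refine ⟨fun i hi => h i (by omega), fun i hi => ?_⟩
    rw [Nat.add_assoc]
    exact h (m + i) (by omega)
  · rintro ⟨h1, h2⟩ i hi
    by_cases h : i < m
    · exact h1 i h
    · have := h2 (i - m) (by omega)
      rw [show pos + m + (i - m) = pos + i by omega] at this
      exact this

/-- Deterministic behaviour of a program that needs `n` letters `true` and emits `m` units. -/
def CRuns (D : Set (List Bool)) (w : List Bool) (c : Cmd) (r r' : ℕ → ℕ) (n m t : ℕ) : Prop :=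
  ∀ (pos out tick : ℕ) (σ' : Store) (t' : ℕ),
    Big D w c ⟨r, [], pos, out, tick⟩ σ' t' ↔
      Cons w pos n ∧ σ' = ⟨r', [], pos + n, out + m, tick + t⟩ ∧ t' = t

variable {w : List Bool} {c d : Cmd} {r r₁ r₂ : ℕ → ℕ} {n₁ n₂ m₁ m₂ t₁ t₂ : ℕ}

theorem Runs.cruns {t : ℕ} (h : Runs D c r [] r₁ [] t) : CRuns D w c r r₁ 0 0 t := by
  intro pos out tick σ' t'
  rw [h w pos out tick σ' t']
  constructor
  · rintro ⟨h1, h2⟩
    exact ⟨cons_zero _ _, h1, h2⟩
  · rintro ⟨-, h1, h2⟩
    exact ⟨h1, h2⟩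

theorem cruns_consume : CRuns D w Cmd.consume r r 1 0 1 := by
  intro pos out tick σ' t'
  constructor
  · rintro ⟨h, rfl, rfl⟩
    refine ⟨fun i hi => ?_, rfl, rfl⟩
    rw [Nat.lt_one_iff.1 hi]
    exact h
  · rintro ⟨h, rfl, rfl⟩
    exact ⟨h 0 (by omega), rfl, rfl⟩

theorem cruns_emit : CRuns D w Cmd.emit r r 0 1 1 := by
  intro pos out tick σ' t'
  constructor
  · rintro ⟨rfl, rfl⟩
    exact ⟨cons_zero _ _, rfl, rfl⟩
  · rintro ⟨-, rfl, rfl⟩
    exact ⟨rfl, rfl⟩

theorem cruns_seq (h₁ : CRuns D w c r r₁ n₁ m₁ t₁) (h₂ : CRuns D w d r₁ r₂ n₂ m₂ t₂) :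
    CRuns D w (Cmd.seq c d) r r₂ (n₁ + n₂) (m₁ + m₂) (t₁ + t₂ + 1) := by
  intro pos out tick σ' t'
  constructor
  · rintro ⟨τ, s₁, s₂, h1, h2, rfl⟩
    obtain ⟨k1, rfl, rfl⟩ := (h₁ pos out (tick + 1) τ s₁).1 h1
    obtain ⟨k2, rfl, rfl⟩ := (h₂ _ _ _ σ' s₂).1 h2
    refine ⟨(cons_add _ _ _ _).2 ⟨k1, k2⟩, ?_, rfl⟩
    ext <;> simp <;> ring
  · rintro ⟨k, rfl, rfl⟩
    obtain ⟨k1, k2⟩ := (cons_add _ _ _ _).1 k
    refine ⟨_, t₁, t₂, (h₁ pos out (tick + 1) _ t₁).2 ⟨k1, rfl, rfl⟩,
      (h₂ _ _ _ _ t₂).2 ⟨k2, ?_, rfl⟩, rfl⟩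
    ext <;> simp <;> ring

theorem cruns_whl_zero {a : ℕ} (h : r a = 0) : CRuns D w (Cmd.whl a c) r r 0 0 1 :=
  (runs_whl_zero h).cruns

theorem cruns_whl_pos {a : ℕ} (h : r a ≠ 0) (h₁ : CRuns D w c r r₁ n₁ m₁ t₁)
    (h₂ : CRuns D w (Cmd.whl a c) r₁ r₂ n₂ m₂ t₂) :
    CRuns D w (Cmd.whl a c) r r₂ (n₁ + n₂) (m₁ + m₂) (t₁ + t₂ + 1) := by
  intro pos out tick σ' t'
  constructor
  · intro h1
    change WhileRel (Big D w c) a _ _ _ at h1
    cases h1 with
    | stop _ h0 => exact absurd h0 h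
    | next _ τ _ s₁ s₂ h0 h1 h2 =>
      obtain ⟨k1, rfl, rfl⟩ := (h₁ pos out (tick + 1) _ s₁).1 h1
      obtain ⟨k2, rfl, rfl⟩ := (h₂ _ _ _ σ' s₂).1 h2
      refine ⟨(cons_add _ _ _ _).2 ⟨k1, k2⟩, ?_, rfl⟩
      ext <;> simp <;> ring
  · rintro ⟨k, rfl, rfl⟩
    obtain ⟨k1, k2⟩ := (cons_add _ _ _ _).1 k
    refine WhileRel.next _ _ _ t₁ t₂ h ((h₁ pos out (tick + 1) _ t₁).2 ⟨k1, rfl, rfl⟩)
      ((h₂ _ _ _ _ t₂).2 ⟨k2, ?_, rfl⟩)
    ext <;> simp <;> ring

theorem CRuns.cast {n m t n' m' t' : ℕ} (h : CRuns D w c r r₁ n m t) (hr : r₁ = r₂)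
    (hn : n = n') (hm : m = m') (ht : t = t') : CRuns D w c r r₂ n' m' t' := by
  subst hr hn hm ht
  exact h

/-- Run `X` once for each unit of register `a`, with scratch register `s`. -/
def loop (a s : ℕ) (X : Cmd) : Cmd :=
  Cmd.seq (Cmd.whl a (Cmd.seq (Cmd.dec a) (Cmd.seq (Cmd.inc s) X))) (move s a)

theorem cruns_loop_aux (a s : ℕ) (has : a ≠ s) (X : Cmd) (n m t : ℕ)
    (hX : ∀ r, CRuns D w X r r n m t) : ∀ (k : ℕ) (r : ℕ → ℕ), r a = k →
    CRuns D w (Cmd.whl a (Cmd.seq (Cmd.dec a) (Cmd.seq (Cmd.inc s) X))) r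
      (update (update r s (r s + k)) a 0) (k * n) (k * m) (k * (t + 5) + 1) := by
  intro k
  induction k with
  | zero =>
    intro r h
    refine (cruns_whl_zero h).cast ?_ (by ring) (by ring) (by ring)
    rw [Nat.add_zero, update_eq_self, ← h, update_eq_self]
  | succ k ih =>
    intro r h
    have h1 := cruns_seq (w := w) (runs_dec (D := D) (q := []) (r := r) a).cruns
      (cruns_seq (runs_inc (D := D) (q := []) (r := update r a (r a - 1)) s).cruns (hX _))
    have h2 := ih (update (update r a (r a - 1)) s (update r a (r a - 1) s + 1)) (by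
      rw [update_of_ne has, update_self, h]; rfl)
    refine (cruns_whl_pos (by omega) h1 h2).cast ?_ (by ring) (by ring) (by ring)
    funext j
    by_cases g1 : j = a
    · subst g1; simp
    · by_cases g2 : j = s
      · subst g2; simp [g1]; ring
      · simp [g1, g2]

theorem cruns_loop (a s : ℕ) (has : a ≠ s) (X : Cmd) (n m t : ℕ)
    (hX : ∀ r, CRuns D w X r r n m t) (r : ℕ → ℕ) (hs : r s = 0) :
    CRuns D w (loop a s X) r r (r a * n) (r a * m) (r a * (t + 9) + 3) := by
  have h1 := cruns_loop_aux (D := D) (w := w) a s has X n m t hX (r a) r rfl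
  have h2 := (runs_move (D := D) (q := []) s a has.symm (r a)
    (update (update r s (r s + r a)) a 0) (by
      rw [update_of_ne has.symm, update_self, hs, zero_add])).cruns (w := w)
  refine (cruns_seq h1 h2).cast ?_ (by ring) (by ring) (by ring)
  funext j
  by_cases g1 : j = s
  · subst g1; simp [hs]
  · by_cases g2 : j = a
    · subst g2; simp [g1]
    · simp [g1, g2]

/-- Run `c` at most `k` times. -/
def dig (c : Cmd) : ℕ → Cmd
  | 0 => Cmd.skip
  | k + 1 => Cmd.seq (Cmd.choose Cmd.skip c) (dig c k)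

theorem dig_sound {n m t : ℕ} (hc : CRuns D w c r r n m t) :
    ∀ (k pos out tick : ℕ) (σ' : Store) (t' : ℕ),
    Big D w (dig c k) ⟨r, [], pos, out, tick⟩ σ' t' →
      ∃ d ≤ k, Cons w pos (d * n) ∧ σ' = ⟨r, [], pos + d * n, out + d * m, tick + t'⟩ := by
  intro k
  induction k with
  | zero =>
    rintro pos out tick σ' t' ⟨rfl, rfl⟩
    refine ⟨0, le_rfl, by rw [zero_mul]; exact cons_zero _ _, ?_⟩
    ext <;> simp [Store.tk]
  | succ k ih =>
    rintro pos out tick σ' t' ⟨τ, s₁, s₂, ⟨s, rfl, hs | hs⟩, h2, rfl⟩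
    · obtain ⟨rfl, rfl⟩ := hs
      obtain ⟨d, hd, h3, rfl⟩ := ih _ _ _ _ _ h2
      refine ⟨d, by omega, h3, ?_⟩
      ext <;> simp [Store.tk]
      ring
    · obtain ⟨h3, rfl, rfl⟩ := (hc pos out (tick + 1 + 1) τ s).1 hs
      obtain ⟨d, hd, h4, rfl⟩ := ih _ _ _ _ _ h2
      refine ⟨d + 1, by omega, ?_, ?_⟩
      · rw [show (d + 1) * n = n + d * n by ring]
        exact (cons_add _ _ _ _).2 ⟨h3, h4⟩
      · ext <;> simp <;> ring

theorem dig_complete {n m t : ℕ} (hc : CRuns D w c r r n m t) :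
    ∀ (k d : ℕ), d ≤ k → ∀ pos out tick : ℕ, Cons w pos (d * n) → ∃ t' ≤ (t + 4) * k + 1,
    Big D w (dig c k) ⟨r, [], pos, out, tick⟩
      ⟨r, [], pos + d * n, out + d * m, tick + t'⟩ t' := by
  intro k
  induction k with
  | zero =>
    intro d hd pos out tick _
    obtain rfl : d = 0 := by omega
    refine ⟨1, by omega, ?_, rfl⟩
    ext <;> simp [Store.tk]
  | succ k ih =>
    intro d hd pos out tick h
    have e : (t + 4) * (k + 1) = (t + 4) * k + (t + 4) := by ring
    rcases d with _ | d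
    · obtain ⟨t', ht', hb⟩ := ih 0 (by omega) pos out (tick + 1 + 1 + 1)
        (by rw [zero_mul]; exact cons_zero _ _)
      refine ⟨2 + t' + 1, by omega, _, 2, t', ⟨1, rfl, Or.inl ⟨rfl, rfl⟩⟩, ?_, rfl⟩
      rw [show tick + (2 + t' + 1) = tick + 1 + 1 + 1 + t' by ring]
      exact hb
    · rw [show (d + 1) * n = n + d * n by ring] at h
      obtain ⟨h1, h2⟩ := (cons_add _ _ _ _).1 h
      obtain ⟨t', ht', hb⟩ := ih d (by omega) (pos + n) (out + m) (tick + 1 + 1 + t) h2
      refine ⟨(t + 1) + t' + 1, by omega, _, t + 1, t', ⟨t, rfl, Or.inr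
        ((hc pos out (tick + 1 + 1) _ t).2 ⟨h1, rfl, rfl⟩)⟩, ?_, rfl⟩
      convert hb using 2 <;> ring

end Pool.Agent.Lib.MP_65a8de_lc
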