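import Pool.Agent.Lib.MP_65a8de_lc.Compile

/-!
# Correctness of the compiled machine
-/

namespace Pool.Agent.Lib.MP_65a8de_lc

open Function

variable {N : OracleNTM} {R : ℕ} {D : Set (List Bool)} {w : List Bool}

/-- The symbols scanned in the configuration of a store. -/
noncomputable def symsOf (N : OracleNTM) (R : ℕ) (w : List Bool) (σ : Store) :
    TT N R → Option N.Symbol := fun i => tapesOf N R w σ i 0

/-- The tapes after an action. -/
noncomputable def newT (N : OracleNTM) (R : ℕ) (w : List Bool) (σ : Store)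
    (wv : TT N R → Option N.Symbol × Move) : TT N R → ℤ → Option N.Symbol :=
  fun i => shift (wv i).2 (update (tapesOf N R w σ i) 0 (wv i).1)

theorem tapes_wrt (σ σ₁ : Store) (f : ℕ → Move) (pm tm : Move)
    (h₁ : ∀ j < R, shift (f j) (regT N (σ.reg j)) = regT N (σ₁.reg j))
    (h₂ : shift pm (fun i => wordT N w (i + σ.pos)) = fun i => wordT N w (i + σ₁.pos))
    (h₃ : shift tm (regT N σ.tick) = regT N σ₁.tick) (h₄ : σ₁.out = σ.out) :
    newT N R w σ (wrt N R (symsOf N R w σ) (mvs N R f pm tm)) = tapesOf N R w σ₁ := by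
  funext i
  simp only [newT, wrt, symsOf, update_eq_self]
  rcases i with j | (b | i)
  · exact h₁ j j.2
  · cases b
    · exact h₂
    · exact h₃
  · simp only [mvs, shift_stay, tapesOf, h₄]

theorem rsym_eq (σ : Store) (r : ℕ) (hr : r < R) :
    rsym N R (symsOf N R w σ) r = none ↔ σ.reg r = 0 := by
  simp only [rsym, hr, dif_pos, symsOf, tapesOf]
  exact regT_zero_iff N _

theorem tapes_tk (σ : Store) (q : List Bool) :
    newT N R w σ (wrt N R (symsOf N R w σ) (mvs N R nomv Move.stay Move.right)) =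
      tapesOf N R w { σ.tk with qry := q } :=
  tapes_wrt σ _ _ _ _ (fun _ _ => rfl) rfl (shift_right_regT N _) rfl

theorem tapes_tk' (σ : Store) :
    newT N R w σ (wrt N R (symsOf N R w σ) (mvs N R nomv Move.stay Move.right)) =
      tapesOf N R w σ.tk := tapes_tk σ σ.qry

theorem tapes_inc (σ : Store) (r : ℕ) :
    newT N R w σ (wrt N R (symsOf N R w σ) (mvs N R (up r) Move.stay Move.right)) =
      tapesOf N R w { σ.tk with reg := update σ.reg r (σ.reg r + 1) } := by
  refine tapes_wrt σ _ _ _ _ (fun j _ => ?_) rfl (shift_right_regT N _) rfl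
  by_cases h : j = r
  · subst h
    simp only [up, if_pos, update_self]
    exact shift_right_regT N _
  · simp only [up, if_neg h, update_of_ne h]
    rfl

theorem tapes_dec (σ : Store) (r : ℕ) (h : σ.reg r ≠ 0) :
    newT N R w σ (wrt N R (symsOf N R w σ) (mvs N R (down r) Move.stay Move.right)) =
      tapesOf N R w { σ.tk with reg := update σ.reg r (σ.reg r - 1) } := by
  refine tapes_wrt σ _ _ _ _ (fun j _ => ?_) rfl (shift_right_regT N _) rfl
  by_cases hj : j = r
  · subst hj
    simp only [down, if_pos, update_self]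
    exact shift_left_regT N _ h
  · simp only [down, if_neg hj, update_of_ne hj]
    rfl

theorem tapes_dec' (σ : Store) (r : ℕ) :
    newT N R w σ (wrt N R (symsOf N R w σ)
      (mvs N R (if rsym N R (symsOf N R w σ) r = none then nomv else down r)
        Move.stay Move.right)) =
      tapesOf N R w { σ.tk with reg := update σ.reg r (σ.reg r - 1) } := by
  by_cases hr : r < R
  · split_ifs with h
    · rw [rsym_eq σ r hr] at h
      have : ({ σ.tk with reg := update σ.reg r (σ.reg r - 1) } : Store) = σ.tk := by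
        have : update σ.reg r (σ.reg r - 1) = σ.reg := by
          rw [h]
          simp [h]
        ext <;> simp [Store.tk, this]
      rw [this]
      exact tapes_tk' σ
    · rw [rsym_eq σ r hr] at h
      exact tapes_dec σ r h
  · have h0 : rsym N R (symsOf N R w σ) r = none := by simp [rsym, hr]
    rw [if_pos h0]
    refine tapes_wrt σ _ _ _ _ (fun j hj => ?_) rfl (shift_right_regT N _) rfl
    have : j ≠ r := by rintro rfl; exact hr hj
    simp only [nomv, update_of_ne this]
    rfl

theorem tapes_consume (σ : Store) :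
    newT N R w σ (wrt N R (symsOf N R w σ) (mvs N R nomv Move.right Move.right)) =
      tapesOf N R w { σ.tk with pos := σ.pos + 1 } := by
  refine tapes_wrt σ _ _ _ _ (fun j _ => rfl) ?_ (shift_right_regT N _) rfl
  funext i
  simp only [shift]
  congr 1
  push_cast
  ring

theorem tapes_emit (σ : Store) :
    newT N R w σ (emitAct N R (symsOf N R w σ)) =
      tapesOf N R w { σ.tk with out := σ.out + 1 } := by
  funext i
  rcases i with j | (b | i)
  · simp only [newT, emitAct, symsOf, update_eq_self, shift_stay]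
    rfl
  · cases b
    · simp only [newT, emitAct, symsOf, update_eq_self, shift_stay]
      rfl
    · simp only [newT, emitAct, symsOf, update_eq_self]
      exact shift_right_regT N σ.tick
  · by_cases h0 : i = N.input
    · simp only [newT, emitAct, h0, if_true, tapesOf]
      exact shift_left_outT N σ.out
    · simp only [newT, emitAct, if_neg h0, symsOf, update_eq_self, shift_stay, tapesOf]

theorem tapes_stay (σ : Store) :
    newT N R w σ (wrt N R (symsOf N R w σ) (mvs N R nomv Move.stay Move.stay)) =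
      tapesOf N R w σ :=
  tapes_wrt σ _ _ _ _ (fun _ _ => rfl) rfl rfl rfl

theorem tapes_clr (σ : Store) (h : σ.tick ≠ 0) :
    newT N R w σ (wrt N R (symsOf N R w σ) (mvs N R nomv Move.stay Move.left)) =
      tapesOf N R w { σ with tick := σ.tick - 1 } :=
  tapes_wrt σ _ _ _ _ (fun _ _ => rfl) rfl (shift_left_regT N _ h) rfl

theorem tapes_rd (σ : Store) (r : ℕ) (h : σ.tick ≠ 0) :
    newT N R w σ (wrt N R (symsOf N R w σ) (mvs N R (up r) Move.stay Move.left)) =
      tapesOf N R w { σ with tick := σ.tick - 1, reg := update σ.reg r (σ.reg r + 1) } := by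
  refine tapes_wrt σ _ _ _ _ (fun j _ => ?_) rfl (shift_left_regT N _ h) rfl
  by_cases hj : j = r
  · subst hj
    simp only [up, if_pos, update_self]
    exact shift_right_regT N _
  · simp only [up, if_neg hj, update_of_ne hj]
    rfl

/-- The tests made by a continuation concern registers below `R`. -/
def HeadLt (R : ℕ) (k : List Cmd) : Prop := ∀ x ∈ k, x.Lt R

theorem tick_sym (σ : Store) :
    symsOf N R w σ (Sum.inr (Sum.inl true)) = none ↔ σ.tick = 0 := regT_zero_iff N _

theorem pos_sym (σ : Store) :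
    symsOf N R w σ (Sum.inr (Sum.inl false)) = some (N.letter true) ↔
      w[σ.pos]? = some true := by
  simp only [symsOf, tapesOf]
  exact wordT_at N w σ.pos true

theorem act_sound {k k' : List Cmd} (hk : HeadLt R k) {σ : Store}
    {wv : TT N R → Option N.Symbol × Move} {b : Option Bool}
    (h : (k', wv, b) ∈ act N R k (symsOf N R w σ)) :
    ∃ σ₁, SS D w k σ k' σ₁ ∧ newT N R w σ wv = tapesOf N R w σ₁ ∧
      σ.qry ++ b.toList = σ₁.qry := by
  classical
  rcases k with _ | ⟨c, k⟩
  · simp [act] at h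
  cases c with
  | skip =>
    simp only [act, Set.mem_singleton_iff, Prod.mk.injEq] at h
    obtain ⟨rfl, rfl, rfl⟩ := h
    exact ⟨_, SS.skip _ σ, tapes_tk' σ, by simp [Store.tk]⟩
  | inc r =>
    simp only [act, Set.mem_singleton_iff, Prod.mk.injEq] at h
    obtain ⟨rfl, rfl, rfl⟩ := h
    exact ⟨_, SS.inc r _ σ, tapes_inc σ r, by simp [Store.tk]⟩
  | dec r =>
    simp only [act, Set.mem_singleton_iff, Prod.mk.injEq] at h
    obtain ⟨rfl, rfl, rfl⟩ := h
    exact ⟨_, SS.dec r _ σ, tapes_dec' σ r, by simp [Store.tk]⟩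
  | push b' =>
    simp only [act, Set.mem_singleton_iff, Prod.mk.injEq] at h
    obtain ⟨rfl, rfl, rfl⟩ := h
    exact ⟨_, SS.push b' _ σ, tapes_tk σ _, by simp⟩
  | seq c d =>
    simp only [act, Set.mem_singleton_iff, Prod.mk.injEq] at h
    obtain ⟨rfl, rfl, rfl⟩ := h
    exact ⟨_, SS.seq c d _ σ, tapes_tk' σ, by simp [Store.tk]⟩
  | ite r c d =>
    simp only [act, Set.mem_singleton_iff, Prod.mk.injEq] at h
    obtain ⟨rfl, rfl, rfl⟩ := h
    have hr : r < R := (hk _ (List.mem_cons_self)).1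
    refine ⟨_, ?_, tapes_tk' σ, by simp [Store.tk]⟩
    split_ifs with h0
    · exact SS.ite_zero r c d k σ ((rsym_eq σ r hr).1 h0)
    · exact SS.ite_pos r c d k σ (fun h => h0 ((rsym_eq σ r hr).2 h))
  | whl r c =>
    simp only [act, Set.mem_singleton_iff, Prod.mk.injEq] at h
    obtain ⟨rfl, rfl, rfl⟩ := h
    have hr : r < R := (hk _ (List.mem_cons_self)).1
    refine ⟨_, ?_, tapes_tk' σ, by simp [Store.tk]⟩
    split_ifs with h0
    · exact SS.whl_zero r c k σ ((rsym_eq σ r hr).1 h0)
    · exact SS.whl_pos r c k σ (fun h => h0 ((rsym_eq σ r hr).2 h))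
  | ask c d => simp [act] at h
  | choose c d =>
    simp only [act, Set.mem_insert_iff, Set.mem_singleton_iff, Prod.mk.injEq] at h
    rcases h with ⟨rfl, rfl, rfl⟩ | ⟨rfl, rfl, rfl⟩
    · exact ⟨_, SS.choose_left c d _ σ, tapes_tk' σ, by simp [Store.tk]⟩
    · exact ⟨_, SS.choose_right c d _ σ, tapes_tk' σ, by simp [Store.tk]⟩
  | star c =>
    simp only [act, Set.mem_insert_iff, Set.mem_singleton_iff, Prod.mk.injEq] at h
    rcases h with ⟨rfl, rfl, rfl⟩ | ⟨rfl, rfl, rfl⟩
    · exact ⟨_, SS.star_stop c _ σ, tapes_tk' σ, by simp [Store.tk]⟩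
    · exact ⟨_, SS.star_go c _ σ, tapes_tk' σ, by simp [Store.tk]⟩
  | consume =>
    simp only [act] at h
    split_ifs at h with h0
    · simp only [Set.mem_singleton_iff, Prod.mk.injEq] at h
      obtain ⟨rfl, rfl, rfl⟩ := h
      exact ⟨_, SS.consume _ σ ((pos_sym σ).1 h0), tapes_consume σ, by simp [Store.tk]⟩
    · simp at h
  | emit =>
    simp only [act, Set.mem_singleton_iff, Prod.mk.injEq] at h
    obtain ⟨rfl, rfl, rfl⟩ := h
    exact ⟨_, SS.emit _ σ, tapes_emit σ, by simp [Store.tk]⟩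
  | clr =>
    simp only [act] at h
    split_ifs at h with h0
    · simp only [Set.mem_singleton_iff, Prod.mk.injEq] at h
      obtain ⟨rfl, rfl, rfl⟩ := h
      exact ⟨_, SS.clr_zero _ σ ((tick_sym σ).1 h0), tapes_stay σ, by simp⟩
    · simp only [Set.mem_singleton_iff, Prod.mk.injEq] at h
      obtain ⟨rfl, rfl, rfl⟩ := h
      have h1 : σ.tick ≠ 0 := fun h => h0 ((tick_sym σ).2 h)
      exact ⟨_, SS.clr_pos _ σ h1, tapes_clr σ h1, by simp⟩
  | rd r =>
    simp only [act] at h
    split_ifs at h with h0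
    · simp only [Set.mem_singleton_iff, Prod.mk.injEq] at h
      obtain ⟨rfl, rfl, rfl⟩ := h
      exact ⟨_, SS.rd_zero r _ σ ((tick_sym σ).1 h0), tapes_stay σ, by simp⟩
    · simp only [Set.mem_singleton_iff, Prod.mk.injEq] at h
      obtain ⟨rfl, rfl, rfl⟩ := h
      have h1 : σ.tick ≠ 0 := fun h => h0 ((tick_sym σ).2 h)
      exact ⟨_, SS.rd_pos r _ σ h1, tapes_rd σ r h1, by simp⟩

/-- The first command is an oracle query. -/
def IsAsk (k : List Cmd) : Prop := ∃ a b k', k = Cmd.ask a b :: k'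

theorem act_complete {k k' : List Cmd} (hk : HeadLt R k) (ha : ¬ IsAsk k) {σ σ₁ : Store}
    (h : SS D w k σ k' σ₁) :
    ∃ (wv : TT N R → Option N.Symbol × Move) (b : Option Bool),
      (k', wv, b) ∈ act N R k (symsOf N R w σ) ∧ newT N R w σ wv = tapesOf N R w σ₁ ∧
      σ.qry ++ b.toList = σ₁.qry := by
  classical
  cases h with
  | skip => exact ⟨_, _, rfl, tapes_tk' σ, by simp [Store.tk]⟩
  | inc r => exact ⟨_, _, rfl, tapes_inc σ r, by simp [Store.tk]⟩
  | dec r => exact ⟨_, _, rfl, tapes_dec' σ r, by simp [Store.tk]⟩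
  | push b => exact ⟨_, _, rfl, tapes_tk σ _, by simp⟩
  | seq c d => exact ⟨_, _, rfl, tapes_tk' σ, by simp [Store.tk]⟩
  | ite_pos r c d _ _ hr =>
    have hr' : r < R := (hk _ (List.mem_cons_self)).1
    refine ⟨_, _, ?_, tapes_tk' σ, by simp [Store.tk]; rfl⟩
    simp only [act, rsym_eq σ r hr', if_neg hr]
    rfl
  | ite_zero r c d _ _ hr =>
    have hr' : r < R := (hk _ (List.mem_cons_self)).1
    refine ⟨_, _, ?_, tapes_tk' σ, by simp [Store.tk]; rfl⟩
    simp only [act, rsym_eq σ r hr', if_pos hr]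
    rfl
  | whl_pos r c _ _ hr =>
    have hr' : r < R := (hk _ (List.mem_cons_self)).1
    refine ⟨_, _, ?_, tapes_tk' σ, by simp [Store.tk]; rfl⟩
    simp only [act, rsym_eq σ r hr', if_neg hr]
    rfl
  | whl_zero r c _ _ hr =>
    have hr' : r < R := (hk _ (List.mem_cons_self)).1
    refine ⟨_, _, ?_, tapes_tk' σ, by simp [Store.tk]; rfl⟩
    simp only [act, rsym_eq σ r hr', if_pos hr]
    rfl
  | ask_yes c d k => exact absurd ⟨c, d, k, rfl⟩ ha
  | ask_no c d k => exact absurd ⟨c, d, k, rfl⟩ ha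
  | choose_left c d => exact ⟨_, _, Or.inl rfl, tapes_tk' σ, by simp [Store.tk]⟩
  | choose_right c d => exact ⟨_, _, Or.inr rfl, tapes_tk' σ, by simp [Store.tk]⟩
  | star_stop c => exact ⟨_, _, Or.inl rfl, tapes_tk' σ, by simp [Store.tk]⟩
  | star_go c => exact ⟨_, _, Or.inr rfl, tapes_tk' σ, by simp [Store.tk]⟩
  | consume _ _ h0 =>
    refine ⟨_, none, ?_, tapes_consume σ, by simp [Store.tk]⟩
    simp only [act]
    rw [if_pos ((pos_sym σ).2 h0)]
    rfl
  | emit => exact ⟨_, _, rfl, tapes_emit σ, by simp [Store.tk]⟩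
  | clr_pos _ _ h0 =>
    refine ⟨_, none, ?_, tapes_clr σ h0, by simp⟩
    simp only [act]
    rw [if_neg (fun h => h0 ((tick_sym σ).1 h))]
    rfl
  | clr_zero _ _ h0 =>
    refine ⟨_, none, ?_, tapes_stay σ, by simp⟩
    simp only [act]
    rw [if_pos ((tick_sym σ).2 h0)]
    rfl
  | rd_pos r _ _ h0 =>
    refine ⟨_, none, ?_, tapes_rd σ r h0, by simp⟩
    simp only [act]
    rw [if_neg (fun h => h0 ((tick_sym σ).1 h))]
    rfl
  | rd_zero r _ _ h0 =>
    refine ⟨_, none, ?_, tapes_stay σ, by simp⟩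
    simp only [act]
    rw [if_pos ((tick_sym σ).2 h0)]
    rfl

end Pool.Agent.Lib.MP_65a8de_lc
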