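import Pool.Agent.Lib.MP_65a8de_lc.Mach

/-!
# Runs of the compiled machine
-/

namespace Pool.Agent.Lib.MP_65a8de_lc

open Function

theorem OracleNTM.Reach.trans {N : OracleNTM} {A : Set (List Bool)} {m n : ℕ}
    {c d e : N.Config} (h : N.Reach A m c d) (h' : N.Reach A n d e) : N.Reach A (m + n) c e := by
  induction m generalizing c with
  | zero =>
    obtain rfl : c = d := h
    simpa using h'
  | succ m ih =>
    obtain ⟨c', hs, hr⟩ := h
    rw [show m + 1 + n = (m + n) + 1 by ring]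
    exact ⟨c', hs, ih hr⟩

theorem OracleNTM.Reach.one {N : OracleNTM} {A : Set (List Bool)} {c d : N.Config}
    (h : N.Step A c d) : N.Reach A 1 c d := ⟨d, h, rfl⟩

/-- The configuration reached by an action. -/
def OracleNTM.nxt (M : OracleNTM) (C : M.Config)
    (a : M.State × (M.Tape → M.Symbol × Move) × Option Bool) : M.Config :=
  ⟨a.1, fun i => shift (a.2.1 i).2 (update (C.tape i) 0 (a.2.1 i).1),
    C.query ++ a.2.2.toList⟩

theorem OracleNTM.step_none {M : OracleNTM} {A : Set (List Bool)} {C C' : M.Config}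
    (h : M.oracle C.state = none) :
    M.Step A C C' ↔ ∃ a ∈ M.trans C.state (fun i => C.tape i 0), C' = M.nxt C a := by
  constructor
  · intro hs
    cases hs with
    | act q wv b h1 h2 => exact ⟨_, h2, rfl⟩
    | yes q₁ q₂ h1 h2 => rw [h] at h1; cases h1
    | no q₁ q₂ h1 h2 => rw [h] at h1; cases h1
  · rintro ⟨⟨q, wv, b⟩, h1, rfl⟩
    exact OracleNTM.Step.act C q wv b h h1

theorem OracleNTM.step_yes {M : OracleNTM} {A : Set (List Bool)} {C C' : M.Config}
    {p q : M.State} (h : M.oracle C.state = some (p, q)) (hA : C.query ∈ A) :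
    M.Step A C C' ↔ C' = ⟨p, C.tape, []⟩ := by
  constructor
  · intro hs
    cases hs with
    | act q wv b h1 h2 => rw [h] at h1; cases h1
    | yes q₁ q₂ h1 h2 =>
      rw [h] at h1
      obtain ⟨rfl, rfl⟩ := Prod.mk.inj (Option.some.inj h1)
      rfl
    | no q₁ q₂ h1 h2 => exact absurd hA h2
  · rintro rfl
    exact OracleNTM.Step.yes C p q h hA

theorem OracleNTM.step_no {M : OracleNTM} {A : Set (List Bool)} {C C' : M.Config}
    {p q : M.State} (h : M.oracle C.state = some (p, q)) (hA : C.query ∉ A) :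
    M.Step A C C' ↔ C' = ⟨q, C.tape, []⟩ := by
  constructor
  · intro hs
    cases hs with
    | act q wv b h1 h2 => rw [h] at h1; cases h1
    | yes q₁ q₂ h1 h2 => exact absurd h2 hA
    | no q₁ q₂ h1 h2 =>
      rw [h] at h1
      obtain ⟨rfl, rfl⟩ := Prod.mk.inj (Option.some.inj h1)
      rfl
  · rintro rfl
    exact OracleNTM.Step.no C p q h hA

variable {N : OracleNTM} {R : ℕ} {D : Set (List Bool)} {w : List Bool} {c : Cmd}

/-- The configuration of the compiled machine in the program phase. -/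
noncomputable def absC (N : OracleNTM) (R : ℕ) (c : Cmd) (w : List Bool) (k : SC c) (σ : Store) :
    (mach N R c).Config :=
  ⟨some (Sum.inl (k, false)), tapesOf N R w σ, σ.qry⟩

/-- The configuration of the compiled machine in the phase of `N`. -/
def absN (R : ℕ) (c : Cmd) (X : TT N R → ℤ → Option N.Symbol) (C : N.Config) :
    (mach N R c).Config :=
  ⟨some (Sum.inr C.state), fun i => match i with
    | Sum.inr (Sum.inr j) => fun z => some (C.tape j z)
    | i => X i, C.query⟩

theorem shift_some (m : Move) (T : ℤ → N.Symbol) (a : N.Symbol) :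
    shift m (update (fun z => some (T z)) 0 (some a)) =
      fun z => some (shift m (update T 0 a) z) := by
  funext z
  cases m <;> simp only [shift, update_apply] <;> split_ifs <;> rfl

theorem absN_nxt (X : TT N R → ℤ → Option N.Symbol) (C : N.Config) (q : N.State)
    (v : N.Tape → N.Symbol × Move) (b : Option Bool) :
    (mach N R c).nxt (absN R c X C) (some (Sum.inr q),
      liftAct N R (fun i => (absN R c X C).tape i 0) v, b) = absN R c X (N.nxt C (q, v, b)) := by
  have h : ∀ i : TT N R, ((mach N R c).nxt (absN R c X C) (some (Sum.inr q),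
      liftAct N R (fun i => (absN R c X C).tape i 0) v, b)).tape i =
        (absN R c X (N.nxt C (q, v, b))).tape i := by
    intro i
    rcases i with j | (b | i)
    · exact (update_eq_self _ _)
    · exact (update_eq_self _ _)
    · exact shift_some _ _ _
  have h2 := funext h
  simp only [OracleNTM.nxt, absN, OracleNTM.Config.mk.injEq] at h2 ⊢
  exact ⟨trivial, h2, trivial⟩

theorem N_step (X : TT N R → ℤ → Option N.Symbol) (C : N.Config) (C' : (mach N R c).Config) :
    (mach N R c).Step D (absN R c X C) C' ↔ ∃ C₁, N.Step D C C₁ ∧ C' = absN R c X C₁ := by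
  rcases ho : N.oracle C.state with _ | ⟨p, q⟩
  · have ho' : (mach N R c).oracle (absN R c X C).state = none := by
      change (N.oracle C.state).map _ = none
      rw [ho]
      rfl
    rw [OracleNTM.step_none ho']
    simp only [OracleNTM.step_none ho]
    constructor
    · rintro ⟨⟨q, wv, b⟩, ⟨q', v, hv, h1, h2⟩, rfl⟩
      refine ⟨_, ⟨(q', v, b), hv, rfl⟩, ?_⟩
      rw [← absN_nxt]
      congr
    · rintro ⟨C₁, ⟨⟨q, v, b⟩, hv, rfl⟩, rfl⟩
      refine ⟨(some (Sum.inr q), liftAct N R (fun i => (absN R c X C).tape i 0) v, b),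
        ⟨q, v, hv, rfl, rfl⟩, ?_⟩
      rw [← absN_nxt]
  · have ho' : (mach N R c).oracle (absN R c X C).state =
        some (some (Sum.inr p), some (Sum.inr q)) := by
      change (N.oracle C.state).map _ = _
      rw [ho]
      rfl
    by_cases hA : C.query ∈ D
    · rw [OracleNTM.step_yes ho' hA]
      simp only [OracleNTM.step_yes ho hA]
      constructor
      · rintro rfl
        exact ⟨_, rfl, rfl⟩
      · rintro ⟨C₁, rfl, rfl⟩
        rfl
    · rw [OracleNTM.step_no ho' hA]
      simp only [OracleNTM.step_no ho hA]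
      constructor
      · rintro rfl
        exact ⟨_, rfl, rfl⟩
      · rintro ⟨C₁, rfl, rfl⟩
        rfl

theorem N_reach (X : TT N R → ℤ → Option N.Symbol) (t : ℕ) (C : N.Config)
    (C' : (mach N R c).Config) :
    (mach N R c).Reach D t (absN R c X C) C' ↔ ∃ C₁, N.Reach D t C C₁ ∧ C' = absN R c X C₁ := by
  induction t generalizing C with
  | zero =>
    constructor
    · intro h
      exact ⟨C, rfl, h.symm⟩
    · rintro ⟨C₁, h, rfl⟩
      obtain rfl : C = C₁ := h
      exact rfl
  | succ t ih =>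
    constructor
    · rintro ⟨e, hs, hr⟩
      obtain ⟨C₁, hs', rfl⟩ := (N_step X C e).1 hs
      obtain ⟨C₂, hr', rfl⟩ := (ih C₁).1 hr
      exact ⟨C₂, ⟨C₁, hs', hr'⟩, rfl⟩
    · rintro ⟨C₂, ⟨C₁, hs, hr⟩, rfl⟩
      exact ⟨absN R c X C₁, (N_step X C _).2 ⟨C₁, hs, rfl⟩, (ih C₁).2 ⟨C₂, hr, rfl⟩⟩

/-- The initial store. -/
def σ0 : Store := ⟨fun _ => 0, [], 0, 0, 0⟩

theorem outT_zero : outT N 0 = fun _ => some N.blank := by
  funext i
  simp only [outT]
  rw [if_neg]
  push_cast
  omega

theorem boot_reg : update (fun _ : ℤ => some N.blank) 0 none = regT N 0 := by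
  funext z
  by_cases hz : z = 0
  · subst hz
    simp [regT]
  · simp [regT, hz]

theorem boot_nxt (w : List Bool) :
    (mach N R c).nxt ((mach N R c).init w)
      (some (Sum.inl (⟨[c], Or.inl (self_mem_conts c [])⟩, false)),
        bootAct N R (fun i => ((mach N R c).init w).tape i 0), none) =
      absC N R c w ⟨[c], Or.inl (self_mem_conts c [])⟩ σ0 := by
  classical
  have hT : ∀ i : TT N R, i ≠ Sum.inr (Sum.inl false) →
      ((mach N R c).init w).tape i = fun _ => some N.blank := by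
    intro i hi
    simp only [OracleNTM.init]
    exact if_neg hi
  have h : ∀ i : TT N R, ((mach N R c).nxt ((mach N R c).init w)
      (some (Sum.inl (⟨[c], Or.inl (self_mem_conts c [])⟩, false)),
        bootAct N R (fun i => ((mach N R c).init w).tape i 0), none)).tape i =
      (absC N R c w ⟨[c], Or.inl (self_mem_conts c [])⟩ σ0).tape i := by
    intro i
    rcases i with j | (b | i)
    · simp only [OracleNTM.nxt, bootAct, shift_stay]
      rw [hT _ Sum.inl_ne_inr]
      exact boot_reg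
    · cases b
      · simp only [OracleNTM.nxt, bootAct, shift_stay, update_eq_self, OracleNTM.init, absC,
          tapesOf, σ0]
        rw [if_pos (by rfl)]
        funext z
        simp only [Nat.cast_zero, add_zero]
        rfl
      · simp only [OracleNTM.nxt, bootAct, shift_stay]
        rw [hT _ (by simp)]
        exact boot_reg
    · simp only [OracleNTM.nxt, bootAct, shift_stay, update_eq_self]
      rw [hT _ (by simp)]
      simp only [absC, tapesOf, σ0, outT_zero, ite_self]
  have h2 := funext h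
  simp only [OracleNTM.nxt, absC, OracleNTM.Config.mk.injEq] at h2 ⊢
  exact ⟨trivial, h2, rfl⟩

theorem boot_step (C : (mach N R c).Config) :
    (mach N R c).Step D ((mach N R c).init w) C ↔
      C = absC N R c w ⟨[c], Or.inl (self_mem_conts c [])⟩ σ0 := by
  have ho : (mach N R c).oracle ((mach N R c).init w).state = none := rfl
  rw [OracleNTM.step_none ho, ← boot_nxt]
  constructor
  · rintro ⟨a, ha, rfl⟩
    obtain rfl := Set.mem_singleton_iff.1 ha
    rfl
  · rintro rfl
    exact ⟨_, rfl, rfl⟩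

theorem pend_step (k : SC c) (σ : Store) (q : List Bool) (C : (mach N R c).Config) :
    (mach N R c).Step D ⟨some (Sum.inl (k, true)), tapesOf N R w σ, q⟩ C ↔
      C = absC N R c w k { σ.tk with qry := q } := by
  have ho : (mach N R c).oracle
    (⟨some (Sum.inl (k, true)), tapesOf N R w σ, q⟩ : (mach N R c).Config).state = none := rfl
  have key : (mach N R c).nxt ⟨some (Sum.inl (k, true)), tapesOf N R w σ, q⟩
      (some (Sum.inl (k, false)),
        wrt N R (symsOf N R w σ) (mvs N R nomv Move.stay Move.right), none) =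
      absC N R c w k { σ.tk with qry := q } := by
    have h2 := tapes_tk (N := N) (R := R) (w := w) σ q
    simp only [OracleNTM.nxt, absC, OracleNTM.Config.mk.injEq] at h2 ⊢
    exact ⟨trivial, h2, by simp⟩
  rw [OracleNTM.step_none ho, ← key]
  constructor
  · rintro ⟨a, ha, rfl⟩
    obtain rfl := Set.mem_singleton_iff.1 ha
    rfl
  · rintro rfl
    exact ⟨_, rfl, rfl⟩

theorem oracle_not_ask (k : SC c) (hk : ¬ IsAsk k.1) :
    (mach N R c).oracle (some (Sum.inl (k, false))) = none := by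
  obtain ⟨k, hk'⟩ := k
  rcases k with _ | ⟨c', k⟩
  · rfl
  · cases c' <;> first | rfl | exact absurd ⟨_, _, _, rfl⟩ hk

theorem oracle_ask (a b : Cmd) (k : List Cmd) (h : Cmd.ask a b :: k ∈ SC c)
    (ha : a :: k ∈ SC c) (hb : b :: k ∈ SC c) :
    (mach N R c).oracle (some (Sum.inl (⟨Cmd.ask a b :: k, h⟩, false))) =
      some (some (Sum.inl (⟨a :: k, ha⟩, true)), some (Sum.inl (⟨b :: k, hb⟩, true))) := by
  simp [mach, ha, hb]

theorem ask_mem {a b : Cmd} {k : List Cmd} (h : Cmd.ask a b :: k ∈ SC c) :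
    a :: k ∈ SC c ∧ b :: k ∈ SC c :=
  ⟨SC_step (D := Set.univ) (w := []) (σ := σ0) h (SS.ask_yes a b k σ0 trivial),
    SC_step (D := ∅) (w := []) (σ := σ0) h (SS.ask_no a b k σ0 (by simp))⟩

theorem absC_nxt (k k' : SC c) (σ σ' : Store) (wv : TT N R → Option N.Symbol × Move)
    (b : Option Bool) (h2 : newT N R w σ wv = tapesOf N R w σ')
    (h3 : σ.qry ++ b.toList = σ'.qry) :
    (mach N R c).nxt (absC N R c w k σ) (some (Sum.inl (k', false)), wv, b) =
      absC N R c w k' σ' := by
  simp only [OracleNTM.nxt, absC, OracleNTM.Config.mk.injEq] at h2 ⊢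
  exact ⟨trivial, h2, h3⟩

/-- One small step of the program is one or two steps of the machine. -/
theorem prog_step (hc : c.Lt R) (k k' : SC c) (σ σ' : Store) (h : SS D w k.1 σ k'.1 σ') :
    ∃ s, 1 ≤ s ∧ s ≤ 2 ∧ (mach N R c).Reach D s (absC N R c w k σ) (absC N R c w k' σ') := by
  by_cases ha : IsAsk k.1
  · obtain ⟨k, hk⟩ := k
    obtain ⟨k', hk'⟩ := k'
    obtain ⟨a, b, k₁, rfl⟩ := ha
    obtain ⟨h1, h2⟩ := ask_mem hk
    have ho := oracle_ask (N := N) (R := R) a b k₁ hk h1 h2
    refine ⟨2, by norm_num, le_rfl, ?_⟩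
    cases h with
    | ask_yes _ _ _ _ hq =>
      refine ⟨⟨some (Sum.inl (⟨a :: k₁, h1⟩, true)), tapesOf N R w σ, []⟩, ?_,
        OracleNTM.Reach.one ?_⟩
      · exact (OracleNTM.step_yes (C := absC N R c w ⟨_, hk⟩ σ) ho hq).2 rfl
      · exact (pend_step ⟨a :: k₁, h1⟩ σ [] _).2 rfl
    | ask_no _ _ _ _ hq =>
      refine ⟨⟨some (Sum.inl (⟨b :: k₁, h2⟩, true)), tapesOf N R w σ, []⟩, ?_,
        OracleNTM.Reach.one ?_⟩
      · exact (OracleNTM.step_no (C := absC N R c w ⟨_, hk⟩ σ) ho hq).2 rfl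
      · exact (pend_step ⟨b :: k₁, h2⟩ σ [] _).2 rfl
  · obtain ⟨wv, b, h1, h2, h3⟩ := act_complete (N := N) (R := R) (SC_lt k.2 hc) ha h
    refine ⟨1, le_rfl, by norm_num, OracleNTM.Reach.one ?_⟩
    refine (OracleNTM.step_none (C := absC N R c w k σ) (oracle_not_ask k ha)).2
      ⟨(some (Sum.inl (k', false)), wv, b), Or.inl ⟨k'.1, k'.2, rfl, h1⟩, ?_⟩
    exact (absC_nxt k k' σ σ' wv b h2 h3).symm

theorem prog_reach (hc : c.Lt R) (t : ℕ) (k k' : SC c) (σ σ' : Store)
    (h : SSn D w t k.1 σ k'.1 σ') :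
    ∃ s ≤ 2 * t, (mach N R c).Reach D s (absC N R c w k σ) (absC N R c w k' σ') := by
  induction t generalizing k σ with
  | zero =>
    obtain ⟨h1, rfl⟩ := h
    obtain rfl : k' = k := Subtype.ext h1
    exact ⟨0, by simp, rfl⟩
  | succ t ih =>
    obtain ⟨k₁, σ₁, hs, hr⟩ := h
    have hk₁ : k₁ ∈ SC c := SC_step k.2 hs
    obtain ⟨s₁, _, h1, h2⟩ := prog_step (N := N) hc k ⟨k₁, hk₁⟩ σ σ₁ hs
    obtain ⟨s₂, h3, h4⟩ := ih ⟨k₁, hk₁⟩ σ₁ hr
    exact ⟨s₁ + s₂, by omega, h2.trans h4⟩

theorem not_accept_inl (x : SC c × Bool) :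
    (some (Sum.inl x) : Option ((SC c × Bool) ⊕ N.State)) ≠ some (Sum.inr N.accept) := by
  simp

/-- Soundness of one step in the program phase. -/
theorem prog_sound (hc : c.Lt R) (n : ℕ) (k : SC c) (hk : k.1 ≠ []) (σ : Store)
    (C : (mach N R c).Config) (hC : C.state = (mach N R c).accept)
    (h : (mach N R c).Reach D n (absC N R c w k σ) C) :
    ∃ (k' : SC c) (σ' : Store) (n' : ℕ), n' < n ∧ SS D w k.1 σ k'.1 σ' ∧
      (mach N R c).Reach D n' (absC N R c w k' σ') C := by
  rcases n with _ | n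
  · obtain rfl : absC N R c w k σ = C := h
    exact absurd hC (not_accept_inl _)
  obtain ⟨e, hs, hr⟩ := h
  by_cases ha : IsAsk k.1
  · obtain ⟨k, hk0⟩ := k
    obtain ⟨a, b, k₁, rfl⟩ := ha
    obtain ⟨h1, h2⟩ := ask_mem hk0
    have ho := oracle_ask (N := N) (R := R) a b k₁ hk0 h1 h2
    by_cases hq : σ.qry ∈ D
    · have he := (OracleNTM.step_yes (C := absC N R c w ⟨_, hk0⟩ σ) ho hq).1 hs
      rcases n with _ | n
      · obtain rfl : e = C := hr
        rw [he] at hC
        exact absurd hC (not_accept_inl _)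
      · obtain ⟨e', hs', hr'⟩ := hr
        rw [he] at hs'
        obtain rfl := (pend_step ⟨a :: k₁, h1⟩ σ [] e').1 hs'
        exact ⟨⟨a :: k₁, h1⟩, _, n, by omega, SS.ask_yes a b k₁ σ hq, hr'⟩
    · have he := (OracleNTM.step_no (C := absC N R c w ⟨_, hk0⟩ σ) ho hq).1 hs
      rcases n with _ | n
      · obtain rfl : e = C := hr
        rw [he] at hC
        exact absurd hC (not_accept_inl _)
      · obtain ⟨e', hs', hr'⟩ := hr
        rw [he] at hs'
        obtain rfl := (pend_step ⟨b :: k₁, h2⟩ σ [] e').1 hs'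
        exact ⟨⟨b :: k₁, h2⟩, _, n, by omega, SS.ask_no a b k₁ σ hq, hr'⟩
  · have ho := oracle_not_ask (N := N) (R := R) k ha
    obtain ⟨⟨q, wv, b⟩, h', rfl⟩ :=
      (OracleNTM.step_none (C := absC N R c w k σ) ho).1 hs
    rcases h' with ⟨k', hk', hq, hmem⟩ | ⟨h0, -, -⟩
    · obtain ⟨σ₁, hs₁, ht, hq'⟩ := act_sound (D := D) (SC_lt k.2 hc) hmem
      refine ⟨⟨k', hk'⟩, σ₁, n, by omega, hs₁, ?_⟩
      rw [← absC_nxt k ⟨k', hk'⟩ σ σ₁ wv b ht hq']
      convert hr using 2
      rw [← hq]
    · exact absurd h0 hk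

/-- The step from the end of the program to the start of `N`. -/
theorem switch_nxt (k : SC c) (σ : Store) (hq : σ.qry = []) :
    (mach N R c).nxt (absC N R c w k σ) (some (Sum.inr N.start),
      switchAct N R (symsOf N R w σ), none) =
      absN R c (tapesOf N R w σ) (N.init (List.replicate σ.out true)) := by
  have h : ∀ i : TT N R, ((mach N R c).nxt (absC N R c w k σ) (some (Sum.inr N.start),
      switchAct N R (symsOf N R w σ), none)).tape i =
      (absN R c (tapesOf N R w σ) (N.init (List.replicate σ.out true))).tape i := by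
    intro i
    rcases i with j | (b | i)
    · exact (update_eq_self _ _)
    · exact (update_eq_self _ _)
    · by_cases hi : i = N.input
      · subst hi
        simp only [OracleNTM.nxt, symsOf, absC, switchAct, update_eq_self, if_true, tapesOf,
          absN, OracleNTM.init]
        exact shift_right_outT N σ.out
      · simp only [OracleNTM.nxt, symsOf, absC, switchAct, update_eq_self, if_neg hi,
          shift_stay, tapesOf, absN, OracleNTM.init]
  have h2 := funext h
  simp only [OracleNTM.nxt, absN, absC, OracleNTM.Config.mk.injEq] at h2 ⊢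
  exact ⟨rfl, h2, by simp [hq, OracleNTM.init]⟩

theorem switch_step (hnil : [] ∈ SC c) (σ : Store) (hq : σ.qry = [])
    (hp : w.length ≤ σ.pos) :
    (mach N R c).Step D (absC N R c w ⟨[], hnil⟩ σ)
      (absN R c (tapesOf N R w σ) (N.init (List.replicate σ.out true))) :=
  (OracleNTM.step_none (C := absC N R c w ⟨[], hnil⟩ σ)
    (oracle_not_ask _ (by rintro ⟨_, _, _, h⟩; cases h))).2
    ⟨(some (Sum.inr N.start), switchAct N R (symsOf N R w σ), none),
      Or.inr ⟨rfl, (wordT_blank N w σ.pos).2 hp, rfl⟩, (switch_nxt _ σ hq).symm⟩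

theorem switch_sound (hnil : [] ∈ SC c) (σ : Store) (hq : σ.qry = [])
    (C : (mach N R c).Config) (h : (mach N R c).Step D (absC N R c w ⟨[], hnil⟩ σ) C) :
    w.length ≤ σ.pos ∧
      C = absN R c (tapesOf N R w σ) (N.init (List.replicate σ.out true)) := by
  obtain ⟨a, ha, rfl⟩ := (OracleNTM.step_none (C := absC N R c w ⟨[], hnil⟩ σ)
    (oracle_not_ask _ (by rintro ⟨_, _, _, h⟩; cases h))).1 h
  rcases ha with ⟨k', hk', hq', hmem⟩ | ⟨h0, h1, rfl⟩
  · exact absurd hmem (by simp [act])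
  · exact ⟨(wordT_blank N w σ.pos).1 h1, switch_nxt ⟨[], hnil⟩ σ hq⟩

theorem nil_mem_SC : [] ∈ SC c := Or.inr rfl

theorem accept_of_big (hc : c.Lt R) {σ : Store} {t t' : ℕ} (h : Big D w c σ0 σ t)
    (hq : σ.qry = []) (hp : w.length ≤ σ.pos)
    (h' : N.AcceptsIn D (List.replicate σ.out true) t') :
    ∃ s ≤ 2 * t + t' + 2, (mach N R c).AcceptsIn D w s := by
  have h1 := SSn_of_big c [] σ0 σ t h
  obtain ⟨s, hs, h2⟩ := prog_reach (N := N) hc t ⟨[c], Or.inl (self_mem_conts c [])⟩
    ⟨[], nil_mem_SC⟩ σ0 σ h1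
  obtain ⟨C, hC, hC'⟩ := h'
  have h3 := (N_reach (R := R) (c := c) (D := D) (tapesOf N R w σ) t' _ _).2 ⟨C, hC, rfl⟩
  have h4 := switch_step (D := D) (N := N) (R := R) (c := c) nil_mem_SC σ hq hp
  have h5 := (boot_step (N := N) (R := R) (c := c) (D := D) (w := w) _).2 rfl
  refine ⟨1 + (s + (1 + t')), by omega, absN R c (tapesOf N R w σ) C, ?_, ?_⟩
  · exact (OracleNTM.Reach.one h5).trans (h2.trans ((OracleNTM.Reach.one h4).trans h3))
  · show (some (Sum.inr C.state) : Option ((SC c × Bool) ⊕ N.State)) = some (Sum.inr N.accept)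
    rw [hC']

theorem big_of_accept_aux (hc : c.Lt R) (n : ℕ) :
    ∀ (k : SC c) (σ : Store) (C : (mach N R c).Config),
      (∀ σ' t, BigL D w k.1 σ σ' t → σ'.qry = []) →
      C.state = (mach N R c).accept →
      (mach N R c).Reach D n (absC N R c w k σ) C →
      ∃ σ' t t', BigL D w k.1 σ σ' t ∧ w.length ≤ σ'.pos ∧
        N.AcceptsIn D (List.replicate σ'.out true) t' := by
  induction n using Nat.strong_induction_on with
  | _ n ih =>
    intro k σ C hB hC h
    by_cases hk : k.1 = []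
    · obtain ⟨k, hk'⟩ := k
      obtain rfl : k = [] := hk
      rcases n with _ | n
      · obtain rfl : absC N R c w ⟨[], hk'⟩ σ = C := h
        have : (some (Sum.inl (⟨[], hk'⟩, false)) : Option ((SC c × Bool) ⊕ N.State)) =
          some (Sum.inr N.accept) := hC
        simp at this
      obtain ⟨e, hs, hr⟩ := h
      have hq : σ.qry = [] := hB σ 0 ⟨rfl, rfl⟩
      obtain ⟨hp, rfl⟩ := switch_sound hk' σ hq e hs
      obtain ⟨C₁, h1, rfl⟩ := (N_reach _ n _ _).1 hr
      refine ⟨σ, 0, n, ⟨rfl, rfl⟩, hp, C₁, h1, ?_⟩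
      have : (some (Sum.inr C₁.state) : Option ((SC c × Bool) ⊕ N.State)) =
        some (Sum.inr N.accept) := hC
      exact Sum.inr.inj (Option.some.inj this)
    · obtain ⟨k', σ', n', hn', hs, hr⟩ := prog_sound hc n k hk σ C hC h
      obtain ⟨σ'', t, t', h1, h2, h3⟩ := ih n' hn' k' σ' C
        (fun σ'' t h => hB σ'' (t + 1) (big_expand hs h)) hC hr
      exact ⟨σ'', t + 1, t', big_expand hs h1, h2, h3⟩

theorem big_of_accept (hc : c.Lt R) (hqry : ∀ σ t, Big D w c σ0 σ t → σ.qry = []) {n : ℕ}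
    (h : (mach N R c).AcceptsIn D w n) :
    ∃ σ t t', Big D w c σ0 σ t ∧ w.length ≤ σ.pos ∧
      N.AcceptsIn D (List.replicate σ.out true) t' := by
  obtain ⟨C, hC, hC'⟩ := h
  rcases n with _ | n
  · obtain rfl : (mach N R c).init w = C := hC
    have : (none : Option ((SC c × Bool) ⊕ N.State)) = some (Sum.inr N.accept) := hC'
    cases this
  obtain ⟨e, hs, hr⟩ := hC
  obtain rfl := (boot_step _).1 hs
  have aux : ∀ σ' t, BigL D w [c] σ0 σ' t → Big D w c σ0 σ' t := by
    rintro σ' t ⟨τ, t₁, t₂, h₁, ⟨rfl, rfl⟩, rfl⟩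
    exact h₁
  obtain ⟨σ, t, t', h1, h2, h3⟩ := big_of_accept_aux hc n _ _ _
    (fun σ' t h => hqry σ' t (aux σ' t h)) hC' hr
  exact ⟨σ, t, t', aux _ _ h1, h2, h3⟩

/-- The main closure property: nondeterministic programs followed by a language in `NP^D`. -/
theorem inNP_of_prog (c : Cmd) {D L L' : Set (List Bool)} (hL' : InNP D L') (p p' : Polynomial ℕ)
    (hqry : ∀ w σ t, Big D w c σ0 σ t → σ.qry = [])
    (hcomp : ∀ w ∈ L, ∃ σ t, Big D w c σ0 σ t ∧ w.length ≤ σ.pos ∧
      List.replicate σ.out true ∈ L' ∧ t ≤ p.eval w.length ∧ σ.out ≤ p'.eval w.length)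
    (hsound : ∀ w σ t, Big D w c σ0 σ t → w.length ≤ σ.pos →
      List.replicate σ.out true ∈ L' → w ∈ L) : InNP D L := by
  obtain ⟨R, hR⟩ := c.exists_lt
  obtain ⟨N, r, hN1, hN2⟩ := hL'
  have mono : ∀ (r : Polynomial ℕ) (a b : ℕ), a ≤ b → r.eval a ≤ r.eval b := by
    intro r a b hab
    rw [Polynomial.eval_eq_sum, Polynomial.eval_eq_sum]
    exact Finset.sum_le_sum fun i _ => Nat.mul_le_mul_left _ (Nat.pow_le_pow_left hab i)
  refine ⟨mach N R c, 2 * p + r.comp p' + 2, ?_, ?_⟩
  · intro w hw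
    obtain ⟨σ, t, h1, h2, h3, h4, h5⟩ := hcomp w hw
    obtain ⟨t', ht', h6⟩ := hN1 _ h3
    obtain ⟨s, hs, h7⟩ := accept_of_big hR h1 (hqry w σ t h1) h2 h6
    refine ⟨s, hs.trans ?_, h7⟩
    rw [List.length_replicate] at ht'
    have := ht'.trans (mono r _ _ h5)
    simp only [Polynomial.eval_add, Polynomial.eval_mul, Polynomial.eval_ofNat,
      Polynomial.eval_comp]
    omega
  · intro w hw n h
    obtain ⟨σ, t, t', h1, h2, h3⟩ := big_of_accept hR (hqry w) h
    by_cases h4 : List.replicate σ.out true ∈ L'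
    · exact hw (hsound w σ t h1 h2 h4)
    · exact hN2 _ h4 _ h3

end Pool.Agent.Lib.MP_65a8de_lc
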