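import Pool.Agent.Lib.MP_65a8de_lc.Mach2

/-!
# Programs for primitive recursive functions with an oracle
-/

namespace Pool.Agent.Lib.MP_65a8de_lc

open Function

/-- Deterministic, total and clock-exact behaviour of a program on registers and query word. -/
def Runs (D : Set (List Bool)) (c : Cmd) (r : ℕ → ℕ) (q : List Bool) (r' : ℕ → ℕ)
    (q' : List Bool) (t : ℕ) : Prop :=
  ∀ (w : List Bool) (pos out tick : ℕ) (σ' : Store) (t' : ℕ),
    Big D w c ⟨r, q, pos, out, tick⟩ σ' t' ↔ σ' = ⟨r', q', pos, out, tick + t⟩ ∧ t' = t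

variable {D : Set (List Bool)} {r r₁ r₂ : ℕ → ℕ} {q q₁ q₂ : List Bool} {t t₁ t₂ : ℕ} {c d : Cmd}

theorem runs_skip : Runs D Cmd.skip r q r q 1 := fun _ _ _ _ _ _ => Iff.rfl

theorem runs_inc (a : ℕ) : Runs D (Cmd.inc a) r q (update r a (r a + 1)) q 1 :=
  fun _ _ _ _ _ _ => Iff.rfl

theorem runs_dec (a : ℕ) : Runs D (Cmd.dec a) r q (update r a (r a - 1)) q 1 :=
  fun _ _ _ _ _ _ => Iff.rfl

theorem runs_push (b : Bool) : Runs D (Cmd.push b) r q r (q ++ [b]) 1 :=
  fun _ _ _ _ _ _ => Iff.rfl

theorem runs_seq (h₁ : Runs D c r q r₁ q₁ t₁) (h₂ : Runs D d r₁ q₁ r₂ q₂ t₂) :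
    Runs D (Cmd.seq c d) r q r₂ q₂ (t₁ + t₂ + 1) := by
  intro w pos out tick σ' t'
  constructor
  · rintro ⟨τ, s₁, s₂, h1, h2, rfl⟩
    obtain ⟨rfl, rfl⟩ := (h₁ w pos out (tick + 1) τ s₁).1 h1
    obtain ⟨rfl, rfl⟩ := (h₂ w pos out _ σ' s₂).1 h2
    refine ⟨?_, rfl⟩
    ext <;> simp
    ring
  · rintro ⟨rfl, rfl⟩
    refine ⟨_, t₁, t₂, (h₁ w pos out (tick + 1) _ t₁).2 ⟨rfl, rfl⟩,
      (h₂ w pos out _ _ t₂).2 ⟨?_, rfl⟩, rfl⟩
    ext <;> simp
    ring

theorem runs_ite_pos {a : ℕ} (h : r a ≠ 0) (h₁ : Runs D c r q r₁ q₁ t₁) :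
    Runs D (Cmd.ite a c d) r q r₁ q₁ (t₁ + 1) := by
  intro w pos out tick σ' t'
  constructor
  · rintro ⟨s, rfl, ⟨-, h1⟩ | ⟨h0, -⟩⟩
    · obtain ⟨rfl, rfl⟩ := (h₁ w pos out (tick + 1) _ s).1 h1
      refine ⟨?_, rfl⟩
      ext <;> simp
      ring
    · exact absurd h0 h
  · rintro ⟨rfl, rfl⟩
    refine ⟨t₁, rfl, Or.inl ⟨h, (h₁ w pos out (tick + 1) _ t₁).2 ⟨?_, rfl⟩⟩⟩
    ext <;> simp
    ring

theorem runs_ite_zero {a : ℕ} (h : r a = 0) (h₁ : Runs D d r q r₁ q₁ t₁) :
    Runs D (Cmd.ite a c d) r q r₁ q₁ (t₁ + 1) := by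
  intro w pos out tick σ' t'
  constructor
  · rintro ⟨s, rfl, ⟨h0, -⟩ | ⟨-, h1⟩⟩
    · exact absurd h h0
    · obtain ⟨rfl, rfl⟩ := (h₁ w pos out (tick + 1) _ s).1 h1
      refine ⟨?_, rfl⟩
      ext <;> simp
      ring
  · rintro ⟨rfl, rfl⟩
    refine ⟨t₁, rfl, Or.inr ⟨h, (h₁ w pos out (tick + 1) _ t₁).2 ⟨?_, rfl⟩⟩⟩
    ext <;> simp
    ring

theorem runs_ask_yes (h : q ∈ D) (h₁ : Runs D c r [] r₁ q₁ t₁) :
    Runs D (Cmd.ask c d) r q r₁ q₁ (t₁ + 1) := by
  intro w pos out tick σ' t'
  constructor
  · rintro ⟨s, rfl, ⟨-, h1⟩ | ⟨h0, -⟩⟩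
    · obtain ⟨rfl, rfl⟩ := (h₁ w pos out (tick + 1) _ s).1 h1
      refine ⟨?_, rfl⟩
      ext <;> simp
      ring
    · exact absurd h h0
  · rintro ⟨rfl, rfl⟩
    refine ⟨t₁, rfl, Or.inl ⟨h, (h₁ w pos out (tick + 1) _ t₁).2 ⟨?_, rfl⟩⟩⟩
    ext <;> simp
    ring

theorem runs_ask_no (h : q ∉ D) (h₁ : Runs D d r [] r₁ q₁ t₁) :
    Runs D (Cmd.ask c d) r q r₁ q₁ (t₁ + 1) := by
  intro w pos out tick σ' t'
  constructor
  · rintro ⟨s, rfl, ⟨h0, -⟩ | ⟨-, h1⟩⟩
    · exact absurd h0 h
    · obtain ⟨rfl, rfl⟩ := (h₁ w pos out (tick + 1) _ s).1 h1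
      refine ⟨?_, rfl⟩
      ext <;> simp
      ring
  · rintro ⟨rfl, rfl⟩
    refine ⟨t₁, rfl, Or.inr ⟨h, (h₁ w pos out (tick + 1) _ t₁).2 ⟨?_, rfl⟩⟩⟩
    ext <;> simp
    ring

theorem runs_whl_zero {a : ℕ} (h : r a = 0) : Runs D (Cmd.whl a c) r q r q 1 := by
  intro w pos out tick σ' t'
  constructor
  · intro h1
    change WhileRel (Big D w c) a _ _ _ at h1
    cases h1 with
    | stop _ h0 => exact ⟨rfl, rfl⟩
    | next _ τ _ s₁ s₂ h0 => exact absurd h h0
  · rintro ⟨rfl, rfl⟩
    exact WhileRel.stop _ h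

theorem runs_whl_pos {a : ℕ} (h : r a ≠ 0) (h₁ : Runs D c r q r₁ q₁ t₁)
    (h₂ : Runs D (Cmd.whl a c) r₁ q₁ r₂ q₂ t₂) :
    Runs D (Cmd.whl a c) r q r₂ q₂ (t₁ + t₂ + 1) := by
  intro w pos out tick σ' t'
  constructor
  · intro h1
    change WhileRel (Big D w c) a _ _ _ at h1
    cases h1 with
    | stop _ h0 => exact absurd h0 h
    | next _ τ _ s₁ s₂ h0 h1 h2 =>
      obtain ⟨rfl, rfl⟩ := (h₁ w pos out (tick + 1) _ s₁).1 h1
      obtain ⟨rfl, rfl⟩ := (h₂ w pos out _ σ' s₂).1 h2
      refine ⟨?_, rfl⟩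
      ext <;> simp
      ring
  · rintro ⟨rfl, rfl⟩
    refine WhileRel.next _ _ _ t₁ t₂ h ((h₁ w pos out (tick + 1) _ t₁).2 ⟨rfl, rfl⟩)
      ((h₂ w pos out _ _ t₂).2 ⟨?_, rfl⟩)
    ext <;> simp
    ring

/-- Change the target of a run along an equality. -/
theorem Runs.cast {r₁' : ℕ → ℕ} (h : Runs D c r q r₁ q₁ t) (h' : r₁ = r₁') :
    Runs D c r q r₁' q₁ t := h' ▸ h

theorem Runs.cast' {r₁' : ℕ → ℕ} {t' : ℕ} (h : Runs D c r q r₁ q₁ t) (h' : r₁ = r₁')
    (h'' : t = t') : Runs D c r q r₁' q₁ t' := h' ▸ h'' ▸ h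

/-! ### Basic programs -/

/-- Set register `a` to `0`. -/
def clear (a : ℕ) : Cmd := Cmd.whl a (Cmd.dec a)

theorem runs_clear (a : ℕ) : ∀ (n : ℕ) (r : ℕ → ℕ), r a = n →
    Runs D (clear a) r q (update r a 0) q (2 * n + 1) := by
  intro n
  induction n with
  | zero =>
    intro r h
    exact (runs_whl_zero h).cast (by rw [← h, update_eq_self])
  | succ n ih =>
    intro r h
    have h1 := runs_dec (D := D) (q := q) (r := r) a
    have h2 := ih (update r a (r a - 1)) (by simp [h])
    exact (runs_whl_pos (by omega) h1 h2).cast' (update_idem _ _ _) (by ring)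

/-- Add register `a` to register `b` and set `a` to `0`. -/
def move (a b : ℕ) : Cmd := Cmd.whl a (Cmd.seq (Cmd.dec a) (Cmd.inc b))

theorem runs_move (a b : ℕ) (hab : a ≠ b) : ∀ (n : ℕ) (r : ℕ → ℕ), r a = n →
    Runs D (move a b) r q (update (update r b (r b + n)) a 0) q (4 * n + 1) := by
  intro n
  induction n with
  | zero =>
    intro r h
    refine (runs_whl_zero h).cast ?_
    funext j
    by_cases g1 : j = a
    · subst g1; simp [h]
    · by_cases g2 : j = b
      · subst g2; simp [g1]
      · simp [g1, g2]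
  | succ n ih =>
    intro r h
    have h1 := runs_seq (runs_dec (D := D) (q := q) (r := r) a)
      (runs_inc (D := D) (q := q) (r := update r a (r a - 1)) b)
    have h2 := ih (update (update r a (r a - 1)) b (update r a (r a - 1) b + 1)) (by
      rw [update_of_ne hab]; simp [h])
    refine (runs_whl_pos (by omega) h1 h2).cast' ?_ (by ring)
    funext j
    by_cases g1 : j = a
    · subst g1; simp
    · by_cases g2 : j = b
      · subst g2; simp [g1]; ring
      · simp [g1, g2]

/-- Add register `a` to register `b`, using the scratch register `s`. -/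
def copy (a b s : ℕ) : Cmd :=
  Cmd.seq (Cmd.whl a (Cmd.seq (Cmd.dec a) (Cmd.seq (Cmd.inc b) (Cmd.inc s)))) (move s a)

theorem runs_copy_aux (a b s : ℕ) (hab : a ≠ b) (has : a ≠ s) (hbs : b ≠ s) :
    ∀ (n : ℕ) (r : ℕ → ℕ), r a = n →
    Runs D (Cmd.whl a (Cmd.seq (Cmd.dec a) (Cmd.seq (Cmd.inc b) (Cmd.inc s)))) r q
      (update (update (update r b (r b + n)) s (r s + n)) a 0) q (6 * n + 1) := by
  intro n
  induction n with
  | zero =>
    intro r h
    refine (runs_whl_zero h).cast ?_
    funext j
    by_cases g1 : j = a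
    · subst g1; simp [h]
    · by_cases g2 : j = b
      · subst g2; simp [g1, hbs]
      · by_cases g3 : j = s
        · subst g3; simp [g1]
        · simp [g1, g2, g3]
  | succ n ih =>
    intro r h
    have h0 := runs_seq (runs_inc (D := D) (q := q) (r := update r a (r a - 1)) b)
      (runs_inc (D := D) (q := q)
        (r := update (update r a (r a - 1)) b (update r a (r a - 1) b + 1)) s)
    have h1 := runs_seq (runs_dec (D := D) (q := q) (r := r) a) h0
    have h2 := ih _ (by
      rw [update_of_ne has, update_of_ne hab, update_self, h]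
      exact Nat.add_sub_cancel n 1 :
        update (update (update r a (r a - 1)) b (update r a (r a - 1) b + 1)) s
          (update (update r a (r a - 1)) b (update r a (r a - 1) b + 1) s + 1) a = n)
    refine (runs_whl_pos (by omega) h1 h2).cast' ?_ (by ring)
    funext j
    by_cases g1 : j = a
    · subst g1; simp
    · by_cases g2 : j = b
      · subst g2; simp [g1, hbs]; ring
      · by_cases g3 : j = s
        · subst g3; simp [g1, g2]; ring
        · simp [g1, g2, g3]

theorem runs_copy (a b s : ℕ) (hab : a ≠ b) (has : a ≠ s) (hbs : b ≠ s) (r : ℕ → ℕ)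
    (hs : r s = 0) :
    Runs D (copy a b s) r q (update r b (r b + r a)) q (10 * r a + 3) := by
  have h1 := runs_copy_aux (D := D) (q := q) a b s hab has hbs (r a) r rfl
  have h2 := runs_move (D := D) (q := q) s a has.symm (r a)
    (update (update (update r b (r b + r a)) s (r s + r a)) a 0) (by
      rw [update_of_ne has.symm, update_self, hs, zero_add])
  refine (runs_seq h1 h2).cast' ?_ (by ring)
  funext j
  by_cases g1 : j = a
  · subst g1; simp [has, hab]
  · by_cases g2 : j = b
    · subst g2; simp [g1, hbs]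
    · by_cases g3 : j = s
      · subst g3; simp [g2, hs]
      · simp [g1, g2, g3]

/-! ### Words and numbers -/

/-- The bijection between numbers and words. -/
def str : ℕ → List Bool
  | 0 => []
  | n + 1 => Nat.bodd n :: str (n / 2)
decreasing_by omega

/-- The inverse of `str`. -/
def idx : List Bool → ℕ
  | [] => 0
  | b :: s => 2 * idx s + b.toNat + 1

theorem str_idx (s : List Bool) : str (idx s) = s := by
  induction s with
  | nil => rw [idx, str]
  | cons b s ih =>
    rw [idx, str]
    have h1 : (2 * idx s + b.toNat) / 2 = idx s := by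
      cases b <;> simp <;> omega
    have h2 : Nat.bodd (2 * idx s + b.toNat) = b := by
      cases b <;> simp [Nat.bodd_add, Nat.bodd_mul]
    rw [h1, h2, ih]

theorem idx_lt (s : List Bool) : idx s + 2 ≤ 2 ^ (s.length + 1) := by
  induction s with
  | nil => simp [idx]
  | cons b s ih =>
    rw [idx, List.length_cons, pow_succ]
    have : b.toNat ≤ 1 := by cases b <;> simp
    omega

/-- The oracle as a function on numbers. -/
noncomputable def orc (D : Set (List Bool)) (n : ℕ) : ℕ :=
  open Classical in if str n ∈ D then 1 else 0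

theorem runs_half (p h s : ℕ) (hph : p ≠ h) (hps : p ≠ s) (hhs : h ≠ s) :
    ∀ (n : ℕ) (r : ℕ → ℕ), r p = n → r s = 0 → ∃ t,
    Runs D (Cmd.whl p (Cmd.seq (Cmd.dec p)
      (Cmd.ite p (Cmd.seq (Cmd.dec p) (Cmd.inc h)) (Cmd.inc s)))) r q
      (update (update (update r h (r h + n / 2)) s (n % 2)) p 0) q t := by
  intro n
  induction n using Nat.strong_induction_on with
  | _ n ih =>
    intro r hr hs
    rcases n with _ | _ | n
    · refine ⟨_, (runs_whl_zero hr).cast ?_⟩
      funext j
      by_cases h1 : j = p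
      · subst h1; simp [hr]
      · by_cases h2 : j = s
        · subst h2; simp [h1, hs]
        · by_cases h3 : j = h
          · subst h3; simp [h1, h2]
          · simp [h1, h2, h3]
    · have e1 := runs_dec (D := D) (q := q) (r := r) p
      have e2 := runs_ite_zero (D := D) (a := p) (c := Cmd.seq (Cmd.dec p) (Cmd.inc h))
        (by simp [hr]) (runs_inc (D := D) (q := q) (r := update r p (r p - 1)) s)
      have e3 := runs_seq e1 e2
      have e4 := runs_whl_zero (D := D) (q := q) (a := p)
        (c := (Cmd.seq (Cmd.dec p) (Cmd.ite p (Cmd.seq (Cmd.dec p) (Cmd.inc h)) (Cmd.inc s))))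
        (r := update (update r p (r p - 1)) s (update r p (r p - 1) s + 1)) (by
          rw [update_of_ne hps]; simp [hr])
      refine ⟨_, (runs_whl_pos (by omega) e3 e4).cast ?_⟩
      funext j
      by_cases h1 : j = p
      · subst h1; simp [hps, hr]
      · by_cases h2 : j = s
        · subst h2; simp [h1, hs]
        · by_cases h3 : j = h
          · subst h3; simp [h1, h2]
          · simp [h1, h2]
    · have e1 := runs_dec (D := D) (q := q) (r := r) p
      have e2 := runs_ite_pos (D := D) (a := p) (d := Cmd.inc s)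
        (by simp [hr]) (runs_seq (runs_dec (D := D) (q := q) (r := update r p (r p - 1)) p)
          (runs_inc (D := D) (q := q) h))
      have e3 := runs_seq e1 e2
      obtain ⟨t, e4⟩ := ih n (by omega)
        (update (update (update r p (r p - 1)) p (update r p (r p - 1) p - 1)) h
          (update (update r p (r p - 1)) p (update r p (r p - 1) p - 1) h + 1)) (by
            rw [update_of_ne hph, update_self, update_self, hr]
            rfl) (by
            rw [update_of_ne hhs.symm, update_of_ne hps.symm, update_of_ne hps.symm, hs])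
      refine ⟨_, (runs_whl_pos (by omega) e3 e4).cast ?_⟩
      funext j
      by_cases h1 : j = p
      · subst h1; simp
      · by_cases h2 : j = s
        · subst h2; simp [h1]; omega
        · by_cases h3 : j = h
          · subst h3; simp [h1, h2]; omega
          · simp [h1, h2, h3]

/-- Append the word `str x` to the query word, where `x` is the value of `p`. -/
def wr (p h s : ℕ) : Cmd :=
  Cmd.whl p (Cmd.seq (Cmd.dec p) (Cmd.seq
    (Cmd.whl p (Cmd.seq (Cmd.dec p)
      (Cmd.ite p (Cmd.seq (Cmd.dec p) (Cmd.inc h)) (Cmd.inc s))))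
    (Cmd.seq (Cmd.ite s (Cmd.seq (Cmd.dec s) (Cmd.push true)) (Cmd.push false)) (move h p))))

theorem runs_wr (p h s : ℕ) (hph : p ≠ h) (hps : p ≠ s) (hhs : h ≠ s) :
    ∀ (n : ℕ) (r : ℕ → ℕ) (q : List Bool), r p = n → r s = 0 → r h = 0 → ∃ t,
    Runs D (wr p h s) r q (update r p 0) (q ++ str n) t := by
  intro n
  induction n using Nat.strong_induction_on with
  | _ n ih =>
    intro r q hr hs hh
    rcases n with _ | n
    · refine ⟨1, ?_⟩
      rw [str, List.append_nil]
      exact (runs_whl_zero hr).cast (by rw [← hr, update_eq_self])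
    · have e1 := runs_dec (D := D) (q := q) (r := r) p
      obtain ⟨t2, e2⟩ := runs_half (D := D) (q := q) p h s hph hps hhs n
        (update r p (r p - 1)) (by simp [hr]) (by rw [update_of_ne hps.symm, hs])
      set r2 := (update (update (update (update r p (r p - 1)) h
        (update r p (r p - 1) h + n / 2)) s (n % 2)) p 0) with hr2
      have r2s : r2 s = n % 2 := by simp [hr2, hps.symm]
      have r2h : r2 h = n / 2 := by simp [hr2, hph.symm, hhs, hh]
      have r2p : r2 p = 0 := by simp [hr2]
      have e3 : ∃ t, Runs D (Cmd.ite s (Cmd.seq (Cmd.dec s) (Cmd.push true))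
          (Cmd.push false)) r2 q (update r2 s 0) (q ++ [Nat.bodd n]) t := by
        rcases hb : Nat.bodd n with _ | _
        · have : n % 2 = 0 := by rw [Nat.mod_two_of_bodd, hb]; rfl
          rw [this] at r2s
          refine ⟨_, (runs_ite_zero r2s (runs_push false)).cast ?_⟩
          rw [← r2s, update_eq_self]
        · have : n % 2 = 1 := by rw [Nat.mod_two_of_bodd, hb]; rfl
          rw [this] at r2s
          refine ⟨_, (runs_ite_pos (by omega) (runs_seq (runs_dec s) (runs_push true))).cast ?_⟩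
          rw [r2s]
      obtain ⟨t3, e3⟩ := e3
      have e4 := runs_move (D := D) (q := q ++ [Nat.bodd n]) h p hph.symm (n / 2)
        (update r2 s 0) (by rw [update_of_ne hhs, r2h])
      obtain ⟨t5, e5⟩ := ih (n / 2) (by omega)
        (update (update (update r2 s 0) p (update r2 s 0 p + n / 2)) h 0) (q ++ [Nat.bodd n])
        (by rw [update_of_ne hph, update_self, update_of_ne hps, r2p, zero_add])
        (by simp [hhs.symm, hps.symm])
        (by simp)
      have e6 := runs_whl_pos (D := D) (a := p) (by omega)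
        (runs_seq e1 (runs_seq e2 (runs_seq e3 e4))) e5
      have hq : q ++ [Nat.bodd n] ++ str (n / 2) = q ++ str (n + 1) := by
        rw [str, List.append_assoc]
        rfl
      rw [hq] at e6
      refine ⟨_, e6.cast ?_⟩
      funext j
      by_cases h1 : j = p
      · subst h1; simp
      · by_cases h2 : j = s
        · subst h2; simp [h1, hhs.symm, hs]
        · by_cases h3 : j = h
          · subst h3; simp [h1, hh]
          · simp [hr2, h1, h2, h3]

/-! ### Primitive recursive functions with an oracle -/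

/-- Primitive recursive functions relative to `O`. -/
inductive PRO (O : ℕ → ℕ) : ∀ {n : ℕ}, (List.Vector ℕ n → ℕ) → Prop
  | zero : PRO O (n := 0) (fun _ => 0)
  | succ : PRO O (n := 1) (fun v => Nat.succ v.head)
  | oracle : PRO O (n := 1) (fun v => O v.head)
  | get {n : ℕ} (i : Fin n) : PRO O (fun v => v.get i)
  | comp {m n : ℕ} {f : List.Vector ℕ n → ℕ} (g : Fin n → List.Vector ℕ m → ℕ) :
      PRO O f → (∀ i, PRO O (g i)) → PRO O fun a => f (List.Vector.ofFn fun i => g i a)
  | prec {n : ℕ} {f : List.Vector ℕ n → ℕ} {g : List.Vector ℕ (n + 2) → ℕ} :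
      PRO O f → PRO O g → PRO O fun v : List.Vector ℕ (n + 1) =>
        v.head.rec (f v.tail) fun y IH => g (y ::ᵥ IH ::ᵥ v.tail)

theorem PRO.of_primrec' {O : ℕ → ℕ} {n : ℕ} {f : List.Vector ℕ n → ℕ} (h : Nat.Primrec' f) :
    PRO O f := by
  induction h with
  | zero => exact PRO.zero
  | succ => exact PRO.succ
  | get i => exact PRO.get i
  | comp g _ _ ihf ihg => exact PRO.comp g ihf ihg
  | prec _ _ ihf ihg => exact PRO.prec ihf ihg

/-- `f` is computed by programs. -/
def Cpt (D : Set (List Bool)) {n : ℕ} (f : List.Vector ℕ n → ℕ) : Prop :=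
  ∀ (ins : Fin n → ℕ) (b : ℕ), (∀ i, ins i < b) → ∃ c : Cmd, ∀ r : ℕ → ℕ, (∀ j ≥ b, r j = 0) →
    ∃ t, Runs D c r [] (update r b (f (List.Vector.ofFn fun i => r (ins i)))) [] t

theorem cpt_zero : Cpt D (n := 0) (fun _ => 0) := by
  intro ins b _
  refine ⟨Cmd.skip, fun r hr => ⟨1, runs_skip.cast ?_⟩⟩
  have := hr b le_rfl
  show r = update r b 0
  conv_rhs => rw [← this, update_eq_self]

theorem cpt_get {n : ℕ} (i : Fin n) : Cpt D (fun v : List.Vector ℕ n => v.get i) := by
  intro ins b hb
  refine ⟨copy (ins i) b (b + 1), fun r hr => ⟨_, (runs_copy _ _ _ (hb i).ne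
    ((hb i).trans (Nat.lt_succ_self b)).ne (Nat.lt_succ_self b).ne r
    (hr _ (Nat.le_succ b))).cast ?_⟩⟩
  rw [hr b le_rfl, zero_add]
  show _ = update r b ((List.Vector.ofFn fun i => r (ins i)).get i)
  rw [List.Vector.get_ofFn]

theorem cpt_succ : Cpt D (n := 1) (fun v => Nat.succ v.head) := by
  intro ins b hb
  refine ⟨Cmd.seq (copy (ins 0) b (b + 1)) (Cmd.inc b), fun r hr => ⟨_, (runs_seq
    (runs_copy _ _ _ (hb 0).ne
    ((hb 0).trans (Nat.lt_succ_self b)).ne (Nat.lt_succ_self b).ne r
    (hr _ (Nat.le_succ b))) (runs_inc b)).cast ?_⟩⟩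
  rw [update_self, update_idem, hr b le_rfl, zero_add]
  rfl

theorem cpt_oracle : Cpt D (n := 1) (fun v => orc D v.head) := by
  intro ins b hb
  refine ⟨Cmd.seq (copy (ins 0) (b + 1) (b + 2)) (Cmd.seq (wr (b + 1) (b + 2) (b + 3))
    (Cmd.ask (Cmd.inc b) Cmd.skip)), fun r hr => ?_⟩
  have h0 := hb 0
  have e1 := runs_copy (D := D) (q := []) (ins 0) (b + 1) (b + 2) (by omega) (by omega)
    (by omega) r (hr _ (by omega))
  obtain ⟨t, e2⟩ := runs_wr (D := D) (b + 1) (b + 2) (b + 3) (by omega) (by omega) (by omega)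
    (r (ins 0)) (update r (b + 1) (r (b + 1) + r (ins 0))) [] (by
      rw [update_self, hr (b + 1) (by omega), zero_add]) (by
      rw [update_of_ne (by omega), hr _ (by omega)]) (by
      rw [update_of_ne (by omega), hr _ (by omega)])
  rw [List.nil_append] at e2
  have hr' : update (update r (b + 1) (r (b + 1) + r (ins 0))) (b + 1) 0 = r := by
    rw [update_idem]
    have := hr (b + 1) (by omega)
    rw [← this, update_eq_self]
  rw [hr'] at e2
  have hv : (List.Vector.ofFn fun i => r (ins i)).head = r (ins 0) := rfl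
  have e3 : ∃ t, Runs D (Cmd.ask (Cmd.inc b) Cmd.skip) r (str (r (ins 0)))
      (update r b (orc D (r (ins 0)))) [] t := by
    by_cases h : str (r (ins 0)) ∈ D
    · refine ⟨_, (runs_ask_yes h (runs_inc b)).cast ?_⟩
      rw [hr b le_rfl, orc, if_pos h]
    · refine ⟨_, (runs_ask_no h runs_skip).cast ?_⟩
      rw [orc, if_neg h, ← hr b le_rfl, update_eq_self]
  obtain ⟨t', e3⟩ := e3
  exact ⟨_, (runs_seq e1 (runs_seq e2 e3)).cast (by dsimp only; rw [hv])⟩

theorem cpt_comp {m n : ℕ} {f : List.Vector ℕ n → ℕ} (g : Fin n → List.Vector ℕ m → ℕ)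
    (hf : Cpt D f) (hg : ∀ i, Cpt D (g i)) :
    Cpt D (fun a => f (List.Vector.ofFn fun i => g i a)) := by
  intro ins b hb
  -- compute the values of `g`
  have key : ∀ k ≤ n, ∃ c : Cmd, ∀ r : ℕ → ℕ, (∀ j ≥ b, r j = 0) → ∃ t,
      Runs D c r [] (fun j => if h : b + 1 ≤ j ∧ j < b + 1 + k ∧ j < b + 1 + n then
        g ⟨j - (b + 1), by omega⟩ (List.Vector.ofFn fun i => r (ins i)) else r j) [] t := by
    intro k
    induction k with
    | zero =>
      intro _
      refine ⟨Cmd.skip, fun r hr => ⟨1, runs_skip.cast ?_⟩⟩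
      funext j
      rw [dif_neg (by omega)]
    | succ k ih =>
      intro hk
      obtain ⟨c, hc⟩ := ih (by omega)
      obtain ⟨d, hd⟩ := hg ⟨k, by omega⟩ ins (b + 1 + k) (fun i => by have := hb i; omega)
      refine ⟨Cmd.seq c d, fun r hr => ?_⟩
      obtain ⟨t1, h1⟩ := hc r hr
      set r1 : ℕ → ℕ := fun j => if h : b + 1 ≤ j ∧ j < b + 1 + k ∧ j < b + 1 + n then
        g ⟨j - (b + 1), by omega⟩ (List.Vector.ofFn fun i => r (ins i)) else r j with hr1
      have r1i : ∀ i, r1 (ins i) = r (ins i) := by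
        intro i
        have := hb i
        simp only [hr1]
        rw [dif_neg (by omega)]
      obtain ⟨t2, h2⟩ := hd r1 (by
        intro j hj
        simp only [hr1]
        rw [dif_neg (by omega)]
        exact hr j (by omega))
      refine ⟨_, (runs_seq h1 h2).cast ?_⟩
      simp only [r1i]
      funext j
      by_cases hj : j = b + 1 + k
      · subst hj
        rw [update_self, dif_pos (by omega)]
        congr 1
        congr 1
        simp
      · rw [update_of_ne hj]
        simp only [hr1]
        by_cases hj' : b + 1 ≤ j ∧ j < b + 1 + k ∧ j < b + 1 + n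
        · rw [dif_pos hj', dif_pos (by omega)]
        · rw [dif_neg hj', dif_neg (by omega)]
  -- clear registers
  have clr : ∀ k : ℕ, ∃ c : Cmd, ∀ r : ℕ → ℕ, ∃ t,
      Runs D c r [] (fun j => if b + 1 ≤ j ∧ j < b + 1 + k then 0 else r j) [] t := by
    intro k
    induction k with
    | zero =>
      refine ⟨Cmd.skip, fun r => ⟨1, runs_skip.cast ?_⟩⟩
      funext j
      rw [if_neg (by omega)]
    | succ k ih =>
      obtain ⟨c, hc⟩ := ih
      refine ⟨Cmd.seq c (clear (b + 1 + k)), fun r => ?_⟩
      obtain ⟨t1, h1⟩ := hc r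
      refine ⟨_, (runs_seq h1 (runs_clear (b + 1 + k) _ _ rfl)).cast ?_⟩
      funext j
      by_cases hj : j = b + 1 + k
      · subst hj
        rw [update_self, if_pos (by omega)]
      · rw [update_of_ne hj]
        by_cases hj' : b + 1 ≤ j ∧ j < b + 1 + k
        · rw [if_pos hj', if_pos (by omega)]
        · rw [if_neg hj', if_neg (by omega)]
  obtain ⟨c1, h1⟩ := key n le_rfl
  obtain ⟨c2, h2⟩ := hf (fun i => b + 1 + i) (b + 1 + n) (fun i => by
    have := i.2; omega)
  obtain ⟨c4, h4⟩ := clr n
  refine ⟨Cmd.seq c1 (Cmd.seq c2 (Cmd.seq (move (b + 1 + n) b) c4)), fun r hr => ?_⟩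
  obtain ⟨t1, e1⟩ := h1 r hr
  set r1 : ℕ → ℕ := fun j => if h : b + 1 ≤ j ∧ j < b + 1 + n ∧ j < b + 1 + n then
        g ⟨j - (b + 1), by omega⟩ (List.Vector.ofFn fun i => r (ins i)) else r j with hr1
  obtain ⟨t2, e2⟩ := h2 r1 (by
    intro j hj
    simp only [hr1]
    rw [dif_neg (by omega)]
    exact hr j (by omega))
  have hval : (List.Vector.ofFn fun i : Fin n => r1 (b + 1 + i)) =
      List.Vector.ofFn fun i => g i (List.Vector.ofFn fun i => r (ins i)) := by
    congr 1
    funext i
    simp only [hr1]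
    have := i.2
    rw [dif_pos (by omega)]
    congr 1
    ext
    simp
  rw [hval] at e2
  set V := f (List.Vector.ofFn fun i => g i (List.Vector.ofFn fun i => r (ins i))) with hV
  have e3 := runs_move (D := D) (q := []) (b + 1 + n) b (by omega) V
    (update r1 (b + 1 + n) V) (by rw [update_self])
  obtain ⟨t4, e4⟩ := h4 (update (update (update r1 (b + 1 + n) V) b
    (update r1 (b + 1 + n) V b + V)) (b + 1 + n) 0)
  refine ⟨_, (runs_seq e1 (runs_seq e2 (runs_seq e3 e4))).cast ?_⟩
  funext j
  by_cases hj : b + 1 ≤ j ∧ j < b + 1 + n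
  · rw [if_pos hj, update_of_ne (by omega), hr j (by omega)]
  · rw [if_neg hj]
    by_cases hj2 : j = b + 1 + n
    · subst hj2
      rw [update_self, update_of_ne (by omega), hr _ (by omega)]
    · rw [update_of_ne hj2]
      by_cases hj3 : j = b
      · subst hj3
        rw [update_self, update_self, update_of_ne (by omega)]
        simp only [hr1]
        rw [dif_neg (by omega), hr j le_rfl, zero_add]
      · rw [update_of_ne hj3, update_of_ne hj3, update_of_ne hj2]
        simp only [hr1]
        rw [dif_neg (by omega)]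

theorem cpt_prec {n : ℕ} {f : List.Vector ℕ n → ℕ} {g : List.Vector ℕ (n + 2) → ℕ}
    (hf : Cpt D f) (hg : Cpt D g) : Cpt D (fun v : List.Vector ℕ (n + 1) =>
        v.head.rec (f v.tail) fun y IH => g (y ::ᵥ IH ::ᵥ v.tail)) := by
  intro ins b hb
  obtain ⟨cf, hcf⟩ := hf (fun i => ins i.succ) b (fun i => hb _)
  obtain ⟨cg, hcg⟩ := hg (Fin.cons (b + 1) (Fin.cons b fun i => ins i.succ)) (b + 3) (by
    intro i
    refine Fin.cases ?_ (fun i => Fin.cases ?_ (fun i => ?_) i) i
    · simp
    · simp
    · simp only [Fin.cons_succ]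
      have := hb i.succ
      omega)
  -- the loop
  have loop : ∀ (k y V : ℕ) (r : ℕ → ℕ), (∀ j ≥ b, r j = 0) → ∃ t,
      Runs D (Cmd.whl (b + 2) (Cmd.seq (Cmd.dec (b + 2)) (Cmd.seq cg (Cmd.seq (clear b)
        (Cmd.seq (move (b + 3) b) (Cmd.inc (b + 1)))))))
        (update (update (update r b V) (b + 1) y) (b + 2) k) []
        (update (update r b (Nat.rec V (fun i IH => g ((y + i) ::ᵥ IH ::ᵥ
          List.Vector.ofFn fun i => r (ins i.succ))) k)) (b + 1) (y + k)) [] t := by
    intro k
    induction k with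
    | zero =>
      intro y V r hr
      refine ⟨1, (runs_whl_zero (by rw [update_self])).cast ?_⟩
      funext j
      by_cases h1 : j = b + 2
      · subst h1
        rw [update_self, update_of_ne (by omega), update_of_ne (by omega), hr _ (by omega)]
      · rw [update_of_ne h1]
        rfl
    | succ k ih =>
      intro y V r hr
      set r0 := (update (update (update r b V) (b + 1) y) (b + 2) (k + 1)) with hr0
      have e1 := runs_dec (D := D) (q := []) (r := r0) (b + 2)
      have e1' : update r0 (b + 2) (r0 (b + 2) - 1) =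
          update (update (update r b V) (b + 1) y) (b + 2) k := by
        rw [hr0, update_self, update_idem]
        rfl
      rw [e1'] at e1
      set r1 := (update (update (update r b V) (b + 1) y) (b + 2) k) with hr1
      obtain ⟨t2, e2⟩ := hcg r1 (by
        intro j hj
        rw [hr1, update_of_ne (by omega), update_of_ne (by omega), update_of_ne (by omega),
          hr j (by omega)])
      have hv : (List.Vector.ofFn fun i => r1 ((Fin.cons (b + 1) (Fin.cons b fun i =>
          ins i.succ) : Fin (n + 2) → ℕ) i)) = y ::ᵥ V ::ᵥ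
            List.Vector.ofFn fun i => r (ins i.succ) := by
        have hval : ∀ i : Fin (n + 2), (r1 ((Fin.cons (b + 1) (Fin.cons b fun i =>
            ins i.succ) : Fin (n + 2) → ℕ) i)) = (y ::ᵥ V ::ᵥ
            List.Vector.ofFn fun i => r (ins i.succ)).get i := by
          intro i
          refine Fin.cases ?_ (fun i => Fin.cases ?_ (fun i => ?_) i) i
          · simp only [Fin.cons_zero, List.Vector.get_zero, List.Vector.head_cons]
            rw [hr1, update_of_ne (by omega), update_self]
          · simp only [Fin.cons_succ, Fin.cons_zero]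
            rw [hr1, update_of_ne (by omega), update_of_ne (by omega), update_self]
            rfl
          · simp only [Fin.cons_succ]
            have := hb i.succ
            rw [hr1, update_of_ne (by omega), update_of_ne (by omega), update_of_ne (by omega)]
            rw [List.Vector.get_cons_succ, List.Vector.get_cons_succ, List.Vector.get_ofFn]
        simp only [hval, List.Vector.ofFn_get]
      rw [hv] at e2
      set V' := g (y ::ᵥ V ::ᵥ List.Vector.ofFn fun i => r (ins i.succ)) with hV'
      have e3 := runs_clear (D := D) (q := []) b V (update r1 (b + 3) V') (by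
        rw [hr1, update_of_ne (by omega), update_of_ne (by omega), update_of_ne (by omega),
          update_self])
      have e4 := runs_move (D := D) (q := []) (b + 3) b (by omega) V'
        (update (update r1 (b + 3) V') b 0) (by
          rw [update_of_ne (by omega), update_self])
      have e5 := runs_inc (D := D) (q := [])
        (r := update (update (update (update r1 (b + 3) V') b 0) b
          (update (update r1 (b + 3) V') b 0 b + V')) (b + 3) 0) (b + 1)
      have e6 : update (update (update (update (update r1 (b + 3) V') b 0) b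
          (update (update r1 (b + 3) V') b 0 b + V')) (b + 3) 0) (b + 1)
          ((update (update (update (update r1 (b + 3) V') b 0) b
          (update (update r1 (b + 3) V') b 0 b + V')) (b + 3) 0) (b + 1) + 1) =
          update (update (update r b V') (b + 1) (y + 1)) (b + 2) k := by
        funext j
        by_cases h1 : j = b + 1
        · subst h1
          simp [hr1]
        · by_cases h2 : j = b + 3
          · subst h2
            simp [hr (b + 3) (by omega)]
          · by_cases h3 : j = b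
            · subst h3
              simp
            · by_cases h4 : j = b + 2
              · subst h4
                simp [hr1]
              · simp [hr1, h1, h2, h3, h4]
      rw [e6] at e5
      obtain ⟨t7, e7⟩ := ih (y + 1) V' r hr
      have e8 := runs_whl_pos (D := D) (a := b + 2) (by rw [hr0, update_self]; omega)
        (runs_seq e1 (runs_seq e2 (runs_seq e3 (runs_seq e4 e5)))) e7
      refine ⟨_, e8.cast ?_⟩
      have hrec : ∀ m : ℕ, (Nat.rec V' (fun i IH => g ((y + 1 + i) ::ᵥ IH ::ᵥ
          List.Vector.ofFn fun i => r (ins i.succ))) m : ℕ) =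
          Nat.rec V (fun i IH => g ((y + i) ::ᵥ IH ::ᵥ
          List.Vector.ofFn fun i => r (ins i.succ))) (m + 1) := by
        intro m
        induction m with
        | zero => rfl
        | succ m ihm =>
          show g ((y + 1 + m) ::ᵥ _ ::ᵥ _) = g ((y + (m + 1)) ::ᵥ _ ::ᵥ _)
          rw [ihm, show y + 1 + m = y + (m + 1) by ring]
      rw [hrec, show y + 1 + k = y + (k + 1) by ring]
  refine ⟨Cmd.seq cf (Cmd.seq (copy (ins 0) (b + 2) (b + 3)) (Cmd.seq
    (Cmd.whl (b + 2) (Cmd.seq (Cmd.dec (b + 2)) (Cmd.seq cg (Cmd.seq (clear b)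
        (Cmd.seq (move (b + 3) b) (Cmd.inc (b + 1))))))) (clear (b + 1)))), fun r hr => ?_⟩
  have h0 := hb 0
  obtain ⟨t1, e1⟩ := hcf r hr
  set V := f (List.Vector.ofFn fun i => r (ins i.succ)) with hV
  have e2 := runs_copy (D := D) (q := []) (ins 0) (b + 2) (b + 3) (by omega) (by omega)
    (by omega) (update r b V) (by rw [update_of_ne (by omega), hr _ (by omega)])
  have e2' : update (update r b V) (b + 2) (update r b V (b + 2) + update r b V (ins 0)) =
      update (update (update r b V) (b + 1) 0) (b + 2) (r (ins 0)) := by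
    rw [update_of_ne (by omega), update_of_ne (by omega), hr (b + 2) (by omega), zero_add]
    congr 1
    have := hr (b + 1) (by omega)
    have h' : (update r b V) (b + 1) = 0 := by rw [update_of_ne (by omega), this]
    rw [← h', update_eq_self]
  rw [e2'] at e2
  obtain ⟨t3, e3⟩ := loop (r (ins 0)) 0 V r hr
  have e4 := runs_clear (D := D) (q := []) (b + 1) (0 + r (ins 0)) _ (by
    rw [update_self] : (update (update r b (Nat.rec V (fun i IH => g ((0 + i) ::ᵥ IH ::ᵥ
          List.Vector.ofFn fun i => r (ins i.succ))) (r (ins 0)))) (b + 1)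
            (0 + r (ins 0))) (b + 1) = 0 + r (ins 0))
  refine ⟨_, (runs_seq e1 (runs_seq e2 (runs_seq e3 e4))).cast ?_⟩
  rw [update_idem]
  have hh : (List.Vector.ofFn fun i => r (ins i)).head = r (ins 0) := rfl
  have ht : (List.Vector.ofFn fun i => r (ins i)).tail =
      List.Vector.ofFn fun i => r (ins i.succ) := by
    simp [List.Vector.ofFn]
  dsimp only
  rw [hh, ht]
  simp only [zero_add]
  funext j
  by_cases h1 : j = b + 1
  · subst h1
    rw [update_self, update_of_ne (by omega), hr _ (by omega)]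
  · rw [update_of_ne h1]

theorem cpt_of_pro {n : ℕ} {f : List.Vector ℕ n → ℕ} (h : PRO (orc D) f) : Cpt D f := by
  induction h with
  | zero => exact cpt_zero
  | succ => exact cpt_succ
  | oracle => exact cpt_oracle
  | get i => exact cpt_get i
  | comp g _ _ ihf ihg => exact cpt_comp g ihf ihg
  | prec _ _ ihf ihg => exact cpt_prec ihf ihg

end Pool.Agent.Lib.MP_65a8de_lc
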