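import Pool.Agent.Lib.MP_65a8de_lc.Defs

/-!
# A small language of nondeterministic counter programs with an oracle

The programs act on a store with unary registers, a query word, a position in the input word,
an output counter and a clock (`tick`).
-/

namespace Pool.Agent.Lib.MP_65a8de_lc

open Function

/-- Programs. -/
inductive Cmd
  | skip
  | inc (r : ℕ)
  | dec (r : ℕ)
  | push (b : Bool)
  | seq (c d : Cmd)
  | ite (r : ℕ) (c d : Cmd)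
  | whl (r : ℕ) (c : Cmd)
  | ask (c d : Cmd)
  | choose (c d : Cmd)
  | star (c : Cmd)
  | consume
  | emit
  | clr
  | rd (r : ℕ)

/-- Stores. -/
@[ext] structure Store where
  reg : ℕ → ℕ
  qry : List Bool
  pos : ℕ
  out : ℕ
  tick : ℕ

/-- The clock advances. -/
def Store.tk (σ : Store) : Store := { σ with tick := σ.tick + 1 }

section

variable (D : Set (List Bool)) (w : List Bool)

/-- Small steps on continuations. -/
inductive SS : List Cmd → Store → List Cmd → Store → Prop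
  | skip (k : List Cmd) (σ : Store) : SS (Cmd.skip :: k) σ k σ.tk
  | inc (r : ℕ) (k : List Cmd) (σ : Store) :
      SS (Cmd.inc r :: k) σ k { σ.tk with reg := update σ.reg r (σ.reg r + 1) }
  | dec (r : ℕ) (k : List Cmd) (σ : Store) :
      SS (Cmd.dec r :: k) σ k { σ.tk with reg := update σ.reg r (σ.reg r - 1) }
  | push (b : Bool) (k : List Cmd) (σ : Store) :
      SS (Cmd.push b :: k) σ k { σ.tk with qry := σ.qry ++ [b] }
  | seq (c d : Cmd) (k : List Cmd) (σ : Store) : SS (Cmd.seq c d :: k) σ (c :: d :: k) σ.tk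
  | ite_pos (r : ℕ) (c d : Cmd) (k : List Cmd) (σ : Store) (h : σ.reg r ≠ 0) :
      SS (Cmd.ite r c d :: k) σ (c :: k) σ.tk
  | ite_zero (r : ℕ) (c d : Cmd) (k : List Cmd) (σ : Store) (h : σ.reg r = 0) :
      SS (Cmd.ite r c d :: k) σ (d :: k) σ.tk
  | whl_pos (r : ℕ) (c : Cmd) (k : List Cmd) (σ : Store) (h : σ.reg r ≠ 0) :
      SS (Cmd.whl r c :: k) σ (c :: Cmd.whl r c :: k) σ.tk
  | whl_zero (r : ℕ) (c : Cmd) (k : List Cmd) (σ : Store) (h : σ.reg r = 0) :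
      SS (Cmd.whl r c :: k) σ k σ.tk
  | ask_yes (c d : Cmd) (k : List Cmd) (σ : Store) (h : σ.qry ∈ D) :
      SS (Cmd.ask c d :: k) σ (c :: k) { σ.tk with qry := [] }
  | ask_no (c d : Cmd) (k : List Cmd) (σ : Store) (h : σ.qry ∉ D) :
      SS (Cmd.ask c d :: k) σ (d :: k) { σ.tk with qry := [] }
  | choose_left (c d : Cmd) (k : List Cmd) (σ : Store) :
      SS (Cmd.choose c d :: k) σ (c :: k) σ.tk
  | choose_right (c d : Cmd) (k : List Cmd) (σ : Store) :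
      SS (Cmd.choose c d :: k) σ (d :: k) σ.tk
  | star_stop (c : Cmd) (k : List Cmd) (σ : Store) : SS (Cmd.star c :: k) σ k σ.tk
  | star_go (c : Cmd) (k : List Cmd) (σ : Store) :
      SS (Cmd.star c :: k) σ (c :: Cmd.star c :: k) σ.tk
  | consume (k : List Cmd) (σ : Store) (h : w[σ.pos]? = some true) :
      SS (Cmd.consume :: k) σ k { σ.tk with pos := σ.pos + 1 }
  | emit (k : List Cmd) (σ : Store) : SS (Cmd.emit :: k) σ k { σ.tk with out := σ.out + 1 }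
  | clr_pos (k : List Cmd) (σ : Store) (h : σ.tick ≠ 0) :
      SS (Cmd.clr :: k) σ (Cmd.clr :: k) { σ with tick := σ.tick - 1 }
  | clr_zero (k : List Cmd) (σ : Store) (h : σ.tick = 0) : SS (Cmd.clr :: k) σ k σ
  | rd_pos (r : ℕ) (k : List Cmd) (σ : Store) (h : σ.tick ≠ 0) :
      SS (Cmd.rd r :: k) σ (Cmd.rd r :: k)
        { σ with tick := σ.tick - 1, reg := update σ.reg r (σ.reg r + 1) }
  | rd_zero (r : ℕ) (k : List Cmd) (σ : Store) (h : σ.tick = 0) : SS (Cmd.rd r :: k) σ k σ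

/-- Iteration while register `r` is nonzero. -/
inductive WhileRel (B : Store → Store → ℕ → Prop) (r : ℕ) : Store → Store → ℕ → Prop
  | stop (σ : Store) (h : σ.reg r = 0) : WhileRel B r σ σ.tk 1
  | next (σ τ σ' : Store) (t₁ t₂ : ℕ) (h : σ.reg r ≠ 0) (h₁ : B σ.tk τ t₁)
      (h₂ : WhileRel B r τ σ' t₂) : WhileRel B r σ σ' (t₁ + t₂ + 1)

/-- Nondeterministic iteration. -/
inductive StarRel (B : Store → Store → ℕ → Prop) : Store → Store → ℕ → Prop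
  | stop (σ : Store) : StarRel B σ σ.tk 1
  | next (σ τ σ' : Store) (t₁ t₂ : ℕ) (h₁ : B σ.tk τ t₁)
      (h₂ : StarRel B τ σ' t₂) : StarRel B σ σ' (t₁ + t₂ + 1)

/-- Big-step semantics with exact cost. -/
def Big : Cmd → Store → Store → ℕ → Prop
  | Cmd.skip, σ, σ', t => σ' = σ.tk ∧ t = 1
  | Cmd.inc r, σ, σ', t => σ' = { σ.tk with reg := update σ.reg r (σ.reg r + 1) } ∧ t = 1
  | Cmd.dec r, σ, σ', t => σ' = { σ.tk with reg := update σ.reg r (σ.reg r - 1) } ∧ t = 1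
  | Cmd.push b, σ, σ', t => σ' = { σ.tk with qry := σ.qry ++ [b] } ∧ t = 1
  | Cmd.seq c d, σ, σ', t => ∃ τ t₁ t₂, Big c σ.tk τ t₁ ∧ Big d τ σ' t₂ ∧ t = t₁ + t₂ + 1
  | Cmd.ite r c d, σ, σ', t =>
      ∃ t₁, t = t₁ + 1 ∧ ((σ.reg r ≠ 0 ∧ Big c σ.tk σ' t₁) ∨ (σ.reg r = 0 ∧ Big d σ.tk σ' t₁))
  | Cmd.whl r c, σ, σ', t => WhileRel (Big c) r σ σ' t
  | Cmd.ask c d, σ, σ', t =>
      ∃ t₁, t = t₁ + 1 ∧ ((σ.qry ∈ D ∧ Big c { σ.tk with qry := [] } σ' t₁) ∨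
        (σ.qry ∉ D ∧ Big d { σ.tk with qry := [] } σ' t₁))
  | Cmd.choose c d, σ, σ', t => ∃ t₁, t = t₁ + 1 ∧ (Big c σ.tk σ' t₁ ∨ Big d σ.tk σ' t₁)
  | Cmd.star c, σ, σ', t => StarRel (Big c) σ σ' t
  | Cmd.consume, σ, σ', t =>
      w[σ.pos]? = some true ∧ σ' = { σ.tk with pos := σ.pos + 1 } ∧ t = 1
  | Cmd.emit, σ, σ', t => σ' = { σ.tk with out := σ.out + 1 } ∧ t = 1
  | Cmd.clr, σ, σ', t => σ' = { σ with tick := 0 } ∧ t = σ.tick + 1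
  | Cmd.rd r, σ, σ', t =>
      σ' = { σ with tick := 0, reg := update σ.reg r (σ.reg r + σ.tick) } ∧ t = σ.tick + 1

/-- Big-step semantics of continuations. -/
def BigL : List Cmd → Store → Store → ℕ → Prop
  | [], σ, σ', t => σ' = σ ∧ t = 0
  | c :: k, σ, σ', t => ∃ τ t₁ t₂, Big D w c σ τ t₁ ∧ BigL k τ σ' t₂ ∧ t = t₁ + t₂

/-- `n` small steps. -/
def SSn : ℕ → List Cmd → Store → List Cmd → Store → Prop
  | 0, k, σ, k', σ' => k' = k ∧ σ' = σ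
  | n + 1, k, σ, k', σ' => ∃ k₁ σ₁, SS D w k σ k₁ σ₁ ∧ SSn n k₁ σ₁ k' σ'

variable {D w}

theorem SSn.trans {m n : ℕ} {k₁ k₂ k₃ : List Cmd} {σ₁ σ₂ σ₃ : Store}
    (h₁ : SSn D w m k₁ σ₁ k₂ σ₂) (h₂ : SSn D w n k₂ σ₂ k₃ σ₃) :
    SSn D w (m + n) k₁ σ₁ k₃ σ₃ := by
  induction m generalizing k₁ σ₁ with
  | zero =>
    obtain ⟨rfl, rfl⟩ := h₁
    simpa using h₂
  | succ m ih =>
    obtain ⟨k, σ, hs, hr⟩ := h₁
    have := ih hr
    rw [show m + 1 + n = (m + n) + 1 by ring]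
    exact ⟨k, σ, hs, this⟩

theorem SSn.one {k₁ k₂ : List Cmd} {σ₁ σ₂ : Store} (h : SS D w k₁ σ₁ k₂ σ₂) :
    SSn D w 1 k₁ σ₁ k₂ σ₂ := ⟨k₂, σ₂, h, rfl, rfl⟩

theorem SSn.head {n : ℕ} {k₁ k₂ k₃ : List Cmd} {σ₁ σ₂ σ₃ : Store} (h : SS D w k₁ σ₁ k₂ σ₂)
    (h' : SSn D w n k₂ σ₂ k₃ σ₃) : SSn D w (n + 1) k₁ σ₁ k₃ σ₃ := ⟨k₂, σ₂, h, h'⟩

theorem big_expand {k k₁ : List Cmd} {σ σ₁ σ' : Store} {t : ℕ} (h : SS D w k σ k₁ σ₁)
    (h' : BigL D w k₁ σ₁ σ' t) : BigL D w k σ σ' (t + 1) := by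
  cases h with
  | skip => exact ⟨_, 1, t, ⟨rfl, rfl⟩, h', by ring⟩
  | inc r => exact ⟨_, 1, t, ⟨rfl, rfl⟩, h', by ring⟩
  | dec r => exact ⟨_, 1, t, ⟨rfl, rfl⟩, h', by ring⟩
  | push b => exact ⟨_, 1, t, ⟨rfl, rfl⟩, h', by ring⟩
  | seq c d =>
    obtain ⟨τ, t₁, t₂, h₁, ⟨τ', t₃, t₄, h₃, h₄, rfl⟩, rfl⟩ := h'
    exact ⟨τ', t₁ + t₃ + 1, t₄, ⟨τ, t₁, t₃, h₁, h₃, rfl⟩, h₄, by ring⟩
  | ite_pos r c d _ _ hr =>
    obtain ⟨τ, t₁, t₂, h₁, h₂, rfl⟩ := h'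
    exact ⟨τ, t₁ + 1, t₂, ⟨t₁, rfl, Or.inl ⟨hr, h₁⟩⟩, h₂, by ring⟩
  | ite_zero r c d _ _ hr =>
    obtain ⟨τ, t₁, t₂, h₁, h₂, rfl⟩ := h'
    exact ⟨τ, t₁ + 1, t₂, ⟨t₁, rfl, Or.inr ⟨hr, h₁⟩⟩, h₂, by ring⟩
  | whl_pos r c _ _ hr =>
    obtain ⟨τ, t₁, t₂, h₁, ⟨τ', t₃, t₄, h₃, h₄, rfl⟩, rfl⟩ := h'
    exact ⟨τ', t₁ + t₃ + 1, t₄, WhileRel.next σ τ τ' t₁ t₃ hr h₁ h₃, h₄, by ring⟩
  | whl_zero r c _ _ hr => exact ⟨_, 1, t, WhileRel.stop σ hr, h', by ring⟩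
  | ask_yes c d _ _ hq =>
    obtain ⟨τ, t₁, t₂, h₁, h₂, rfl⟩ := h'
    exact ⟨τ, t₁ + 1, t₂, ⟨t₁, rfl, Or.inl ⟨hq, h₁⟩⟩, h₂, by ring⟩
  | ask_no c d _ _ hq =>
    obtain ⟨τ, t₁, t₂, h₁, h₂, rfl⟩ := h'
    exact ⟨τ, t₁ + 1, t₂, ⟨t₁, rfl, Or.inr ⟨hq, h₁⟩⟩, h₂, by ring⟩
  | choose_left c d =>
    obtain ⟨τ, t₁, t₂, h₁, h₂, rfl⟩ := h'
    exact ⟨τ, t₁ + 1, t₂, ⟨t₁, rfl, Or.inl h₁⟩, h₂, by ring⟩
  | choose_right c d =>
    obtain ⟨τ, t₁, t₂, h₁, h₂, rfl⟩ := h'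
    exact ⟨τ, t₁ + 1, t₂, ⟨t₁, rfl, Or.inr h₁⟩, h₂, by ring⟩
  | star_stop c => exact ⟨_, 1, t, StarRel.stop σ, h', by ring⟩
  | star_go c =>
    obtain ⟨τ, t₁, t₂, h₁, ⟨τ', t₃, t₄, h₃, h₄, rfl⟩, rfl⟩ := h'
    exact ⟨τ', t₁ + t₃ + 1, t₄, StarRel.next σ τ τ' t₁ t₃ h₁ h₃, h₄, by ring⟩
  | consume _ _ hc => exact ⟨_, 1, t, ⟨hc, rfl, rfl⟩, h', by ring⟩
  | emit => exact ⟨_, 1, t, ⟨rfl, rfl⟩, h', by ring⟩
  | clr_pos _ _ ht =>
    obtain ⟨τ, t₁, t₂, ⟨rfl, rfl⟩, h₂, rfl⟩ := h'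
    refine ⟨{ σ with tick := 0 }, σ.tick + 1, t₂, ⟨rfl, rfl⟩, h₂, ?_⟩
    show σ.tick - 1 + 1 + t₂ + 1 = σ.tick + 1 + t₂
    omega
  | clr_zero _ _ ht =>
    refine ⟨σ, 1, t, ⟨?_, ?_⟩, h', by ring⟩
    · ext <;> simp [ht]
    · simp [ht]
  | rd_pos r _ _ ht =>
    obtain ⟨τ, t₁, t₂, ⟨rfl, rfl⟩, h₂, rfl⟩ := h'
    refine ⟨{ σ with tick := 0, reg := update σ.reg r (σ.reg r + σ.tick) }, σ.tick + 1, t₂,
      ⟨rfl, rfl⟩, ?_, ?_⟩
    · convert h₂ using 2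
      simp only [update_self, update_idem]
      congr 1
      omega
    · show σ.tick - 1 + 1 + t₂ + 1 = σ.tick + 1 + t₂
      omega
  | rd_zero r _ _ ht =>
    refine ⟨σ, 1, t, ⟨?_, ?_⟩, h', by ring⟩
    · ext <;> simp [ht]
    · simp [ht]

theorem bigL_of_SSn {n : ℕ} {k : List Cmd} {σ σ' : Store} (h : SSn D w n k σ [] σ') :
    BigL D w k σ σ' n := by
  induction n generalizing k σ with
  | zero =>
    obtain ⟨rfl, rfl⟩ := h
    exact ⟨rfl, rfl⟩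
  | succ n ih =>
    obtain ⟨k₁, σ₁, hs, hr⟩ := h
    exact big_expand hs (ih hr)

theorem SSn_clr (k : List Cmd) (n : ℕ) (σ : Store) (h : σ.tick = n) :
    SSn D w (n + 1) (Cmd.clr :: k) σ k { σ with tick := 0 } := by
  induction n generalizing σ with
  | zero =>
    have : ({ σ with tick := 0 } : Store) = σ := by ext <;> simp [h]
    rw [this]
    exact SSn.one (SS.clr_zero k σ h)
  | succ n ih =>
    refine SSn.head (SS.clr_pos k σ (by omega)) ?_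
    exact ih { σ with tick := σ.tick - 1 } (by simp [h])

theorem SSn_rd (r : ℕ) (k : List Cmd) (n : ℕ) (σ : Store) (h : σ.tick = n) :
    SSn D w (n + 1) (Cmd.rd r :: k) σ k
      { σ with tick := 0, reg := update σ.reg r (σ.reg r + n) } := by
  induction n generalizing σ with
  | zero =>
    have : ({ σ with tick := 0, reg := update σ.reg r (σ.reg r + 0) } : Store) = σ := by
      ext <;> simp [h]
    rw [this]
    exact SSn.one (SS.rd_zero r k σ h)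
  | succ n ih =>
    refine SSn.head (SS.rd_pos r k σ (by omega)) ?_
    have := ih { σ with tick := σ.tick - 1, reg := update σ.reg r (σ.reg r + 1) } (by simp [h])
    convert this using 2
    simp only [update_self, update_idem]
    congr 1
    omega

theorem SSn_of_big (c : Cmd) : ∀ (k : List Cmd) (σ σ' : Store) (t : ℕ), Big D w c σ σ' t →
    SSn D w t (c :: k) σ k σ' := by
  induction c with
  | skip => rintro k σ σ' t ⟨rfl, rfl⟩; exact SSn.one (SS.skip k σ)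
  | inc r => rintro k σ σ' t ⟨rfl, rfl⟩; exact SSn.one (SS.inc r k σ)
  | dec r => rintro k σ σ' t ⟨rfl, rfl⟩; exact SSn.one (SS.dec r k σ)
  | push b => rintro k σ σ' t ⟨rfl, rfl⟩; exact SSn.one (SS.push b k σ)
  | seq c d ihc ihd =>
    rintro k σ σ' t ⟨τ, t₁, t₂, h₁, h₂, rfl⟩
    exact SSn.head (SS.seq c d k σ) ((ihc _ _ _ _ h₁).trans (ihd _ _ _ _ h₂))
  | ite r c d ihc ihd =>
    rintro k σ σ' t ⟨t₁, rfl, ⟨hr, h⟩ | ⟨hr, h⟩⟩
    · exact SSn.head (SS.ite_pos r c d k σ hr) (ihc _ _ _ _ h)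
    · exact SSn.head (SS.ite_zero r c d k σ hr) (ihd _ _ _ _ h)
  | whl r c ihc =>
    intro k σ σ' t h
    change WhileRel (Big D w c) r σ σ' t at h
    induction h with
    | stop σ hr => exact SSn.one (SS.whl_zero r c k σ hr)
    | next σ τ σ' t₁ t₂ hr h₁ h₂ ih =>
      exact SSn.head (SS.whl_pos r c k σ hr) ((ihc _ _ _ _ h₁).trans ih)
  | ask c d ihc ihd =>
    rintro k σ σ' t ⟨t₁, rfl, ⟨hq, h⟩ | ⟨hq, h⟩⟩
    · exact SSn.head (SS.ask_yes c d k σ hq) (ihc _ _ _ _ h)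
    · exact SSn.head (SS.ask_no c d k σ hq) (ihd _ _ _ _ h)
  | choose c d ihc ihd =>
    rintro k σ σ' t ⟨t₁, rfl, h | h⟩
    · exact SSn.head (SS.choose_left c d k σ) (ihc _ _ _ _ h)
    · exact SSn.head (SS.choose_right c d k σ) (ihd _ _ _ _ h)
  | star c ihc =>
    intro k σ σ' t h
    change StarRel (Big D w c) σ σ' t at h
    induction h with
    | stop σ => exact SSn.one (SS.star_stop c k σ)
    | next σ τ σ' t₁ t₂ h₁ h₂ ih =>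
      exact SSn.head (SS.star_go c k σ) ((ihc _ _ _ _ h₁).trans ih)
  | consume => rintro k σ σ' t ⟨h, rfl, rfl⟩; exact SSn.one (SS.consume k σ h)
  | emit => rintro k σ σ' t ⟨rfl, rfl⟩; exact SSn.one (SS.emit k σ)
  | clr => rintro k σ σ' t ⟨rfl, rfl⟩; exact SSn_clr k σ.tick σ rfl
  | rd r => rintro k σ σ' t ⟨rfl, rfl⟩; exact SSn_rd r k σ.tick σ rfl

end

end Pool.Agent.Lib.MP_65a8de_lc
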