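import Pool.Agent.Lib.MP_65a8de_lc.PR

/-!
# Primitive recursive simulation of oracle machines
-/

namespace Pool.Agent.Lib.MP_65a8de_lc

open Function

/-! ### Coded configurations -/

section Coded

variable {nS nG nT : ℕ}

/-- Coded configurations. -/
abbrev CC (nS nG nT : ℕ) := Fin nS × (Fin nT → List (Fin nG) × List (Fin nG)) × List Bool

/-- Coded actions. -/
abbrev CA (nS nG nT : ℕ) := Fin nS × (Fin nT → Fin nG × Fin 3) × Option Bool

variable (blk : Fin nG) (tl : Fin nS × (Fin nT → Fin nG) → List (CA nS nG nT))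
  (ol : Fin nS → Option (Fin nS × Fin nS))

/-- Write a symbol and move. -/
def updT (t : List (Fin nG) × List (Fin nG)) (a : Fin nG × Fin 3) :
    List (Fin nG) × List (Fin nG) :=
  if a.2 = 0 then (t.1.tail, t.1.headD blk :: a.1 :: t.2.tail)
  else if a.2 = 1 then (t.1, a.1 :: t.2.tail)
  else (a.1 :: t.1, t.2.tail)

theorem primrec_headD : Primrec (fun l : List (Fin nG) => l.headD blk) :=
  (Primrec.option_getD.comp Primrec.list_head? (Primrec.const blk)).of_eq fun l => by
    cases l <;> rfl

theorem primrec_updT : Primrec₂ (updT (nG := nG) blk) := by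
  have h1 : Primrec (fun p : (List (Fin nG) × List (Fin nG)) × (Fin nG × Fin 3) => p.1.1) :=
    Primrec.fst.comp Primrec.fst
  have h2 : Primrec (fun p : (List (Fin nG) × List (Fin nG)) × (Fin nG × Fin 3) => p.1.2) :=
    Primrec.snd.comp Primrec.fst
  have h3 : Primrec (fun p : (List (Fin nG) × List (Fin nG)) × (Fin nG × Fin 3) => p.2.1) :=
    Primrec.fst.comp Primrec.snd
  have h4 : Primrec (fun p : (List (Fin nG) × List (Fin nG)) × (Fin nG × Fin 3) => p.2.2) :=
    Primrec.snd.comp Primrec.snd
  have h5 := Primrec.list_tail.comp h2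
  have h6 := Primrec.list_cons.comp h3 h5
  refine Primrec.ite (Primrec.eq.comp h4 (Primrec.const 0)) ?_
    (Primrec.ite (Primrec.eq.comp h4 (Primrec.const 1)) ?_ ?_)
  · exact Primrec.pair (Primrec.list_tail.comp h1)
      (Primrec.list_cons.comp ((primrec_headD blk).comp h1) h6)
  · exact Primrec.pair h1 h6
  · exact Primrec.pair (Primrec.list_cons.comp h3 h1) h5

/-- Apply an action. -/
def applyA (c : CC nS nG nT) (a : CA nS nG nT) : CC nS nG nT :=
  (a.1, fun i => updT blk (c.2.1 i) (a.2.1 i), c.2.2 ++ a.2.2.toList)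

theorem primrec_applyA : Primrec₂ (applyA (nS := nS) (nG := nG) (nT := nT) blk) := by
  refine Primrec.pair (Primrec.fst.comp Primrec.snd) (Primrec.pair ?_ ?_)
  · refine Primrec.fin_curry.2 ?_
    refine (primrec_updT blk).comp ?_ ?_
    · exact Primrec.fin_app.comp (Primrec.fst.comp (Primrec.snd.comp (Primrec.fst.comp
        Primrec.fst))) Primrec.snd
    · exact Primrec.fin_app.comp (Primrec.fst.comp (Primrec.snd.comp (Primrec.snd.comp
        Primrec.fst))) Primrec.snd
  · exact Primrec.list_append.comp (Primrec.snd.comp (Primrec.snd.comp Primrec.fst))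
      (Primrec.optionToList.comp (Primrec.snd.comp (Primrec.snd.comp Primrec.snd)))

theorem primrec_idx : Primrec idx := by
  have h : Primrec₂ (fun (_ : List Bool) (p : Bool × ℕ) => 2 * p.2 + p.1.toNat + 1) := by
    refine Primrec.succ.comp (Primrec.nat_add.comp (Primrec.nat_mul.comp (Primrec.const 2)
      (Primrec.snd.comp Primrec.snd)) ?_)
    exact (Primrec.dom_bool Bool.toNat).comp (Primrec.fst.comp Primrec.snd)
  refine (Primrec.list_foldr Primrec.id (Primrec.const 0) h).of_eq ?_
  intro s
  induction s with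
  | nil => rfl
  | cons b s ih =>
    simp only [id, List.foldr_cons] at ih ⊢
    rw [ih, idx]

/-- Look up the oracle in a table. -/
def look (τ : List ℕ) (s : List Bool) : ℕ := τ.reverse.getD (idx s) 0

theorem primrec_look : Primrec₂ look :=
  (Primrec.list_getD 0).comp (Primrec.list_reverse.comp Primrec.fst)
    (primrec_idx.comp Primrec.snd)

/-- The successors of a coded configuration. -/
def succs (τ : List ℕ) (c : CC nS nG nT) : List (CC nS nG nT) :=
  (ol c.1).elim ((tl (c.1, fun i => (c.2.1 i).2.headD blk)).map (applyA blk c))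
    fun ab => [(if look τ c.2.2 = 1 then ab.1 else ab.2, c.2.1, [])]

theorem primrec_succs : Primrec₂ (succs blk tl ol) := by
  have h1 : Primrec (fun p : List ℕ × CC nS nG nT => p.2.1) := Primrec.fst.comp Primrec.snd
  have h2 : Primrec (fun p : List ℕ × CC nS nG nT => p.2.2.1) :=
    Primrec.fst.comp (Primrec.snd.comp Primrec.snd)
  have h3 : Primrec (fun p : List ℕ × CC nS nG nT => p.2.2.2) :=
    Primrec.snd.comp (Primrec.snd.comp Primrec.snd)
  have h4 : Primrec (fun p : List ℕ × CC nS nG nT =>
      (fun i => (p.2.2.1 i).2.headD blk : Fin nT → Fin nG)) := by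
    refine Primrec.fin_curry.2 ((primrec_headD blk).comp (Primrec.snd.comp ?_))
    exact Primrec.fin_app.comp (h2.comp Primrec.fst) Primrec.snd
  have h5 : Primrec (fun p : List ℕ × CC nS nG nT =>
      tl (p.2.1, fun i => (p.2.2.1 i).2.headD blk)) :=
    (Primrec.dom_finite tl).comp (Primrec.pair h1 h4)
  have h6 : Primrec (fun p : List ℕ × CC nS nG nT =>
      (tl (p.2.1, fun i => (p.2.2.1 i).2.headD blk)).map (applyA blk p.2)) := by
    refine Primrec.list_map h5 ?_
    exact (primrec_applyA blk).comp (Primrec.snd.comp Primrec.fst) Primrec.snd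
  have h7 : Primrec₂ (fun (p : List ℕ × CC nS nG nT) (ab : Fin nS × Fin nS) =>
      [((if look p.1 p.2.2.2 = 1 then ab.1 else ab.2), p.2.2.1, ([] : List Bool))]) := by
    refine Primrec.list_cons.comp (Primrec.pair (Primrec.ite ?_ ?_ ?_) (Primrec.pair
      (h2.comp Primrec.fst) (Primrec.const []))) (Primrec.const [])
    · exact Primrec.eq.comp (primrec_look.comp (Primrec.fst.comp Primrec.fst)
        (h3.comp Primrec.fst)) (Primrec.const 1)
    · exact Primrec.fst.comp Primrec.snd
    · exact Primrec.snd.comp Primrec.snd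
  refine (Primrec.option_casesOn ((Primrec.dom_finite ol).comp h1) h6 h7).of_eq ?_
  intro p
  unfold succs
  cases ol p.2.1 <;> rfl

/-- The configurations reachable in `t` steps. -/
def lv (τ : List ℕ) (c : CC nS nG nT) : ℕ → List (CC nS nG nT)
  | 0 => [c]
  | t + 1 => (lv τ c t).flatMap (succs blk tl ol τ)

theorem primrec_lv : Primrec (fun p : (List ℕ × CC nS nG nT) × ℕ =>
    lv blk tl ol p.1.1 p.1.2 p.2) := by
  have h : Primrec₂ (fun (p : (List ℕ × CC nS nG nT) × ℕ) (x : ℕ × List (CC nS nG nT)) =>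
      x.2.flatMap (succs blk tl ol p.1.1)) := by
    refine Primrec.list_flatMap (Primrec.snd.comp Primrec.snd) ?_
    exact (primrec_succs blk tl ol).comp (Primrec.fst.comp (Primrec.fst.comp (Primrec.fst.comp
      Primrec.fst))) Primrec.snd
  refine (Primrec.nat_rec' (f := fun p : (List ℕ × CC nS nG nT) × ℕ => p.2)
    (g := fun p => [p.1.2]) Primrec.snd ?_ h).of_eq ?_
  · exact Primrec.list_cons.comp (Primrec.snd.comp Primrec.fst) (Primrec.const [])
  · rintro ⟨⟨τ, c⟩, t⟩
    induction t with
    | zero => rfl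
    | succ t ih =>
      simp only at ih
      simp only [lv]
      rw [← ih]

variable (i₀ : Fin nT) (a₀ : Fin nG) (q₀ qa : Fin nS)

/-- The initial configuration for a tally word. -/
def initC (x : ℕ) : CC nS nG nT :=
  (q₀, fun i => if i = i₀ then ([], (List.range x).map fun _ => a₀) else ([], []), [])

theorem primrec_initC : Primrec (initC (nS := nS) i₀ a₀ q₀) := by
  refine Primrec.pair (Primrec.const _) (Primrec.pair (Primrec.fin_curry.2 ?_) (Primrec.const _))
  refine Primrec.ite (Primrec.eq.comp Primrec.snd (Primrec.const i₀)) ?_ (Primrec.const _)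
  exact Primrec.pair (Primrec.const []) (Primrec.list_map (Primrec.list_range.comp Primrec.fst)
    (Primrec.const a₀).to₂)

/-- Acceptance within `T` steps. -/
def accC (τ : List ℕ) (x T : ℕ) : Prop :=
  ∃ c ∈ (List.range (T + 1)).flatMap (lv blk tl ol τ (initC i₀ a₀ q₀ x)), c.1 = qa

theorem primrec_accC : PrimrecPred (fun p : (List ℕ × ℕ) × ℕ =>
    accC blk tl ol i₀ a₀ q₀ qa p.1.1 p.1.2 p.2) := by
  have h1 : PrimrecPred (fun c : CC nS nG nT => c.1 = qa) :=
    Primrec.eq.comp Primrec.fst (Primrec.const qa)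
  refine h1.exists_mem_list.comp ?_
  refine Primrec.list_flatMap (Primrec.list_range.comp (Primrec.succ.comp Primrec.snd)) ?_
  refine (primrec_lv blk tl ol).comp (Primrec.pair (Primrec.pair ?_ ?_) Primrec.snd)
  · exact Primrec.fst.comp (Primrec.fst.comp Primrec.fst)
  · exact (primrec_initC i₀ a₀ q₀).comp (Primrec.snd.comp (Primrec.fst.comp Primrec.fst))

end Coded

/-! ### Correctness of the simulation -/

/-- The moves coded by `Fin 3`. -/
def mvF : Fin 3 → Move := ![Move.left, Move.stay, Move.right]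

/-- The tape coded by two lists. -/
def tpF {nG : ℕ} (blk : Fin nG) (t : List (Fin nG) × List (Fin nG)) : ℤ → Fin nG
  | Int.ofNat n => t.2.getD n blk
  | Int.negSucc n => t.1.getD n blk

theorem tpF_upd {nG : ℕ} (blk : Fin nG) (t : List (Fin nG) × List (Fin nG))
    (a : Fin nG × Fin 3) :
    tpF blk (updT blk t a) = shift (mvF a.2) (update (tpF blk t) 0 a.1) := by
  obtain ⟨l, r⟩ := t
  obtain ⟨s, m⟩ := a
  funext z
  match m with
  | 0 =>
    simp only [updT, if_true, mvF, Matrix.cons_val_zero, shift]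
    rcases z with (_ | _ | n) | n
    · show _ = update (tpF blk (l, r)) 0 s (-1)
      rw [update_of_ne (by decide)]
      show l.headD blk = l.getD 0 blk
      cases l <;> rfl
    · show _ = update (tpF blk (l, r)) 0 s 0
      rw [update_self]
      rfl
    · have e : Int.ofNat (n + 1 + 1) - 1 = Int.ofNat (n + 1) := by
        simp only [Int.ofNat_eq_natCast]; push_cast; ring
      rw [e, update_of_ne (by simp only [Int.ofNat_eq_natCast]; omega)]
      show r.tail.getD n blk = r.getD (n + 1) blk
      cases r <;> simp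
    · have e : Int.negSucc n - 1 = Int.negSucc (n + 1) := by
        simp only [Int.negSucc_eq]; push_cast; ring
      rw [e, update_of_ne (by simp)]
      show l.tail.getD n blk = l.getD (n + 1) blk
      cases l <;> simp
  | 1 =>
    simp only [updT, mvF, shift]
    rw [if_neg (by decide), if_pos trivial]
    rcases z with (_ | n) | n
    · rfl
    · show r.tail.getD n blk = update (tpF blk (l, r)) 0 s (Int.ofNat (n + 1))
      rw [update_of_ne (by simp only [Int.ofNat_eq_natCast]; omega)]
      show r.tail.getD n blk = r.getD (n + 1) blk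
      cases r <;> simp
    · show l.getD n blk = update (tpF blk (l, r)) 0 s (Int.negSucc n)
      rw [update_of_ne (by simp)]
      rfl
  | 2 =>
    simp only [updT, mvF, shift]
    rw [if_neg (by decide), if_neg (by decide)]
    rcases z with n | (_ | n)
    · have e : Int.ofNat n + 1 = Int.ofNat (n + 1) := rfl
      show r.tail.getD n blk = update (tpF blk (l, r)) 0 s (Int.ofNat n + 1)
      rw [e, update_of_ne (by simp only [Int.ofNat_eq_natCast]; omega)]
      show r.tail.getD n blk = r.getD (n + 1) blk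
      cases r <;> simp
    · rfl
    · have e : Int.negSucc (n + 1) + 1 = Int.negSucc n := by
        simp only [Int.negSucc_eq]; push_cast; ring
      show l.getD n blk = update (tpF blk (l, r)) 0 s (Int.negSucc (n + 1) + 1)
      rw [e, update_of_ne (by simp)]
      rfl

theorem OracleNTM.reach_succ {N : OracleNTM} {A : Set (List Bool)} {t : ℕ} {c d : N.Config} :
    N.Reach A (t + 1) c d ↔ ∃ e, N.Reach A t c e ∧ N.Step A e d := by
  induction t generalizing c with
  | zero =>
    constructor
    · rintro ⟨e, h, rfl⟩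
      exact ⟨c, rfl, h⟩
    · rintro ⟨e, rfl, h⟩
      exact ⟨d, h, rfl⟩
  | succ t ih =>
    constructor
    · rintro ⟨e, h, h'⟩
      obtain ⟨f, h1, h2⟩ := ih.1 h'
      exact ⟨f, ⟨e, h, h1⟩, h2⟩
    · rintro ⟨f, ⟨e, h, h1⟩, h2⟩
      exact ⟨e, h, ih.2 ⟨f, h1, h2⟩⟩

section Correct

variable (N : OracleNTM) {nS nG nT : ℕ} (eS : N.State ≃ Fin nS) (eG : N.Symbol ≃ Fin nG)
  (eT : N.Tape ≃ Fin nT)

/-- The configuration coded by `c`. -/
def absS (c : CC nS nG nT) : N.Config where
  state := eS.symm c.1
  tape := fun i z => eG.symm (tpF (eG N.blank) (c.2.1 (eT i)) z)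
  query := c.2.2

/-- The action coded by `a`. -/
def absA (a : CA nS nG nT) : N.State × (N.Tape → N.Symbol × Move) × Option Bool :=
  (eS.symm a.1, fun i => (eG.symm (a.2.1 (eT i)).1, mvF (a.2.1 (eT i)).2), a.2.2)

theorem mvF_surj (m : Move) : ∃ j, mvF j = m := by
  cases m
  · exact ⟨0, rfl⟩
  · exact ⟨1, rfl⟩
  · exact ⟨2, rfl⟩

theorem absA_surj (a : N.State × (N.Tape → N.Symbol × Move) × Option Bool) :
    ∃ a' : CA nS nG nT, absA N eS eG eT a' = a := by
  obtain ⟨q, w, b⟩ := a
  choose f hf using mvF_surj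
  refine ⟨(eS q, fun i => (eG (w (eT.symm i)).1, f (w (eT.symm i)).2), b), ?_⟩
  simp [absA, hf]

/-- The list of coded actions. -/
noncomputable def tlN (p : Fin nS × (Fin nT → Fin nG)) : List (CA nS nG nT) :=
  (Set.toFinite {a : CA nS nG nT | absA N eS eG eT a ∈
    N.trans (eS.symm p.1) (fun i => eG.symm (p.2 (eT i)))}).toFinset.toList

/-- The coded query states. -/
def olN (q : Fin nS) : Option (Fin nS × Fin nS) :=
  (N.oracle (eS.symm q)).map fun p => (eS p.1, eS p.2)

theorem mem_tlN (p : Fin nS × (Fin nT → Fin nG)) (a : CA nS nG nT) :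
    a ∈ tlN N eS eG eT p ↔ absA N eS eG eT a ∈
      N.trans (eS.symm p.1) (fun i => eG.symm (p.2 (eT i))) := by
  simp [tlN]

theorem absS_apply (c : CC nS nG nT) (a : CA nS nG nT) :
    absS N eS eG eT (applyA (eG N.blank) c a) =
      N.nxt (absS N eS eG eT c) (absA N eS eG eT a) := by
  simp only [absS, applyA, OracleNTM.nxt, absA, OracleNTM.Config.mk.injEq, true_and, and_true]
  funext i z
  rw [tpF_upd]
  cases mvF (a.2.1 (eT i)).2 <;> simp only [shift, update_apply] <;> split_ifs <;> rfl

theorem succs_spec {D : Set (List Bool)} {τ : List ℕ} (c : CC nS nG nT)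
    (hτ : look τ c.2.2 = 1 ↔ c.2.2 ∈ D) (C : N.Config) :
    N.Step D (absS N eS eG eT c) C ↔
      ∃ c' ∈ succs (eG N.blank) (tlN N eS eG eT) (olN N eS) τ c, C = absS N eS eG eT c' := by
  rcases ho : N.oracle (eS.symm c.1) with _ | ⟨p, q⟩
  · rw [OracleNTM.step_none (C := absS N eS eG eT c) ho]
    have h1 : olN N eS c.1 = none := by simp [olN, ho]
    simp only [succs, h1, Option.elim_none, List.mem_map]
    have hsym : (fun i => (absS N eS eG eT c).tape i 0) =
        fun i => eG.symm ((c.2.1 (eT i)).2.headD (eG N.blank)) := by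
      funext i
      show eG.symm ((c.2.1 (eT i)).2.getD 0 (eG N.blank)) = _
      congr 1
      cases (c.2.1 (eT i)).2 <;> rfl
    constructor
    · rintro ⟨a, ha, rfl⟩
      obtain ⟨a', rfl⟩ := absA_surj N eS eG eT a
      refine ⟨_, ⟨a', ?_, rfl⟩, (absS_apply N eS eG eT c a').symm⟩
      rw [mem_tlN]
      rw [hsym] at ha
      exact ha
    · rintro ⟨_, ⟨a', ha, rfl⟩, rfl⟩
      refine ⟨absA N eS eG eT a', ?_, absS_apply N eS eG eT c a'⟩
      rw [mem_tlN] at ha
      rw [hsym]
      exact ha
  · have h1 : olN N eS c.1 = some (eS p, eS q) := by simp [olN, ho]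
    simp only [succs, h1, Option.elim_some, List.mem_singleton, exists_eq_left]
    by_cases hA : c.2.2 ∈ D
    · rw [OracleNTM.step_yes (C := absS N eS eG eT c) ho hA, if_pos (hτ.2 hA)]
      simp [absS]
    · rw [OracleNTM.step_no (C := absS N eS eG eT c) ho hA, if_neg (fun h => hA (hτ.1 h))]
      simp [absS]

theorem succs_query {τ : List ℕ} {c c' : CC nS nG nT}
    (h : c' ∈ succs (eG N.blank) (tlN N eS eG eT) (olN N eS) τ c) :
    c'.2.2.length ≤ c.2.2.length + 1 := by
  unfold succs at h
  cases ho : olN N eS c.1 with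
  | none =>
    rw [ho] at h
    simp only [Option.elim_none, List.mem_map] at h
    obtain ⟨a, -, rfl⟩ := h
    simp only [applyA, List.length_append]
    cases a.2.2 <;> simp
  | some ab =>
    rw [ho] at h
    simp only [Option.elim_some, List.mem_singleton] at h
    subst h
    simp

theorem lv_spec {D : Set (List Bool)} {τ : List ℕ} (T : ℕ)
    (hτ : ∀ s : List Bool, s.length ≤ T → (look τ s = 1 ↔ s ∈ D)) (c : CC nS nG nT)
    (hc : c.2.2 = []) (t : ℕ) (ht : t ≤ T) :
    (∀ c' ∈ lv (eG N.blank) (tlN N eS eG eT) (olN N eS) τ c t, c'.2.2.length ≤ t) ∧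
    ∀ C : N.Config, N.Reach D t (absS N eS eG eT c) C ↔
      ∃ c' ∈ lv (eG N.blank) (tlN N eS eG eT) (olN N eS) τ c t, C = absS N eS eG eT c' := by
  induction t with
  | zero =>
    refine ⟨?_, ?_⟩
    · intro c' hc'
      simp only [lv, List.mem_singleton] at hc'
      subst hc'
      simp [hc]
    · intro C
      simp only [lv, List.mem_singleton, exists_eq_left]
      exact ⟨fun h => h.symm, fun h => h.symm⟩
  | succ t ih =>
    obtain ⟨h1, h2⟩ := ih (by omega)
    refine ⟨?_, ?_⟩
    · intro c' hc'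
      simp only [lv, List.mem_flatMap] at hc'
      obtain ⟨c'', h3, h4⟩ := hc'
      have := succs_query N eS eG eT h4
      have := h1 c'' h3
      omega
    · intro C
      rw [OracleNTM.reach_succ]
      simp only [lv, List.mem_flatMap]
      constructor
      · rintro ⟨E, hE, hs⟩
        obtain ⟨c', hc', rfl⟩ := (h2 E).1 hE
        have hl := h1 c' hc'
        obtain ⟨c'', h5, h6⟩ := (succs_spec N eS eG eT c' (hτ _ (by omega)) C).1 hs
        exact ⟨c'', ⟨c', hc', h5⟩, h6⟩
      · rintro ⟨c'', ⟨c', hc', h5⟩, rfl⟩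
        have hl := h1 c' hc'
        exact ⟨absS N eS eG eT c', (h2 _).2 ⟨c', hc', rfl⟩,
          (succs_spec N eS eG eT c' (hτ _ (by omega)) _).2 ⟨c'', h5, rfl⟩⟩

theorem absS_init (x : ℕ) :
    absS N eS eG eT (initC (eT N.input) (eG (N.letter true)) (eS N.start) x) =
      N.init (List.replicate x true) := by
  simp only [absS, initC, OracleNTM.init, OracleNTM.Config.mk.injEq, Equiv.symm_apply_apply,
    true_and, and_true]
  funext i z
  by_cases hi : i = N.input
  · subst hi
    simp only [if_true, OracleNTM.wordTape, List.map_replicate]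
    rcases z with n | n
    · rw [if_pos (by simp)]
      simp only [tpF, Int.ofNat_eq_natCast, Int.toNat_natCast]
      by_cases hn : n < x
      · rw [List.getD_eq_getElem _ _ (by simpa using hn),
          List.getD_eq_getElem _ _ (by simpa using hn)]
        simp
      · rw [List.getD_eq_default _ _ (by simpa using hn),
          List.getD_eq_default _ _ (by simpa using hn)]
        simp
    · rw [if_neg (by simp)]
      simp [tpF]
  · rw [if_neg hi, if_neg (fun h => hi (eT.injective h))]
    rcases z with n | n <;> simp [tpF]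

theorem accC_spec {D : Set (List Bool)} {τ : List ℕ} (T x : ℕ)
    (hτ : ∀ s : List Bool, s.length ≤ T → (look τ s = 1 ↔ s ∈ D)) :
    accC (eG N.blank) (tlN N eS eG eT) (olN N eS) (eT N.input) (eG (N.letter true))
      (eS N.start) (eS N.accept) τ x T ↔
      ∃ t ≤ T, N.AcceptsIn D (List.replicate x true) t := by
  unfold accC
  simp only [List.mem_flatMap, List.mem_range]
  constructor
  · rintro ⟨c, ⟨t, ht, hc⟩, hq⟩
    refine ⟨t, by omega, absS N eS eG eT c, ?_, ?_⟩
    · rw [← absS_init N eS eG eT x]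
      exact ((lv_spec N eS eG eT T hτ _ rfl t (by omega)).2 _).2 ⟨c, hc, rfl⟩
    · simp [absS, hq]
  · rintro ⟨t, ht, C, hC, hq⟩
    rw [← absS_init N eS eG eT x] at hC
    obtain ⟨c, hc, rfl⟩ := ((lv_spec N eS eG eT T hτ _ rfl t ht).2 _).1 hC
    refine ⟨c, ⟨t, by omega, hc⟩, ?_⟩
    rw [← hq]
    simp [absS]

end Correct

end Pool.Agent.Lib.MP_65a8de_lc
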