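import Pool.Agent.Lib.MP_65a8de_lc.Levels

/-!
# Stages, levels, and the languages of the main program
-/

namespace Pool.Agent.Lib.MP_65a8de_lc

open Function

/-- The data needed to search for gaps. -/
structure GapData (D : Set (List Bool)) where
  test : ℕ → ℕ
  inf : ∀ h, ∃ g, h < g ∧ test g = 0
  prog : Cmd
  run : ∀ r : ℕ → ℕ, (∀ j ≥ 2, r j = 0) → ∃ t, Runs D prog r [] (update r 2 (test (r 1))) [] t

namespace GapData

variable {D : Set (List Bool)} (X : GapData D)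

open Classical in
/-- The least gap above `h`. -/
noncomputable def G (h : ℕ) : ℕ := Nat.find (X.inf h)

theorem lt_G (h : ℕ) : h < X.G h := by
  classical
  exact (Nat.find_spec (X.inf h)).1

theorem test_G (h : ℕ) : X.test (X.G h) = 0 := by
  classical
  exact (Nat.find_spec (X.inf h)).2

theorem G_min (h g : ℕ) (h1 : h < g) (h2 : X.test g = 0) : X.G h ≤ g := by
  classical
  exact Nat.find_min' (X.inf h) ⟨h1, h2⟩

/-- The body of the search. -/
def searchBody : Cmd := Cmd.seq (clear 2) (Cmd.seq (Cmd.inc 1) X.prog)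

theorem runs_search (h : ℕ) : ∀ (k g f : ℕ), h ≤ g → g + 1 + k = X.G h → f ≠ 0 → ∃ t,
    Runs D (Cmd.whl 2 X.searchBody) (R h g f 0 0) [] (R h (X.G h) 0 0 0) [] t := by
  intro k
  induction k with
  | zero =>
    intro g f hg hk hf
    have e1 := (runs_clear (D := D) (q := []) 2 f (R h g f 0 0) rfl).cast (updR2 _ _ _ _ _ _)
    have e2 := (runs_inc (D := D) (q := []) (r := R h g 0 0 0) 1).cast (updR1 _ _ _ _ _ _)
    obtain ⟨t, e3⟩ := X.run (R h (g + 1) 0 0 0) (by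
      intro j hj
      match j with
      | 2 | 3 | 4 | _ + 5 => rfl
      | 0 | 1 => omega)
    rw [updR2, R1, show g + 1 = X.G h by omega, X.test_G] at e3
    have e2' : Runs D (Cmd.inc 1) (R h g 0 0 0) [] (R h (X.G h) 0 0 0) [] 1 :=
      e2.cast (by rw [R1, show g + 1 = X.G h by omega])
    have e4 := runs_whl_zero (D := D) (q := []) (a := 2) (c := X.searchBody)
      (r := R h (X.G h) 0 0 0) rfl
    exact ⟨_, runs_whl_pos hf (runs_seq e1 (runs_seq e2' e3)) e4⟩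
  | succ k ih =>
    intro g f hg hk hf
    have e1 := (runs_clear (D := D) (q := []) 2 f (R h g f 0 0) rfl).cast (updR2 _ _ _ _ _ _)
    have e2 := (runs_inc (D := D) (q := []) (r := R h g 0 0 0) 1).cast (updR1 _ _ _ _ _ _)
    obtain ⟨t, e3⟩ := X.run (R h (g + 1) 0 0 0) (by
      intro j hj
      match j with
      | 2 | 3 | 4 | _ + 5 => rfl
      | 0 | 1 => omega)
    rw [updR2, R1] at e3
    have hne : X.test (g + 1) ≠ 0 := fun h0 => by
      have := X.G_min h (g + 1) (by omega) h0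
      omega
    obtain ⟨t', e4⟩ := ih (g + 1) (X.test (g + 1)) (by omega) (by omega) hne
    exact ⟨_, runs_whl_pos hf (runs_seq e1 (runs_seq e2 e3)) e4⟩

/-- Find the next gap `G h` and put `G h + 1` in register `0`. -/
def find : Cmd := Cmd.seq (copy 0 1 2) (Cmd.seq (Cmd.inc 2) (Cmd.seq (Cmd.whl 2 X.searchBody)
  (Cmd.seq (clear 0) (Cmd.seq (copy 1 0 2) (Cmd.inc 0)))))

theorem runs_find (h : ℕ) : ∃ t,
    Runs D X.find (R h 0 0 0 0) [] (R (X.G h + 1) (X.G h) 0 0 0) [] t := by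
  have e1 := (runs_copy (D := D) (q := []) 0 1 2 (by omega) (by omega) (by omega)
    (R h 0 0 0 0) rfl).cast (updR1 _ _ _ _ _ _)
  rw [R1, R0, Nat.zero_add] at e1
  have e2 := (runs_inc (D := D) (q := []) (r := R h h 0 0 0) 2).cast (updR2 _ _ _ _ _ _)
  rw [R2, Nat.zero_add] at e2
  have hlt := X.lt_G h
  obtain ⟨t, e3⟩ := X.runs_search h (X.G h - h - 1) h 1 le_rfl (by omega) (by omega)
  have e4 := (runs_clear (D := D) (q := []) 0 h (R h (X.G h) 0 0 0) rfl).cast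
    (updR0 _ _ _ _ _ _)
  have e5 := (runs_copy (D := D) (q := []) 1 0 2 (by omega) (by omega) (by omega)
    (R 0 (X.G h) 0 0 0) rfl).cast (updR0 _ _ _ _ _ _)
  rw [R1, R0, Nat.zero_add] at e5
  have e6 := (runs_inc (D := D) (q := []) (r := R (X.G h) (X.G h) 0 0 0) 0).cast
    (updR0 _ _ _ _ _ _)
  exact ⟨_, runs_seq e1 (runs_seq e2 (runs_seq e3 (runs_seq e4 (runs_seq e5 e6))))⟩

/-- The running time of the search. -/
noncomputable def Δ (h : ℕ) : ℕ := (X.runs_find h).choose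

theorem runs_find' (h : ℕ) :
    Runs D X.find (R h 0 0 0 0) [] (R (X.G h + 1) (X.G h) 0 0 0) [] (X.Δ h) :=
  (X.runs_find h).choose_spec

/-- The next level. -/
noncomputable def F (h : ℕ) : ℕ := X.G h + 1 + (1 + X.Δ h)

theorem G_lt_F (h : ℕ) : X.G h < X.F h := by
  unfold F
  omega

theorem lt_F (h : ℕ) : h < X.F h := (X.lt_G h).trans (X.G_lt_F h)

theorem Δ_lt_F (h : ℕ) : X.Δ h < X.F h := by
  unfold F
  omega

/-- Go to the next level. -/
def advance : Cmd := Cmd.seq Cmd.clr (Cmd.seq X.find (Cmd.rd 0))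

theorem big_advance (w : List Bool) (h pos out tick : ℕ) (σ' : Store) (t' : ℕ) :
    Big D w X.advance ⟨R h 0 0 0 0, [], pos, out, tick⟩ σ' t' ↔
      σ' = ⟨R (X.F h) (X.G h) 0 0 0, [], pos, out, 0⟩ ∧ t' = tick + 2 * X.Δ h + 6 := by
  have hf : R (X.F h) (X.G h) 0 0 0 = update (R (X.G h + 1) (X.G h) 0 0 0) 0
      (R (X.G h + 1) (X.G h) 0 0 0 0 + (1 + X.Δ h)) := by rw [updR0, R0, F]
  constructor
  · rintro ⟨τ, s₁, s₂, ⟨rfl, rfl⟩, ⟨τ', s₃, s₄, h3, h4, rfl⟩, rfl⟩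
    obtain ⟨rfl, rfl⟩ := (X.runs_find' h w pos out 1 τ' s₃).1 h3
    obtain ⟨rfl, rfl⟩ := h4
    refine ⟨?_, ?_⟩
    · rw [hf]
    · simp only [Store.tk]
      ring
  · rintro ⟨rfl, rfl⟩
    refine ⟨_, tick + 2, 2 * X.Δ h + 3, ⟨rfl, rfl⟩, ⟨_, X.Δ h, X.Δ h + 2,
      (X.runs_find' h w pos out 1 _ _).2 ⟨rfl, rfl⟩, ⟨?_, ?_⟩, by ring⟩, by ring⟩
    · rw [hf]
    · show X.Δ h + 2 = 1 + X.Δ h + 1
      ring

end GapData

/-- `ε q^g` with `ε ∈ {0,1}` given by a Boolean. -/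
def lowpow (ε : Bool) (q g : ℕ) : ℕ := if ε then q ^ g else 0

theorem lowpow_le (ε : Bool) (q g : ℕ) : lowpow ε q g ≤ q ^ g := by
  unfold lowpow
  split_ifs <;> omega

/-- Compute the two powers. -/
def powers (q : ℕ) (ε : Bool) : Cmd :=
  Cmd.seq (if ε then pow q 1 2 4 else clear 1) (Cmd.seq (copy 0 1 4) (pow q 1 3 4))

theorem runs_powers {D : Set (List Bool)} (q : ℕ) (hq : 2 ≤ q) (ε : Bool) (g h : ℕ)
    (hgh : g < h) : ∃ t, t ≤ (4 * q + 60) * q ^ h ∧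
    Runs D (powers q ε) (R h g 0 0 0) [] (R h 0 (lowpow ε q g) (q ^ h) 0) [] t := by
  have hp : q ^ g ≤ q ^ h := Nat.pow_le_pow_right (by omega) hgh.le
  have hp1 : h < q ^ h := Nat.lt_pow_self (by omega)
  have e1 : ∃ t, t ≤ (2 * q + 14) * q ^ h + 3 ∧ Runs D (if ε then pow q 1 2 4 else clear 1)
      (R h g 0 0 0) [] (R h 0 (lowpow ε q g) 0 0) [] t := by
    cases ε with
    | true =>
      obtain ⟨t, ht, h1⟩ := runs_pow (D := D) q 1 2 4 hq (by omega) (by omega) (by omega) []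
        (R h g 0 0 0) rfl rfl
      refine ⟨t, ht.trans ?_, h1.cast ?_⟩
      · have := Nat.mul_le_mul_left (2 * q + 14) hp
        rw [R1]
        omega
      · rw [updR2, updR1]
        rfl
    | false =>
      refine ⟨2 * g + 1, ?_, (runs_clear (D := D) (q := []) 1 g (R h g 0 0 0) rfl).cast ?_⟩
      · nlinarith
      · rw [updR1]
        rfl
  obtain ⟨t1, ht1, e1⟩ := e1
  have e2 := (runs_copy (D := D) (q := []) 0 1 4 (by omega) (by omega) (by omega)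
    (R h 0 (lowpow ε q g) 0 0) rfl).cast (updR1 _ _ _ _ _ _)
  rw [R1, R0, Nat.zero_add] at e2
  obtain ⟨t3, ht3, e3⟩ := runs_pow (D := D) q 1 3 4 hq (by omega) (by omega) (by omega) []
    (R h h (lowpow ε q g) 0 0) rfl rfl
  rw [R1] at ht3 e3
  refine ⟨_, ?_, (runs_seq e1 (runs_seq e2 e3)).cast (by rw [updR3, updR1])⟩
  have e : (4 * q + 60) * q ^ h = (2 * q + 14) * q ^ h + (2 * q + 14) * q ^ h + 32 * q ^ h := by
    ring
  omega

/-- Consume `ε q^g + q^h` letters, emit `q^h` units. -/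
def body : Cmd := Cmd.seq (loop 2 4 Cmd.consume) (loop 3 4 (Cmd.seq Cmd.consume Cmd.emit))

theorem cruns_body {D : Set (List Bool)} {w : List Bool} (h E P : ℕ) :
    CRuns D w body (R h 0 E P 0) (R h 0 E P 0) (E + P) P (10 * E + 12 * P + 7) := by
  have e1 := cruns_loop (D := D) (w := w) 2 4 (by omega) Cmd.consume 1 0 1
    (fun r => cruns_consume) (R h 0 E P 0) rfl
  have e2 := cruns_loop (D := D) (w := w) 3 4 (by omega) (Cmd.seq Cmd.consume Cmd.emit)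
    1 1 3 (fun r => (cruns_seq cruns_consume cruns_emit)) (R h 0 E P 0) rfl
  refine (cruns_seq e1 e2).cast rfl ?_ ?_ ?_
  · rw [R2, R3]; ring
  · rw [R2, R3]; ring
  · rw [R2, R3]; ring

namespace GapData

variable {D : Set (List Bool)} (X : GapData D)

/-- One stage. -/
def stage (q : ℕ) (ε : Bool) : Cmd :=
  Cmd.seq X.advance (Cmd.seq (powers q ε) (Cmd.seq (dig body (q - 1))
    (Cmd.seq (clear 2) (clear 3))))

/-- The weight of the digit at the level after `h`. -/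
noncomputable def wt (q : ℕ) (ε : Bool) (h : ℕ) : ℕ := lowpow ε q (X.G h) + q ^ X.F h

theorem stage_sound (q : ℕ) (hq : 2 ≤ q) (ε : Bool) (w : List Bool) (h pos out tick : ℕ)
    (σ' : Store) (t' : ℕ)
    (hb : Big D w (X.stage q ε) ⟨R h 0 0 0 0, [], pos, out, tick⟩ σ' t') :
    ∃ d < q, ∃ tick', Cons w pos (d * X.wt q ε h) ∧
      σ' = ⟨R (X.F h) 0 0 0 0, [], pos + d * X.wt q ε h, out + d * q ^ X.F h, tick'⟩ := by
  obtain ⟨τ, s₁, s₂, h1, ⟨τ', s₃, s₄, h3, ⟨τ'', s₅, s₆, h5, h6, rfl⟩, rfl⟩, rfl⟩ := hb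
  obtain ⟨rfl, rfl⟩ := (X.big_advance w h pos out (tick + 1) τ s₁).1 h1
  obtain ⟨t, -, e⟩ := runs_powers (D := D) q hq ε (X.G h) (X.F h) (X.G_lt_F h)
  obtain ⟨rfl, rfl⟩ := (e w pos out 1 τ' s₃).1 h3
  obtain ⟨d, hd, hc, rfl⟩ := dig_sound (cruns_body _ _ _) (q - 1) pos out _ τ'' s₅ h5
  have e2 := runs_seq ((runs_clear (D := D) (q := []) 2 _
    (R (X.F h) 0 (lowpow ε q (X.G h)) (q ^ X.F h) 0) rfl).cast (updR2 _ _ _ _ _ _))
    ((runs_clear (D := D) (q := []) 3 _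
    (R (X.F h) 0 0 (q ^ X.F h) 0) rfl).cast (updR3 _ _ _ _ _ _))
  obtain ⟨rfl, rfl⟩ := (e2 w _ _ _ _ s₆).1 h6
  exact ⟨d, by omega, _, hc, rfl⟩

/-- A constant for time bounds. -/
def B (q : ℕ) : ℕ := 2 * (4 * q + 60) + 2 * (33 * (q - 1) + 1) + 30

theorem stage_complete (q : ℕ) (hq : 2 ≤ q) (ε : Bool) (w : List Bool) (h pos out tick d : ℕ)
    (hd : d < q) (hc : Cons w pos (d * X.wt q ε h)) :
    ∃ t tick', Big D w (X.stage q ε) ⟨R h 0 0 0 0, [], pos, out, tick⟩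
      ⟨R (X.F h) 0 0 0 0, [], pos + d * X.wt q ε h, out + d * q ^ X.F h, tick'⟩ t ∧
      t + tick' ≤ tick + B q * q ^ X.F h := by
  obtain ⟨t1, ht1, e1⟩ := runs_powers (D := D) q hq ε (X.G h) (X.F h) (X.G_lt_F h)
  obtain ⟨t2, ht2, e2⟩ := dig_complete (D := D) (w := w)
    (cruns_body (X.F h) (lowpow ε q (X.G h)) (q ^ X.F h)) (q - 1) d
    (by omega) pos out (1 + t1 + 1) hc
  have e3 := runs_seq ((runs_clear (D := D) (q := []) 2 _
    (R (X.F h) 0 (lowpow ε q (X.G h)) (q ^ X.F h) 0) rfl).cast (updR2 _ _ _ _ _ _))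
    ((runs_clear (D := D) (q := []) 3 _
    (R (X.F h) 0 0 (q ^ X.F h) 0) rfl).cast (updR3 _ _ _ _ _ _))
  refine ⟨_, _, ⟨_, _, _, (X.big_advance w h pos out (tick + 1) _ _).2 ⟨rfl, rfl⟩,
    ⟨_, _, _, (e1 w pos out 1 _ _).2 ⟨rfl, rfl⟩,
    ⟨_, _, _, e2, (e3 w _ _ _ _ _).2 ⟨rfl, rfl⟩, rfl⟩, rfl⟩, rfl⟩, ?_⟩
  simp only [R2, R3]
  have hp1 : X.F h < q ^ X.F h := Nat.lt_pow_self (by omega)
  have hp2 : q ^ X.G h ≤ q ^ X.F h := Nat.pow_le_pow_right (by omega) (X.G_lt_F h).le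
  have hp3 := lowpow_le ε q (X.G h)
  have hp4 := X.Δ_lt_F h
  have e4 : t2 ≤ (33 * (q - 1) + 1) * q ^ X.F h := by
    refine ht2.trans ?_
    have : (10 * lowpow ε q (X.G h) + 12 * q ^ X.F h + 7 + 4) * (q - 1) ≤
        (33 * q ^ X.F h) * (q - 1) := by
      refine Nat.mul_le_mul_right _ ?_
      have : 2 ≤ q ^ X.F h := by
        have : q ^ 1 ≤ q ^ X.F h := Nat.pow_le_pow_right (by omega)
          (by have := X.lt_F h; omega)
        rw [pow_one] at this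
        omega
      omega
    have e5 : (33 * (q - 1) + 1) * q ^ X.F h = (33 * q ^ X.F h) * (q - 1) + q ^ X.F h := by ring
    omega
  have e5 : B q * q ^ X.F h = 2 * ((4 * q + 60) * q ^ X.F h) +
      2 * ((33 * (q - 1) + 1) * q ^ X.F h) + 30 * q ^ X.F h := by
    rw [B]
    ring
  omega

end GapData

end Pool.Agent.Lib.MP_65a8de_lc
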